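import Mathlib

set_option autoImplicit false

open Filter Topology Matrix

/-!
# Homotopical rotation sets of homeomorphisms of closed hyperbolic surfaces

We use the hyperboloid model of the hyperbolic plane: `ℍ² = {x ∈ ℝ³ : ⟨x, x⟩ = -1, x₂ > 0}` for the
Lorentz form `⟨x, y⟩ = x₀ y₀ + x₁ y₁ - x₂ y₂`. The circle at infinity is the unit circle: the boundary
point `α = (α₀, α₁)` corresponds to the null line spanned by `(α₀, α₁, 1)`.
-/

namespace Pool.Agent.Lib.MP_e1777c_an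

/-- The Lorentz form `⟨x, y⟩ = x₀ y₀ + x₁ y₁ - x₂ y₂` on `ℝ³`. -/
def form (x y : Fin 3 → ℝ) : ℝ := x 0 * y 0 + x 1 * y 1 - x 2 * y 2

/-- The hyperbolic plane (hyperboloid model). -/
abbrev Plane : Type := {x : Fin 3 → ℝ // form x x = -1 ∧ 0 < x 2}

/-- The hyperbolic distance: `cosh d(x, y) = -⟨x, y⟩`. -/
noncomputable def hdist (x y : Plane) : ℝ := Real.arcosh (-form x.1 y.1)

/-- The circle at infinity of the hyperbolic plane. -/
abbrev Boundary : Type := {a : Fin 2 → ℝ // a 0 ^ 2 + a 1 ^ 2 = 1}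

/-- The null vector `(α₀, α₁, 1)` of the point `α` at infinity. -/
def nullVec (α : Boundary) : Fin 3 → ℝ := ![α.1 0, α.1 1, 1]

/-- The sequence `x_k` of points of the hyperbolic plane converges to the point `α` at infinity, in
the closed disc `ℍ² ∪ ∂ℍ²` (a point `x` of the plane being the point `(x₀ / x₂, x₁ / x₂)` of the open
disc). -/
def ConvergesTo (x : ℕ → Plane) (α : Boundary) : Prop :=
  Tendsto (fun k => (x k).1 0 / (x k).1 2) atTop (𝓝 (α.1 0)) ∧
    Tendsto (fun k => (x k).1 1 / (x k).1 2) atTop (𝓝 (α.1 1))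

/-- The geodesic with end points `α` and `β`. -/
def geodesic (α β : Boundary) : Set Plane :=
  {m | ∃ a b : ℝ, 0 < a ∧ 0 < b ∧ m.1 = a • nullVec α + b • nullVec β}

/-- `m` is the point of the geodesic `(α, β)` nearest to `x`. -/
def IsProj (α β : Boundary) (x m : Plane) : Prop :=
  m ∈ geodesic α β ∧ ∀ m' ∈ geodesic α β, hdist x m ≤ hdist x m'

/-- `g` is (the matrix of) an orientation preserving isometry of the hyperbolic plane. -/
def IsDirectIsometry (g : Matrix (Fin 3) (Fin 3) ℝ) : Prop :=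
  g.det = 1 ∧ (∀ x y, form (g *ᵥ x) (g *ᵥ y) = form x y) ∧ ∀ x : Plane, 0 < (g *ᵥ x.1) 2

/-- The fundamental group `Γ` of a closed orientable hyperbolic surface `S = ℍ² / Γ`: a group of
orientation preserving isometries acting freely, properly discontinuously and cocompactly on the
hyperbolic plane. (The sets `{x ∈ ℍ² : x₂ ≤ r}` are the closed balls about `(0, 0, 1)`.) -/
structure SurfaceGroup where
  /-- the elements of the group -/
  carrier : Set (Matrix (Fin 3) (Fin 3) ℝ)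
  one_mem : 1 ∈ carrier
  mul_mem : ∀ g ∈ carrier, ∀ h ∈ carrier, g * h ∈ carrier
  inv_mem : ∀ g ∈ carrier, g⁻¹ ∈ carrier
  isometry : ∀ g ∈ carrier, IsDirectIsometry g
  free : ∀ g ∈ carrier, ∀ x : Plane, g *ᵥ x.1 = x.1 → g = 1
  discrete : ∀ r : ℝ, {g | g ∈ carrier ∧ ∃ x : Plane, x.1 2 ≤ r ∧ (g *ᵥ x.1) 2 ≤ r}.Finite
  cocompact : ∃ r : ℝ, ∀ x : Plane, ∃ g ∈ carrier, (g *ᵥ x.1) 2 ≤ r

/-- `F` is the lift to `ℍ²` of a homeomorphism `f` of `S = ℍ² / Γ` homotopic to the identity, namely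
the one that extends to the identity of the circle at infinity: `F` is a homeomorphism of `ℍ²`
commuting with all elements of `Γ` and extending continuously by the identity to the circle at
infinity. -/
def IsLift (Γ : SurfaceGroup) (F : Plane ≃ₜ Plane) : Prop :=
  (∀ g ∈ Γ.carrier, ∀ x y : Plane, y.1 = g *ᵥ x.1 → (F y).1 = g *ᵥ (F x).1) ∧
    ∀ (x : ℕ → Plane) (α : Boundary), ConvergesTo x α → ConvergesTo (fun k => F (x k)) α

/-- `(α, β, v)`, with `v > 0`, is a rotation vector: there are points `x_k → α` and integers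
`n_k → ∞`, increasing, with `F^{n_k}(x_k) → β` and `d(π(x_k), π(F^{n_k}(x_k))) / n_k → v`, where `π` is
the nearest point projection to the geodesic `(α, β)`. -/
def IsRotationVector (F : Plane ≃ₜ Plane) (α β : Boundary) (v : ℝ) : Prop :=
  0 < v ∧ α ≠ β ∧ ∃ (x : ℕ → Plane) (n : ℕ → ℕ) (m m' : ℕ → Plane),
    (∀ k, 0 < n k) ∧ StrictMono n ∧ ConvergesTo x α ∧ ConvergesTo (fun k => F^[n k] (x k)) β ∧
    (∀ k, IsProj α β (x k) (m k)) ∧ (∀ k, IsProj α β (F^[n k] (x k)) (m' k)) ∧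
    Tendsto (fun k => hdist (m k) (m' k) / n k) atTop (𝓝 v)

/-- The geodesics `(α₁, β₁)` and `(α₂, β₂)` cross: the four end points are distinct and the two
geodesics have a common point. -/
def Cross (α₁ β₁ α₂ β₂ : Boundary) : Prop :=
  α₁ ≠ α₂ ∧ α₁ ≠ β₂ ∧ β₁ ≠ α₂ ∧ β₁ ≠ β₂ ∧ (geodesic α₁ β₁ ∩ geodesic α₂ β₂).Nonempty

/-- The timelike base vector. -/
def pV : Fin 3 → ℝ := ![0, 0, 1]

/-- Four unit spacelike vectors, defining four disjoint lines around `pV`. -/
noncomputable def eV : Fin 4 → Fin 3 → ℝ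
  | 0 => ![2, 0, √3]
  | 1 => ![0, 2, √3]
  | 2 => ![-2, 0, √3]
  | 3 => ![0, -2, √3]

/-- The arithmetic input of the construction (module ARITH): a surface group whose translates of the
four lines and of the base point are far apart from each other. -/
def ArithStatement : Prop := ∃ Γ : SurfaceGroup,
  (∀ g ∈ Γ.carrier, ∀ i j, (g *ᵥ eV i = eV j ∧ i = j) ∨ 3 ≤ |form (g *ᵥ eV i) (eV j)|) ∧
  (∀ g ∈ Γ.carrier, g *ᵥ pV = pV → g = 1) ∧
  (∀ g ∈ Γ.carrier, g *ᵥ pV = pV ∨ 100 ≤ -form (g *ᵥ pV) pV) ∧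
  (∀ g ∈ Γ.carrier, ∀ i, g *ᵥ eV i = eV i ∨ 100 ≤ |form (g *ᵥ eV i) pV|)

end Pool.Agent.Lib.MP_e1777c_an
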