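import Mathlib
import Pool.Agent.Lib.MP_e1777c_an.Defs

set_option autoImplicit false

open Matrix

/-!
# Module ARITH: a principal congruence subgroup of `SO(x² + y² - 3 z²; ℤ)`
-/

namespace Pool.Agent.Lib.MP_e1777c_an

namespace Ar

/-- integral matrices -/
abbrev MZ := Matrix (Fin 3) (Fin 3) ℤ
/-- real matrices -/
abbrev MR := Matrix (Fin 3) (Fin 3) ℝ

/-- the form `x² + y² - 3 z²` -/
def Q : MZ := Matrix.diagonal ![1, 1, -3]
/-- three times the inverse of `Q`, up to sign conventions -/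
def P : MZ := Matrix.diagonal ![3, 3, -1]

lemma col_rel {M : MZ} (h : Mᵀ * Q * M = Q) (i j : Fin 3) :
    M 0 i * M 0 j + M 1 i * M 1 j - 3 * (M 2 i * M 2 j) = Q i j := by
  have h2 := congrFun (congrFun h i) j
  rw [← h2]
  simp [Matrix.mul_apply, Fin.sum_univ_three, Q, Matrix.diagonal_apply]
  ring

lemma row_rel {M : MZ} (h : M * P * Mᵀ = P) (i j : Fin 3) :
    3 * (M i 0 * M j 0) + 3 * (M i 1 * M j 1) - (M i 2 * M j 2) = P i j := by
  have h2 := congrFun (congrFun h i) j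
  rw [← h2]
  simp [Matrix.mul_apply, Fin.sum_univ_three, P, Matrix.diagonal_apply]
  ring

/-- the group of integral isometries preserving the sheet -/
def G1 : Subgroup MZˣ where
  carrier := {u | (u : MZ)ᵀ * Q * u = Q ∧ (u : MZ) * P * (u : MZ)ᵀ = P ∧ 0 < (u : MZ) 2 2}
  one_mem' := by
    refine ⟨by simp, by simp, by simp⟩
  mul_mem' := by
    rintro u v ⟨hu1, hu2, hu3⟩ ⟨hv1, hv2, hv3⟩
    refine ⟨?_, ?_, ?_⟩
    · rw [Units.val_mul, Matrix.transpose_mul]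
      calc (v : MZ)ᵀ * (u : MZ)ᵀ * Q * ((u : MZ) * v)
          = (v : MZ)ᵀ * ((u : MZ)ᵀ * Q * u) * v := by noncomm_ring
        _ = Q := by rw [hu1, hv1]
    · rw [Units.val_mul, Matrix.transpose_mul]
      calc (u : MZ) * v * P * ((v : MZ)ᵀ * (u : MZ)ᵀ)
          = (u : MZ) * ((v : MZ) * P * (v : MZ)ᵀ) * (u : MZ)ᵀ := by noncomm_ring
        _ = P := by rw [hv2, hu2]
    · have hr := row_rel hu2 2 2
      have hc := col_rel hv1 2 2
      have hP : P 2 2 = -1 := by decide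
      have hQ : Q 2 2 = -3 := by decide
      rw [hP] at hr
      rw [hQ] at hc
      rw [Units.val_mul, Matrix.mul_apply, Fin.sum_univ_three]
      set a := (u : MZ) 2 0
      set b := (u : MZ) 2 1
      set c := (u : MZ) 2 2
      set x := (v : MZ) 0 2
      set y := (v : MZ) 1 2
      set z := (v : MZ) 2 2
      have h1 : (a * x + b * y) ^ 2 < (c * z) ^ 2 := by
        have e1 : 3 * (a ^ 2 + b ^ 2) = c ^ 2 - 1 := by linarith
        have e2 : x ^ 2 + y ^ 2 = 3 * (z ^ 2 - 1) := by linarith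
        have e3 : (a * x + b * y) ^ 2 ≤ (a ^ 2 + b ^ 2) * (x ^ 2 + y ^ 2) := by
          nlinarith [sq_nonneg (a * y - b * x)]
        have e4 : (a ^ 2 + b ^ 2) * (x ^ 2 + y ^ 2) = (c ^ 2 - 1) * (z ^ 2 - 1) := by
          rw [e2, ← e1]; ring
        have hc1 : 1 ≤ c := hu3
        have hz1 : 1 ≤ z := hv3
        nlinarith
      have h2 := abs_lt_of_sq_lt_sq h1 (by positivity)
      have h3 := neg_lt_of_abs_lt h2
      linarith
  inv_mem' := by
    rintro u ⟨hu1, hu2, hu3⟩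
    have e1 : (u : MZ) * (↑u⁻¹ : MZ) = 1 := Units.mul_inv u
    have e2 : (↑u⁻¹ : MZ) * (u : MZ) = 1 := Units.inv_mul u
    have e1t : (↑u⁻¹ : MZ)ᵀ * (u : MZ)ᵀ = 1 := by rw [← Matrix.transpose_mul, e1, Matrix.transpose_one]
    have e2t : (u : MZ)ᵀ * (↑u⁻¹ : MZ)ᵀ = 1 := by rw [← Matrix.transpose_mul, e2, Matrix.transpose_one]
    refine ⟨?_, ?_, ?_⟩
    · calc (↑u⁻¹ : MZ)ᵀ * Q * (↑u⁻¹ : MZ)
          = (↑u⁻¹ : MZ)ᵀ * ((u : MZ)ᵀ * Q * u) * (↑u⁻¹ : MZ) := by rw [hu1]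
        _ = ((↑u⁻¹ : MZ)ᵀ * (u : MZ)ᵀ) * Q * ((u : MZ) * (↑u⁻¹ : MZ)) := by noncomm_ring
        _ = Q := by rw [e1, e1t]; simp
    · calc (↑u⁻¹ : MZ) * P * (↑u⁻¹ : MZ)ᵀ
          = (↑u⁻¹ : MZ) * ((u : MZ) * P * (u : MZ)ᵀ) * (↑u⁻¹ : MZ)ᵀ := by rw [hu2]
        _ = ((↑u⁻¹ : MZ) * (u : MZ)) * P * ((u : MZ)ᵀ * (↑u⁻¹ : MZ)ᵀ) := by noncomm_ring
        _ = P := by rw [e2, e2t]; simp
    · have e3 : (u : MZ)ᵀ * Q = Q * (↑u⁻¹ : MZ) := by
        calc (u : MZ)ᵀ * Q = (u : MZ)ᵀ * Q * ((u : MZ) * (↑u⁻¹ : MZ)) := by rw [e1]; simp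
          _ = ((u : MZ)ᵀ * Q * u) * (↑u⁻¹ : MZ) := by noncomm_ring
          _ = _ := by rw [hu1]
      have e4 := congrFun (congrFun e3 2) 2
      simp [-Matrix.coe_units_inv, Matrix.mul_apply, Q, Matrix.diagonal_apply] at e4
      have hu3' : 0 < (u : MZ) 2 2 := hu3
      show 0 < (↑u⁻¹ : MZ) 2 2
      linarith

/-- reduction modulo `1000` -/
def red : MZˣ →* (Matrix (Fin 3) (Fin 3) (ZMod 1000))ˣ :=
  Units.map (RingHom.mapMatrix (Int.castRingHom (ZMod 1000))).toMonoidHom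

/-- the principal congruence subgroup -/
def Gam : Subgroup MZˣ := G1 ⊓ red.ker

lemma red_apply (u : MZˣ) (i j : Fin 3) :
    (red u : Matrix (Fin 3) (Fin 3) (ZMod 1000)) i j = (((u : MZ) i j : ℤ) : ZMod 1000) := by
  simp [red, RingHom.mapMatrix_apply]

lemma cong {u : MZˣ} (hu : u ∈ Gam) (i j : Fin 3) :
    (1000 : ℤ) ∣ (u : MZ) i j - (1 : MZ) i j := by
  have h1 : red u = 1 := hu.2
  have h2 := red_apply u i j
  rw [h1] at h2
  have h3 : (((u : MZ) i j - (1 : MZ) i j : ℤ) : ZMod 1000) = 0 := by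
    push_cast
    rw [← h2]
    by_cases hij : i = j
    · subst hij; simp
    · simp [hij]
  exact_mod_cast (ZMod.intCast_zmod_eq_zero_iff_dvd _ 1000).1 h3

/-- the diagonal change of coordinates -/
noncomputable def dV : Fin 3 → ℝ := ![1, 1, √3]
/-- its inverse -/
noncomputable def dI : Fin 3 → ℝ := ![1, 1, (√3)⁻¹]

lemma dI_mul_dV (i : Fin 3) : dI i * dV i = 1 := by
  fin_cases i <;> simp [dI, dV]

lemma dV_mul_dI (i : Fin 3) : dV i * dI i = 1 := by
  fin_cases i <;> simp [dI, dV]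

/-- the real matrix `D M D⁻¹` -/
noncomputable def rho (M : MZ) : MR := Matrix.of fun i j => dV i * (M i j : ℝ) * dI j

lemma rho_apply (M : MZ) (i j : Fin 3) : rho M i j = dV i * (M i j : ℝ) * dI j := rfl

lemma rho_one : rho 1 = 1 := by
  ext i j
  rw [rho_apply]
  by_cases hij : i = j
  · subst hij; simp [dV_mul_dI]
  · simp [hij]

lemma rho_mul (M N : MZ) : rho (M * N) = rho M * rho N := by
  ext i j
  simp only [rho_apply, Matrix.mul_apply, Int.cast_sum, Int.cast_mul, Finset.mul_sum,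
    Finset.sum_mul]
  refine Finset.sum_congr rfl fun k _ => ?_
  linear_combination (-dV i * M i k * N k j * dI j) * dI_mul_dV k

lemma sqrt3_sq : √3 ^ 2 = (3 : ℝ) := Real.sq_sqrt (by norm_num)

lemma sqrt3_pos : (0 : ℝ) < √3 := Real.sqrt_pos.2 (by norm_num)

/-- the signs of the Lorentz form -/
noncomputable def Jr (i j : Fin 3) : ℝ := if i = j then ![1, 1, -1] i else 0

lemma rcol {u : MZˣ} (hu : u ∈ G1) (i j : Fin 3) :
    rho u 0 i * rho u 0 j + rho u 1 i * rho u 1 j - rho u 2 i * rho u 2 j = Jr i j := by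
  have h := col_rel hu.1 i j
  have h' : ((u : MZ) 0 i : ℝ) * (u : MZ) 0 j + (u : MZ) 1 i * (u : MZ) 1 j
    - 3 * ((u : MZ) 2 i * (u : MZ) 2 j) = (Q i j : ℤ) := by exact_mod_cast h
  have e0 : dV 0 = 1 := rfl
  have e1 : dV 1 = 1 := rfl
  have e2 : dV 2 = √3 := rfl
  have e3 : ((Q i j : ℤ) : ℝ) * dI i * dI j = Jr i j := by
    have h3 : (√3)⁻¹ * (√3)⁻¹ = (1 / 3 : ℝ) := by
      rw [← mul_inv, Real.mul_self_sqrt (by norm_num)]; norm_num
    fin_cases i <;> fin_cases j <;> simp [Q, dI, Jr]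
    linarith
  rw [← e3, ← h']
  simp only [rho_apply, e0, e1, e2]
  linear_combination (-(dI i * dI j * (u : MZ) 2 i * (u : MZ) 2 j)) * sqrt3_sq

lemma rrow {u : MZˣ} (hu : u ∈ G1) (i j : Fin 3) :
    rho u i 0 * rho u j 0 + rho u i 1 * rho u j 1 - rho u i 2 * rho u j 2 = Jr i j := by
  have h := row_rel hu.2.1 i j
  have h' : 3 * (((u : MZ) i 0 : ℝ) * (u : MZ) j 0) + 3 * ((u : MZ) i 1 * (u : MZ) j 1)
    - ((u : MZ) i 2 * (u : MZ) j 2) = (P i j : ℤ) := by exact_mod_cast h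
  have e0 : dI 0 = 1 := rfl
  have e1 : dI 1 = 1 := rfl
  have e2 : dI 2 = (√3)⁻¹ := rfl
  have h3 : (√3)⁻¹ * (√3)⁻¹ = (1 / 3 : ℝ) := by
    rw [← mul_inv, Real.mul_self_sqrt (by norm_num)]; norm_num
  have e3 : ((P i j : ℤ) : ℝ) * dV i * dV j = 3 * Jr i j := by
    have h4 := sqrt3_sq
    fin_cases i <;> fin_cases j <;> simp [P, dV, Jr]
  simp only [rho_apply, e0, e1, e2]
  linear_combination (1/3) * e3 + (1/3) * dV i * dV j * h' - (dV i * dV j * (u : MZ) i 2 * (u : MZ) j 2) * h3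

lemma Jr00 : Jr 0 0 = 1 := by simp [Jr]
lemma Jr01 : Jr 0 1 = 0 := by simp [Jr]
lemma Jr02 : Jr 0 2 = 0 := by simp [Jr]
lemma Jr11 : Jr 1 1 = 1 := by simp [Jr]
lemma Jr12 : Jr 1 2 = 0 := by simp [Jr]
lemma Jr22 : Jr 2 2 = -1 := by simp [Jr]

lemma mulVec_apply3 (g : MR) (x : Fin 3 → ℝ) (i : Fin 3) :
    (g *ᵥ x) i = g i 0 * x 0 + g i 1 * x 1 + g i 2 * x 2 := by
  simp [Matrix.mulVec, dotProduct, Fin.sum_univ_three]

lemma form_rho {u : MZˣ} (hu : u ∈ G1) (x y : Fin 3 → ℝ) :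
    form (rho u *ᵥ x) (rho u *ᵥ y) = form x y := by
  have h00 := rcol hu 0 0
  have h01 := rcol hu 0 1
  have h02 := rcol hu 0 2
  have h11 := rcol hu 1 1
  have h12 := rcol hu 1 2
  have h22 := rcol hu 2 2
  rw [Jr00] at h00
  rw [Jr01] at h01
  rw [Jr02] at h02
  rw [Jr11] at h11
  rw [Jr12] at h12
  rw [Jr22] at h22
  simp only [form, mulVec_apply3]
  linear_combination (x 0 * y 0) * h00 + (x 0 * y 1 + x 1 * y 0) * h01
    + (x 0 * y 2 + x 2 * y 0) * h02 + (x 1 * y 1) * h11 + (x 1 * y 2 + x 2 * y 1) * h12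
    + (x 2 * y 2) * h22

lemma plane_rel (k : Plane) : k.1 0 ^ 2 + k.1 1 ^ 2 = k.1 2 ^ 2 - 1 := by
  have h := k.2.1
  simp only [form] at h
  linarith

lemma plane_one_le (k : Plane) : 1 ≤ k.1 2 := by
  have h := plane_rel k
  have h2 := k.2.2
  nlinarith [sq_nonneg (k.1 0), sq_nonneg (k.1 1)]

lemma key {a b c : ℝ} (hc : 0 ≤ c) (habc : a ^ 2 + b ^ 2 ≤ c ^ 2) (k : Plane) :
    c ≤ 2 * k.1 2 * (a * k.1 0 + b * k.1 1 + c * k.1 2) := by
  have h1 := plane_rel k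
  have h2 := plane_one_le k
  set x := k.1 0
  set y := k.1 1
  set t := k.1 2
  have h3 : (a * x + b * y) ^ 2 ≤ c ^ 2 * (t ^ 2 - 1) := by
    have e1 : (a * x + b * y) ^ 2 ≤ (a ^ 2 + b ^ 2) * (x ^ 2 + y ^ 2) := by
      nlinarith [sq_nonneg (a * y - b * x)]
    rw [h1] at e1
    have e2 : 0 ≤ t ^ 2 - 1 := by nlinarith
    nlinarith
  have h4 : (2 * t * (a * x + b * y)) ^ 2 ≤ (c * (2 * t ^ 2 - 1)) ^ 2 := by
    have e3 : (2 * t * (a * x + b * y)) ^ 2 = 4 * t ^ 2 * (a * x + b * y) ^ 2 := by ring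
    have e4 : 4 * t ^ 2 * (a * x + b * y) ^ 2 ≤ 4 * t ^ 2 * (c ^ 2 * (t ^ 2 - 1)) :=
      mul_le_mul_of_nonneg_left h3 (by positivity)
    nlinarith [sq_nonneg c]
  have h5 := abs_le_of_sq_le_sq h4 (by
    have : 0 ≤ 2 * t ^ 2 - 1 := by nlinarith
    positivity)
  have h6 := neg_le_of_abs_le h5
  nlinarith

lemma rho22_pos {u : MZˣ} (hu : u ∈ G1) : 1 ≤ rho u 2 2 := by
  have h : 0 < (u : MZ) 2 2 := hu.2.2
  have h2 : rho u 2 2 = ((u : MZ) 2 2 : ℝ) := by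
    rw [rho_apply, mul_comm (dV 2), mul_assoc, dV_mul_dI, mul_one]
  rw [h2]
  exact_mod_cast h

lemma rho22 (u : MZ) : rho u 2 2 = (u 2 2 : ℝ) := by
  rw [rho_apply, mul_comm (dV 2), mul_assoc, dV_mul_dI, mul_one]

lemma key_rho {u : MZˣ} (hu : u ∈ G1) (k : Plane) :
    rho u 2 2 ≤ 2 * k.1 2 * (rho u *ᵥ k.1) 2 := by
  have h1 := rrow hu 2 2
  rw [Jr22] at h1
  rw [mulVec_apply3]
  exact key (by linarith [rho22_pos hu]) (by nlinarith) k

lemma rho_sheet {u : MZˣ} (hu : u ∈ G1) (k : Plane) : 0 < (rho u *ᵥ k.1) 2 := by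
  have h1 := key_rho hu k
  have h2 := rho22_pos hu
  have h3 := plane_one_le k
  by_contra h
  push Not at h
  nlinarith

/-- the action on the plane -/
noncomputable def act {u : MZˣ} (hu : u ∈ G1) (k : Plane) : Plane :=
  ⟨rho u *ᵥ k.1, by rw [form_rho hu]; exact k.2.1, rho_sheet hu k⟩

lemma rho_inv_mul (u : MZˣ) : rho (↑u⁻¹ : MZ) * rho u = 1 := by
  rw [← rho_mul, Units.inv_mul, rho_one]

lemma rho_mul_inv (u : MZˣ) : rho u * rho (↑u⁻¹ : MZ) = 1 := by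
  rw [← rho_mul, Units.mul_inv, rho_one]

lemma gam_one_of_rho22 {u : MZˣ} (hu : u ∈ Gam) (h : (u : MZ) 2 2 = 1) : (u : MZ) = 1 := by
  have hr := row_rel hu.1.2.1 2 2
  have c00 := col_rel hu.1.1 0 0
  have c11 := col_rel hu.1.1 1 1
  have c22 := col_rel hu.1.1 2 2
  have d00 := cong hu 0 0
  have d01 := cong hu 0 1
  have d10 := cong hu 1 0
  have d11 := cong hu 1 1
  rw [show P 2 2 = -1 by decide] at hr
  rw [show Q 0 0 = 1 by decide] at c00
  rw [show Q 1 1 = 1 by decide] at c11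
  rw [show Q 2 2 = -3 by decide] at c22
  rw [show (1 : MZ) 0 0 = 1 by decide] at d00
  rw [show (1 : MZ) 0 1 = 0 by decide] at d01
  rw [show (1 : MZ) 1 0 = 0 by decide] at d10
  rw [show (1 : MZ) 1 1 = 1 by decide] at d11
  rw [h] at hr c22
  have h20 : (u : MZ) 2 0 = 0 := by nlinarith [mul_self_nonneg ((u : MZ) 2 0), mul_self_nonneg ((u : MZ) 2 1)]
  have h21 : (u : MZ) 2 1 = 0 := by nlinarith [mul_self_nonneg ((u : MZ) 2 0), mul_self_nonneg ((u : MZ) 2 1)]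
  have h02 : (u : MZ) 0 2 = 0 := by nlinarith [mul_self_nonneg ((u : MZ) 0 2), mul_self_nonneg ((u : MZ) 1 2)]
  have h12 : (u : MZ) 1 2 = 0 := by nlinarith [mul_self_nonneg ((u : MZ) 0 2), mul_self_nonneg ((u : MZ) 1 2)]
  rw [h20] at c00
  rw [h21] at c11
  have b00 : (u : MZ) 0 0 = 1 ∧ (u : MZ) 1 0 = 0 := by
    have e1 : (u : MZ) 0 0 ≤ 1 := by nlinarith [mul_self_nonneg ((u : MZ) 0 0), mul_self_nonneg ((u : MZ) 1 0)]
    have e2 : -1 ≤ (u : MZ) 0 0 := by nlinarith [mul_self_nonneg ((u : MZ) 0 0), mul_self_nonneg ((u : MZ) 1 0)]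
    have e3 : (u : MZ) 0 0 = 1 := by omega
    rw [e3] at c00
    exact ⟨e3, by nlinarith [mul_self_nonneg ((u : MZ) 1 0)]⟩
  have b11 : (u : MZ) 1 1 = 1 ∧ (u : MZ) 0 1 = 0 := by
    have e1 : (u : MZ) 1 1 ≤ 1 := by nlinarith [mul_self_nonneg ((u : MZ) 0 1), mul_self_nonneg ((u : MZ) 1 1)]
    have e2 : -1 ≤ (u : MZ) 1 1 := by nlinarith [mul_self_nonneg ((u : MZ) 0 1), mul_self_nonneg ((u : MZ) 1 1)]
    have e3 : (u : MZ) 1 1 = 1 := by omega
    rw [e3] at c11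
    exact ⟨e3, by nlinarith [mul_self_nonneg ((u : MZ) 0 1)]⟩
  ext i j
  fin_cases i <;> fin_cases j
  · simpa using b00.1
  · simpa using b11.2
  · simpa using h02
  · simpa using b00.2
  · simpa using b11.1
  · simpa using h12
  · simpa using h20
  · simpa using h21
  · simpa using h

lemma det_rho (M : MZ) : (rho M).det = ((M.det : ℤ) : ℝ) := by
  have h : (rho M).det = (dV 0 * dI 0) * (dV 1 * dI 1) * (dV 2 * dI 2) * ((M.det : ℤ) : ℝ) := by
    rw [Matrix.det_fin_three, Matrix.det_fin_three]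
    push_cast
    simp only [rho_apply]
    ring
  rw [h, dV_mul_dI, dV_mul_dI, dV_mul_dI]
  ring

lemma det_gam {u : MZˣ} (hu : u ∈ Gam) : (u : MZ).det = 1 := by
  have h1 : red u = 1 := hu.2
  have h2 : (((u : MZ).det : ℤ) : ZMod 1000) = 1 := by
    have h3 := (Int.castRingHom (ZMod 1000)).map_det (u : MZ)
    have h4 : (Int.castRingHom (ZMod 1000)).mapMatrix (u : MZ)
        = ((red u : (Matrix (Fin 3) (Fin 3) (ZMod 1000))ˣ) : Matrix (Fin 3) (Fin 3) (ZMod 1000)) := rfl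
    rw [h4, h1] at h3
    simpa using h3
  have h5 : (u : MZ).det * (u : MZ).det = 1 := by
    have h6 := congrArg Matrix.det hu.1.1
    rw [Matrix.det_mul, Matrix.det_mul, Matrix.det_transpose] at h6
    have h7 : Q.det = -3 := by simp [Q, Matrix.det_diagonal, Fin.prod_univ_three]
    rw [h7] at h6
    linarith
  rcases mul_self_eq_one_iff.1 h5 with h | h
  · exact h
  · exfalso
    rw [h] at h2
    revert h2
    decide

/-- the integral reflection in the vector `(a, b, 1)` of norm `2` -/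
def reflM (a b : ℤ) : MZ := !![1 - a ^ 2, -(a * b), 3 * a; -(a * b), 1 - b ^ 2, 3 * b; -a, -b, 4]

lemma reflM_sq {a b : ℤ} (h : a ^ 2 + b ^ 2 = 5) : reflM a b * reflM a b = 1 := by
  ext i j
  fin_cases i <;> fin_cases j <;> simp [reflM, Matrix.mul_apply, Fin.sum_univ_three]
  · linear_combination (a ^ 2) * h
  · linear_combination (a * b) * h
  · linear_combination (-3 * a) * h
  · linear_combination (a * b) * h
  · linear_combination (b ^ 2) * h
  · linear_combination (-3 * b) * h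
  · linear_combination a * h
  · linear_combination b * h
  · linear_combination (-3) * h

/-- the reflection as a unit -/
def refl {a b : ℤ} (h : a ^ 2 + b ^ 2 = 5) : MZˣ := ⟨reflM a b, reflM a b, reflM_sq h, reflM_sq h⟩

lemma refl_mem {a b : ℤ} (h : a ^ 2 + b ^ 2 = 5) : refl h ∈ G1 := by
  refine ⟨?_, ?_, ?_⟩
  · change (reflM a b)ᵀ * Q * reflM a b = Q
    ext i j
    fin_cases i <;> fin_cases j <;>
      simp [reflM, Q, Matrix.mul_apply, Fin.sum_univ_three, Matrix.diagonal_apply]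
    · linear_combination (a ^ 2) * h
    · linear_combination (a * b) * h
    · linear_combination (-3 * a) * h
    · linear_combination (a * b) * h
    · linear_combination (b ^ 2) * h
    · linear_combination (-3 * b) * h
    · linear_combination (-3 * a) * h
    · linear_combination (-3 * b) * h
    · linear_combination 9 * h
  · change reflM a b * P * (reflM a b)ᵀ = P
    ext i j
    fin_cases i <;> fin_cases j <;>
      simp [reflM, P, Matrix.mul_apply, Fin.sum_univ_three, Matrix.vecMul_diagonal]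
    · linear_combination (3 * a ^ 2) * h
    · linear_combination (3 * a * b) * h
    · linear_combination (3 * a) * h
    · linear_combination (3 * a * b) * h
    · linear_combination (3 * b ^ 2) * h
    · linear_combination (3 * b) * h
    · linear_combination (3 * a) * h
    · linear_combination (3 * b) * h
    · linear_combination 3 * h
  · change 0 < reflM a b 2 2
    simp [reflM]

lemma refl_apply {a b : ℤ} (h : a ^ 2 + b ^ 2 = 5) (z : Fin 3 → ℝ) :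
    (rho (refl h) *ᵥ z) 2 = 4 * z 2 - √3 * (a * z 0 + b * z 1) := by
  rw [mulVec_apply3, rho22]
  have e1 : rho (refl h) 2 0 = - (√3 * a) := by
    simp [rho_apply, refl, reflM, dV, dI]
  have e2 : rho (refl h) 2 1 = - (√3 * b) := by
    simp [rho_apply, refl, reflM, dV, dI]
  have e3 : ((refl h : MZˣ) : MZ) 2 2 = 4 := by
    simp [refl, reflM]
  rw [e1, e2, e3]
  push_cast
  ring

lemma exists_ab (x y : ℝ) : ∃ a b : ℤ, a ^ 2 + b ^ 2 = 5 ∧ 0 ≤ a * x + b * y ∧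
    4 * (x ^ 2 + y ^ 2) ≤ (a * x + b * y) ^ 2 := by
  have main : ∀ x y : ℝ, 0 ≤ y → y ≤ x → 0 ≤ 2 * x + y ∧ 4 * (x ^ 2 + y ^ 2) ≤ (2 * x + y) ^ 2 := by
    intro x y hy hxy
    refine ⟨by linarith, ?_⟩
    nlinarith
  rcases le_total 0 x with hx | hx <;> rcases le_total 0 y with hy | hy
  · rcases le_total y x with h | h
    · have := main x y hy h
      exact ⟨2, 1, by norm_num, by push_cast; linarith [this.1], by push_cast; nlinarith [this.2]⟩
    · have := main y x hx h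
      exact ⟨1, 2, by norm_num, by push_cast; linarith [this.1], by push_cast; nlinarith [this.2]⟩
  · rcases le_total (-y) x with h | h
    · have := main x (-y) (by linarith) h
      exact ⟨2, -1, by norm_num, by push_cast; linarith [this.1], by push_cast; nlinarith [this.2]⟩
    · have := main (-y) x hx h
      exact ⟨1, -2, by norm_num, by push_cast; linarith [this.1], by push_cast; nlinarith [this.2]⟩
  · rcases le_total y (-x) with h | h
    · have := main (-x) y hy h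
      exact ⟨-2, 1, by norm_num, by push_cast; linarith [this.1], by push_cast; nlinarith [this.2]⟩
    · have := main y (-x) (by linarith) h
      exact ⟨-1, 2, by norm_num, by push_cast; linarith [this.1], by push_cast; nlinarith [this.2]⟩
  · rcases le_total (-y) (-x) with h | h
    · have := main (-x) (-y) (by linarith) h
      exact ⟨-2, -1, by norm_num, by push_cast; linarith [this.1], by push_cast; nlinarith [this.2]⟩
    · have := main (-y) (-x) (by linarith) h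
      exact ⟨-1, -2, by norm_num, by push_cast; linarith [this.1], by push_cast; nlinarith [this.2]⟩

lemma step (z : Plane) (hz : 3 ≤ z.1 2) : ∃ h ∈ G1, (rho (h : MZˣ) *ᵥ z.1) 2 ≤ z.1 2 - 7 / 10 := by
  obtain ⟨a, b, hab, h1, h2⟩ := exists_ab (z.1 0) (z.1 1)
  refine ⟨refl hab, refl_mem hab, ?_⟩
  rw [refl_apply]
  rw [plane_rel z] at h2
  set s := (a : ℝ) * z.1 0 + b * z.1 1
  set t := z.1 2
  by_contra hcon
  push Not at hcon
  have h3 : √3 * s < 3 * t + 7 / 10 := by linarith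
  have h4 : (√3 * s) ^ 2 < (3 * t + 7 / 10) ^ 2 :=
    pow_lt_pow_left₀ h3 (by positivity) (by norm_num)
  rw [mul_pow, sqrt3_sq] at h4
  nlinarith

lemma reduce (z : Plane) : ∃ h ∈ G1, (rho (h : MZˣ) *ᵥ z.1) 2 ≤ 3 := by
  have main : ∀ n : ℕ, ∀ z : Plane, z.1 2 ≤ 3 + 7 / 10 * n →
      ∃ h ∈ G1, (rho (h : MZˣ) *ᵥ z.1) 2 ≤ 3 := by
    intro n
    induction n with
    | zero =>
      intro z hz
      refine ⟨1, one_mem _, ?_⟩
      rw [Units.val_one, rho_one, Matrix.one_mulVec]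
      simpa using hz
    | succ n ih =>
      intro z hz
      by_cases h3 : 3 ≤ z.1 2
      · obtain ⟨h, hh, hz2⟩ := step z h3
        obtain ⟨h', hh', hz3⟩ := ih (act hh z) (by
          change (rho (h : MZˣ) *ᵥ z.1) 2 ≤ _
          push_cast at hz
          linarith)
        refine ⟨h' * h, mul_mem hh' hh, ?_⟩
        rw [Units.val_mul, rho_mul, ← Matrix.mulVec_mulVec]
        exact hz3
      · refine ⟨1, one_mem _, ?_⟩
        rw [Units.val_one, rho_one, Matrix.one_mulVec]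
        linarith
  obtain ⟨n, hn⟩ := exists_nat_ge ((z.1 2 - 3) / (7 / 10))
  refine main n z ?_
  rw [div_le_iff₀ (by norm_num)] at hn
  linarith

lemma gam_rho22 {u : MZˣ} (hu : u ∈ Gam) : (u : MZ) 2 2 = 1 ∨ 1001 ≤ (u : MZ) 2 2 := by
  have h1 := cong hu 2 2
  rw [show (1 : MZ) 2 2 = 1 by decide] at h1
  have h2 : 0 < (u : MZ) 2 2 := hu.1.2.2
  omega

lemma gam_free {u : MZˣ} (hu : u ∈ Gam) (z : Plane) (hz : rho u *ᵥ z.1 = z.1) : u = 1 := by
  obtain ⟨h, hh, hz2⟩ := reduce z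
  set k : Plane := act hh z with hk
  have hk2 : k.1 2 ≤ 3 := hz2
  set u' := h * u * h⁻¹ with hu'
  have hu'G : u' ∈ Gam := by
    refine Subgroup.mem_inf.2 ⟨G1.mul_mem (G1.mul_mem hh hu.1) (G1.inv_mem hh), ?_⟩
    have : (red : MZˣ →* _).ker.Normal := inferInstance
    exact this.conj_mem u hu.2 h
  have hfix : rho u' *ᵥ k.1 = k.1 := by
    change rho u' *ᵥ (rho h *ᵥ z.1) = rho h *ᵥ z.1
    rw [Matrix.mulVec_mulVec, ← rho_mul, hu']
    rw [← Units.val_mul, inv_mul_cancel_right, Units.val_mul, rho_mul, ← Matrix.mulVec_mulVec, hz]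
  have h1 := key_rho hu'G.1 k
  rw [hfix, rho22] at h1
  have h0 := plane_one_le k
  have h2 : ((u' : MZ) 2 2 : ℝ) ≤ 18 := by nlinarith
  have h3 : (u' : MZ) 2 2 ≤ 18 := by exact_mod_cast h2
  have h4 : (u' : MZ) 2 2 = 1 := by
    rcases gam_rho22 hu'G with h | h
    · exact h
    · omega
  have h5 := gam_one_of_rho22 hu'G h4
  have h6 : u' = 1 := Units.ext h5
  rw [hu'] at h6
  have h7 : u = h⁻¹ * (h * u * h⁻¹) * h := by group
  rw [h7, h6]
  group

/-- a bound for the action of an integral matrix on points with `z₂ ≤ 3` -/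
lemma mulVec_le (g : MR) (z : Plane) (hz : z.1 2 ≤ 3) :
    (g *ᵥ z.1) 2 ≤ 3 * (|g 2 0| + |g 2 1| + |g 2 2|) := by
  have h1 := plane_rel z
  have h2 := plane_one_le z
  have hx : |z.1 0| ≤ 3 := by
    refine abs_le_of_sq_le_sq ?_ (by norm_num)
    nlinarith [sq_nonneg (z.1 1)]
  have hy : |z.1 1| ≤ 3 := by
    refine abs_le_of_sq_le_sq ?_ (by norm_num)
    nlinarith [sq_nonneg (z.1 0)]
  have ht : |z.1 2| ≤ 3 := by rw [abs_of_nonneg (by linarith)]; exact hz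
  rw [mulVec_apply3]
  have e0 : g 2 0 * z.1 0 ≤ |g 2 0| * 3 := by
    calc g 2 0 * z.1 0 ≤ |g 2 0 * z.1 0| := le_abs_self _
      _ = |g 2 0| * |z.1 0| := abs_mul _ _
      _ ≤ _ := mul_le_mul_of_nonneg_left hx (abs_nonneg _)
  have e1 : g 2 1 * z.1 1 ≤ |g 2 1| * 3 := by
    calc g 2 1 * z.1 1 ≤ |g 2 1 * z.1 1| := le_abs_self _
      _ = |g 2 1| * |z.1 1| := abs_mul _ _
      _ ≤ _ := mul_le_mul_of_nonneg_left hy (abs_nonneg _)
  have e2 : g 2 2 * z.1 2 ≤ |g 2 2| * 3 := by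
    calc g 2 2 * z.1 2 ≤ |g 2 2 * z.1 2| := le_abs_self _
      _ = |g 2 2| * |z.1 2| := abs_mul _ _
      _ ≤ _ := mul_le_mul_of_nonneg_left ht (abs_nonneg _)
  linarith

lemma gam_cocompact : ∃ r : ℝ, ∀ z : Plane, ∃ u ∈ Gam, (rho (u : MZˣ) *ᵥ z.1) 2 ≤ r := by
  classical
  -- representatives
  let c : (Matrix (Fin 3) (Fin 3) (ZMod 1000))ˣ → MZˣ := fun ρ =>
    if h : ∃ u ∈ G1, red u = ρ then h.choose else 1
  let Bd : (Matrix (Fin 3) (Fin 3) (ZMod 1000))ˣ → ℝ := fun ρ =>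
    3 * (|rho ((c ρ)⁻¹ : MZˣ) 2 0| + |rho ((c ρ)⁻¹ : MZˣ) 2 1| + |rho ((c ρ)⁻¹ : MZˣ) 2 2|)
  obtain ⟨r, hr⟩ := (Set.finite_range Bd).bddAbove
  refine ⟨r, fun z => ?_⟩
  obtain ⟨h, hh, hz⟩ := reduce z
  have hex : ∃ u ∈ G1, red u = red h := ⟨h, hh, rfl⟩
  have hc : c (red h) ∈ G1 ∧ red (c (red h)) = red h := by
    simp only [c, dif_pos hex]
    exact hex.choose_spec
  refine ⟨(c (red h))⁻¹ * h, Subgroup.mem_inf.2 ⟨G1.mul_mem (G1.inv_mem hc.1) hh, ?_⟩, ?_⟩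
  · rw [MonoidHom.mem_ker, map_mul, map_inv, hc.2, inv_mul_cancel]
  · rw [Units.val_mul, rho_mul, ← Matrix.mulVec_mulVec]
    exact (mulVec_le _ (act hh z) hz).trans (hr ⟨red h, rfl⟩)

lemma entry_bound {u : MZˣ} (hu : u ∈ G1) (i j : Fin 3) : |(u : MZ) i j| ≤ 2 * (u : MZ) 2 2 := by
  have hr := row_rel hu.2.1 2 2
  have c0 := col_rel hu.1 0 0
  have c1 := col_rel hu.1 1 1
  have c2 := col_rel hu.1 2 2
  rw [show P 2 2 = -1 by decide] at hr
  rw [show Q 0 0 = 1 by decide] at c0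
  rw [show Q 1 1 = 1 by decide] at c1
  rw [show Q 2 2 = -3 by decide] at c2
  have hpos : 0 < (u : MZ) 2 2 := hu.2.2
  have h20 := mul_self_nonneg ((u : MZ) 2 0)
  have h21 := mul_self_nonneg ((u : MZ) 2 1)
  have h00 := mul_self_nonneg ((u : MZ) 0 0)
  have h01 := mul_self_nonneg ((u : MZ) 0 1)
  have h02 := mul_self_nonneg ((u : MZ) 0 2)
  have h10 := mul_self_nonneg ((u : MZ) 1 0)
  have h11 := mul_self_nonneg ((u : MZ) 1 1)
  have h12 := mul_self_nonneg ((u : MZ) 1 2)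
  have hc : 1 ≤ (u : MZ) 2 2 * (u : MZ) 2 2 := by nlinarith
  refine abs_le_of_sq_le_sq ?_ (by linarith)
  fin_cases i <;> fin_cases j <;> simp only [Fin.zero_eta, Fin.mk_one, Fin.reduceFinMk] <;> nlinarith

lemma gam_discrete (r : ℝ) : {g : MR | (∃ u ∈ Gam, g = rho (u : MZˣ)) ∧
    ∃ x : Plane, x.1 2 ≤ r ∧ (g *ᵥ x.1) 2 ≤ r}.Finite := by
  obtain ⟨K, hK⟩ := exists_nat_ge (2 * r * r)
  have hfin : (Set.Icc (fun _ _ => -(2 * (K : ℤ))) (fun _ _ => 2 * (K : ℤ)) :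
      Set (Fin 3 → Fin 3 → ℤ)).Finite := Set.finite_Icc _ _
  refine (hfin.image (fun M => rho (Matrix.of M))).subset ?_
  rintro g ⟨⟨u, hu, rfl⟩, x, hx1, hx2⟩
  refine ⟨fun i j => (u : MZ) i j, ?_, ?_⟩
  · have h1 := key_rho hu.1 x
    have h2 := plane_one_le x
    have h3 := rho_sheet hu.1 x
    rw [rho22] at h1
    have h4 : ((u : MZ) 2 2 : ℝ) ≤ 2 * r * r := by
      have : 2 * x.1 2 * (rho u *ᵥ x.1) 2 ≤ 2 * r * r := by
        have h5 : 2 * x.1 2 ≤ 2 * r := by linarith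
        exact mul_le_mul h5 hx2 h3.le (by linarith)
      linarith
    have h5 : (u : MZ) 2 2 ≤ K := by
      have : ((u : MZ) 2 2 : ℝ) ≤ (K : ℝ) := h4.trans hK
      exact_mod_cast this
    constructor
    · intro i j
      have := neg_le_of_abs_le (entry_bound hu.1 i j)
      change -(2 * (K : ℤ)) ≤ (u : MZ) i j
      linarith
    · intro i j
      have := le_of_abs_le (entry_bound hu.1 i j)
      change (u : MZ) i j ≤ 2 * (K : ℤ)
      linarith
  · rfl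

/-- the integral form -/
def BZ (w w' : Fin 3 → ℤ) : ℤ := w 0 * w' 0 + w 1 * w' 1 - 3 * (w 2 * w' 2)

/-- integral vectors to real vectors -/
noncomputable def toR (w : Fin 3 → ℤ) : Fin 3 → ℝ := fun k => dV k * w k

lemma form_toR (w w' : Fin 3 → ℤ) : form (toR w) (toR w') = (BZ w w' : ℝ) := by
  have e0 : dV 0 = 1 := rfl
  have e1 : dV 1 = 1 := rfl
  have e2 : dV 2 = √3 := rfl
  simp only [form, toR, BZ, e0, e1, e2]
  push_cast
  linear_combination (-(w 2 * w' 2 : ℝ)) * sqrt3_sq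

lemma rho_toR (M : MZ) (w : Fin 3 → ℤ) : rho M *ᵥ toR w = toR (M *ᵥ w) := by
  ext i
  simp only [Matrix.mulVec, dotProduct, toR, rho_apply, Int.cast_sum, Int.cast_mul,
    Finset.mul_sum]
  refine Finset.sum_congr rfl fun k _ => ?_
  linear_combination (dV i * M i k * w k) * dI_mul_dV k

lemma toR_inj {w w' : Fin 3 → ℤ} (h : ∀ k, w k = w' k) : toR w = toR w' := by
  ext k; simp [toR, h k]

/-- the four integral vectors -/
def wZ : Fin 4 → Fin 3 → ℤ
  | 0 => ![2, 0, 1]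
  | 1 => ![0, 2, 1]
  | 2 => ![-2, 0, 1]
  | 3 => ![0, -2, 1]

lemma eV_eq (i : Fin 4) : eV i = toR (wZ i) := by
  fin_cases i <;> ext k <;> fin_cases k <;> simp [eV, toR, wZ, dV]

lemma cong_mulVec {u : MZˣ} (hu : u ∈ Gam) (w : Fin 3 → ℤ) (k : Fin 3) :
    (1000 : ℤ) ∣ ((u : MZ) *ᵥ w) k - w k := by
  have h : ((u : MZ) *ᵥ w) k - w k = ∑ j, ((u : MZ) k j - (1 : MZ) k j) * w j := by
    simp only [sub_mul, Finset.sum_sub_distrib]
    have : ∑ j, (1 : MZ) k j * w j = w k := by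
      have := congrFun (Matrix.one_mulVec w) k
      simpa [Matrix.mulVec, dotProduct] using this
    rw [this]
    rfl
  rw [h]
  exact Finset.dvd_sum fun j _ => Dvd.dvd.mul_right (cong hu k j) _

lemma cong_BZ {u : MZˣ} (hu : u ∈ Gam) (w w' : Fin 3 → ℤ) :
    (1000 : ℤ) ∣ BZ ((u : MZ) *ᵥ w) w' - BZ w w' := by
  obtain ⟨a, ha⟩ := cong_mulVec hu w 0
  obtain ⟨b, hb⟩ := cong_mulVec hu w 1
  obtain ⟨c, hc⟩ := cong_mulVec hu w 2
  refine ⟨a * w' 0 + b * w' 1 - 3 * (c * w' 2), ?_⟩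
  simp only [BZ]
  linear_combination w' 0 * ha + w' 1 * hb - 3 * w' 2 * hc

lemma aniso (n : ℕ) : ∀ x y z : ℤ, z.natAbs ≤ n → x ^ 2 + y ^ 2 = 3 * z ^ 2 →
    x = 0 ∧ y = 0 ∧ z = 0 := by
  induction n with
  | zero =>
    intro x y z hz h
    have hz0 : z = 0 := by omega
    subst hz0
    have hx : x = 0 := by nlinarith [sq_nonneg x, sq_nonneg y]
    have hy : y = 0 := by nlinarith [sq_nonneg x, sq_nonneg y]
    exact ⟨hx, hy, rfl⟩
  | succ n ih =>
    intro x y z hz h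
    by_cases hz0 : z = 0
    · subst hz0
      have hx : x = 0 := by nlinarith [sq_nonneg x, sq_nonneg y]
      have hy : y = 0 := by nlinarith [sq_nonneg x, sq_nonneg y]
      exact ⟨hx, hy, rfl⟩
    · have h3 : (3 : ℤ) ∣ x ∧ (3 : ℤ) ∣ y := by
        have hx : x % 3 = 0 ∨ x % 3 = 1 ∨ x % 3 = 2 := by omega
        have hy : y % 3 = 0 ∨ y % 3 = 1 ∨ y % 3 = 2 := by omega
        have hm : (x ^ 2 + y ^ 2) % 3 = 0 := by rw [h]; simp
        have hm2 : ((x % 3) ^ 2 + (y % 3) ^ 2) % 3 = 0 := by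
          rw [← hm]
          simp [pow_two, Int.add_emod, Int.mul_emod]
        rcases hx with hx | hx | hx <;> rcases hy with hy | hy | hy <;> rw [hx, hy] at hm2 <;>
          simp at hm2
        exact ⟨Int.dvd_of_emod_eq_zero hx, Int.dvd_of_emod_eq_zero hy⟩
      obtain ⟨⟨a, rfl⟩, b, rfl⟩ := h3
      have h4 : z ^ 2 = 3 * (a ^ 2 + b ^ 2) := by nlinarith
      have h5 : (3 : ℤ) ∣ z := by
        have : (3 : ℤ) ∣ z ^ 2 := ⟨_, h4⟩
        exact Int.Prime.dvd_pow' (by norm_num) this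
      obtain ⟨c, rfl⟩ := h5
      have h6 : a ^ 2 + b ^ 2 = 3 * c ^ 2 := by nlinarith
      have := ih a b c (by omega) h6
      omega

lemma BZ_mulVec {u : MZˣ} (hu : u ∈ G1) (w : Fin 3 → ℤ) :
    BZ ((u : MZ) *ᵥ w) ((u : MZ) *ᵥ w) = BZ w w := by
  have h := form_rho hu (toR w) (toR w)
  rw [rho_toR, form_toR, form_toR] at h
  exact_mod_cast h

lemma BZ_wZ (i : Fin 4) : BZ (wZ i) (wZ i) = 1 := by revert i; decide

lemma wZ_two (i : Fin 4) : wZ i 2 = 1 := by revert i; decide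

lemma sep1 {u : MZˣ} (hu : u ∈ Gam) (i j : Fin 4) :
    (rho u *ᵥ eV i = eV j ∧ i = j) ∨ 3 ≤ |form (rho u *ᵥ eV i) (eV j)| := by
  rw [eV_eq, eV_eq, rho_toR, form_toR]
  have hc := cong_BZ hu (wZ i) (wZ j)
  by_cases hij : i = j
  · subst hij
    have hB : BZ (wZ i) (wZ i) = 1 := BZ_wZ i
    rw [hB] at hc
    by_cases h1 : BZ ((u : MZ) *ᵥ wZ i) (wZ i) = 1
    · left
      refine ⟨toR_inj ?_, rfl⟩
      have h2 := BZ_mulVec hu.1 (wZ i)
      rw [hB] at h2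
      simp only [BZ] at h1 h2 hB
      have h3 := aniso _ (((u : MZ) *ᵥ wZ i) 0 - wZ i 0) (((u : MZ) *ᵥ wZ i) 1 - wZ i 1)
        (((u : MZ) *ᵥ wZ i) 2 - wZ i 2) le_rfl (by linear_combination h2 - 2 * h1 + hB)
      intro k
      fin_cases k
      · simpa [sub_eq_zero] using h3.1
      · simpa [sub_eq_zero] using h3.2.1
      · simpa [sub_eq_zero] using h3.2.2
    · right
      have h3 : (3 : ℤ) ≤ |BZ ((u : MZ) *ᵥ wZ i) (wZ i)| := by
        rw [le_abs]; omega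
      exact_mod_cast h3
  · right
    have hB : BZ (wZ i) (wZ j) = -3 ∨ BZ (wZ i) (wZ j) = -7 := by
      clear hc
      revert i j
      decide
    have h3 : (3 : ℤ) ≤ |BZ ((u : MZ) *ᵥ wZ i) (wZ j)| := by
      rw [le_abs]
      rcases hB with hB | hB <;> rw [hB] at hc <;> omega
    exact_mod_cast h3

lemma form_pV (x : Fin 3 → ℝ) : form x pV = -x 2 := by
  simp [form, pV]

lemma sep2 {u : MZˣ} (hu : u ∈ Gam) (h : rho u *ᵥ pV = pV) : rho u = 1 := by
  have hp : form pV pV = -1 ∧ 0 < pV 2 := by simp [form, pV]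
  have := gam_free hu ⟨pV, hp⟩ h
  rw [this, Units.val_one, rho_one]

lemma sep3 {u : MZˣ} (hu : u ∈ Gam) : rho u *ᵥ pV = pV ∨ 100 ≤ -form (rho u *ᵥ pV) pV := by
  rcases gam_rho22 hu with h | h
  · left
    rw [gam_one_of_rho22 hu h, rho_one, Matrix.one_mulVec]
  · right
    rw [form_pV, mulVec_apply3, rho22]
    have h2 : (1001 : ℝ) ≤ (u : MZ) 2 2 := by exact_mod_cast h
    simp [pV]
    linarith

lemma sep4 {u : MZˣ} (hu : u ∈ Gam) (i : Fin 4) :
    rho u *ᵥ eV i = eV i ∨ 100 ≤ |form (rho u *ᵥ eV i) pV| := by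
  rw [eV_eq, rho_toR, form_pV]
  have h2 := BZ_mulVec hu.1 (wZ i)
  have hB : BZ (wZ i) (wZ i) = 1 := BZ_wZ i
  rw [hB] at h2
  have hw2 : wZ i 2 = 1 := wZ_two i
  have c0 := cong_mulVec hu (wZ i) 0
  have c1 := cong_mulVec hu (wZ i) 1
  have c2 := cong_mulVec hu (wZ i) 2
  rw [hw2] at c2
  by_cases hm : ((u : MZ) *ᵥ wZ i) 2 = 1
  · left
    apply toR_inj
    simp only [BZ] at h2
    rw [hm] at h2
    set a := ((u : MZ) *ᵥ wZ i) 0 with ha
    set b := ((u : MZ) *ᵥ wZ i) 1 with hb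
    have a1 : a ≤ 2 := by nlinarith [mul_self_nonneg b]
    have a2 : -2 ≤ a := by nlinarith [mul_self_nonneg b]
    have b1 : b ≤ 2 := by nlinarith [mul_self_nonneg a]
    have b2 : -2 ≤ b := by nlinarith [mul_self_nonneg a]
    have hw0 : -2 ≤ wZ i 0 ∧ wZ i 0 ≤ 2 := by
      clear_value a b
      clear h2 hB hw2 c0 c1 c2 hm ha hb
      revert i; decide
    have hw1 : -2 ≤ wZ i 1 ∧ wZ i 1 ≤ 2 := by
      clear_value a b
      clear h2 hB hw2 c0 c1 c2 hm ha hb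
      revert i; decide
    intro k
    fin_cases k
    · change a = wZ i 0
      omega
    · change b = wZ i 1
      omega
    · change ((u : MZ) *ᵥ wZ i) 2 = wZ i 2
      rw [hm, hw2]
  · right
    have h3 : (999 : ℤ) ≤ |((u : MZ) *ᵥ wZ i) 2| := by
      rw [le_abs]; omega
    have h4 : (999 : ℝ) ≤ |(((u : MZ) *ᵥ wZ i) 2 : ℝ)| := by exact_mod_cast h3
    have h5 : |-(toR ((u : MZ) *ᵥ wZ i) 2)| = √3 * |(((u : MZ) *ᵥ wZ i) 2 : ℝ)| := by
      rw [abs_neg]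
      simp only [toR]
      rw [show dV 2 = √3 from rfl, abs_mul, abs_of_pos sqrt3_pos]
    rw [h5]
    have h6 : (1 : ℝ) ≤ √3 := by
      rw [Real.one_le_sqrt]; norm_num
    nlinarith

/-- the surface group -/
noncomputable def surf : SurfaceGroup where
  carrier := {g | ∃ u ∈ Gam, g = rho (u : MZˣ)}
  one_mem := ⟨1, one_mem _, by rw [Units.val_one, rho_one]⟩
  mul_mem := by
    rintro _ ⟨u, hu, rfl⟩ _ ⟨v, hv, rfl⟩
    exact ⟨u * v, mul_mem hu hv, by rw [Units.val_mul, rho_mul]⟩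
  inv_mem := by
    rintro _ ⟨u, hu, rfl⟩
    exact ⟨u⁻¹, inv_mem hu, Matrix.inv_eq_right_inv (rho_mul_inv u)⟩
  isometry := by
    rintro _ ⟨u, hu, rfl⟩
    refine ⟨?_, fun x y => form_rho hu.1 x y, fun x => rho_sheet hu.1 x⟩
    rw [det_rho, det_gam hu]
    simp
  free := by
    rintro _ ⟨u, hu, rfl⟩ x hx
    rw [gam_free hu x hx, Units.val_one, rho_one]
  discrete := fun r => gam_discrete r
  cocompact := by
    obtain ⟨r, hr⟩ := gam_cocompact
    refine ⟨r, fun x => ?_⟩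
    obtain ⟨u, hu, h⟩ := hr x
    exact ⟨rho u, ⟨u, hu, rfl⟩, h⟩

end Ar

/-- **Module ARITH.** -/
theorem arith : ArithStatement := by
  refine ⟨Ar.surf, ?_, ?_, ?_, ?_⟩
  · rintro _ ⟨u, hu, rfl⟩ i j
    exact Ar.sep1 hu i j
  · rintro _ ⟨u, hu, rfl⟩ h
    exact Ar.sep2 hu h
  · rintro _ ⟨u, hu, rfl⟩
    exact Ar.sep3 hu
  · rintro _ ⟨u, hu, rfl⟩ i
    exact Ar.sep4 hu i

end Pool.Agent.Lib.MP_e1777c_an
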