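import Pool.Agent.Lib.MP_e1777c_an.Defs

set_option autoImplicit false

open Filter Topology Matrix

/-! Lorentzian algebra in `ℝ³`. -/

namespace Pool.Agent.Lib.MP_e1777c_an

/-- The Lorentz cross product. -/
def cross (a b : Fin 3 → ℝ) : Fin 3 → ℝ :=
  ![a 1 * b 2 - a 2 * b 1, a 2 * b 0 - a 0 * b 2, a 1 * b 0 - a 0 * b 1]

@[simp] lemma cross_zero' (a b : Fin 3 → ℝ) : cross a b 0 = a 1 * b 2 - a 2 * b 1 := rfl
@[simp] lemma cross_one' (a b : Fin 3 → ℝ) : cross a b 1 = a 2 * b 0 - a 0 * b 2 := rfl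
@[simp] lemma cross_two' (a b : Fin 3 → ℝ) : cross a b 2 = a 1 * b 0 - a 0 * b 1 := rfl

lemma vec_ext {x y : Fin 3 → ℝ} (h0 : x 0 = y 0) (h1 : x 1 = y 1) (h2 : x 2 = y 2) : x = y := by
  funext i
  fin_cases i
  · exact h0
  · exact h1
  · exact h2

lemma form_comm (x y : Fin 3 → ℝ) : form x y = form y x := by
  unfold form; ring

lemma form_add_left (x y z : Fin 3 → ℝ) : form (x + y) z = form x z + form y z := by
  simp only [form, Pi.add_apply]; ring

lemma form_add_right (x y z : Fin 3 → ℝ) : form x (y + z) = form x y + form x z := by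
  simp only [form, Pi.add_apply]; ring

lemma form_sub_left (x y z : Fin 3 → ℝ) : form (x - y) z = form x z - form y z := by
  simp only [form, Pi.sub_apply]; ring

lemma form_sub_right (x y z : Fin 3 → ℝ) : form x (y - z) = form x y - form x z := by
  simp only [form, Pi.sub_apply]; ring

lemma form_smul_left (c : ℝ) (x y : Fin 3 → ℝ) : form (c • x) y = c * form x y := by
  simp only [form, Pi.smul_apply, smul_eq_mul]; ring

lemma form_smul_right (c : ℝ) (x y : Fin 3 → ℝ) : form x (c • y) = c * form x y := by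
  simp only [form, Pi.smul_apply, smul_eq_mul]; ring

lemma form_neg_left (x y : Fin 3 → ℝ) : form (-x) y = -form x y := by
  simp only [form, Pi.neg_apply]; ring

lemma form_neg_right (x y : Fin 3 → ℝ) : form x (-y) = -form x y := by
  simp only [form, Pi.neg_apply]; ring

lemma form_cross_left (a b : Fin 3 → ℝ) : form (cross a b) a = 0 := by
  simp only [form, cross_zero', cross_one', cross_two']; ring

lemma form_cross_right (a b : Fin 3 → ℝ) : form (cross a b) b = 0 := by
  simp only [form, cross_zero', cross_one', cross_two']; ring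

lemma cross_cross (a b : Fin 3 → ℝ) : cross a (cross a b) = form a a • b - form a b • a := by
  apply vec_ext <;> simp only [form, cross_zero', cross_one', cross_two', Pi.sub_apply,
    Pi.smul_apply, smul_eq_mul] <;> ring

lemma form_cross_cross (a b : Fin 3 → ℝ) :
    form (cross a b) (cross a b) = form a b ^ 2 - form a a * form b b := by
  simp only [form, cross_zero', cross_one', cross_two']; ring

lemma form_cross_cross' (a b c : Fin 3 → ℝ) :
    form (cross a b) (cross a c) = form a b * form a c - form a a * form b c := by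
  simp only [form, cross_zero', cross_one', cross_two']; ring

lemma cross_add_right (a b c : Fin 3 → ℝ) : cross a (b + c) = cross a b + cross a c := by
  apply vec_ext <;> simp only [cross_zero', cross_one', cross_two', Pi.add_apply] <;> ring

lemma cross_sub_right (a b c : Fin 3 → ℝ) : cross a (b - c) = cross a b - cross a c := by
  apply vec_ext <;> simp only [cross_zero', cross_one', cross_two', Pi.sub_apply] <;> ring

lemma cross_smul_right (t : ℝ) (a b : Fin 3 → ℝ) : cross a (t • b) = t • cross a b := by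
  apply vec_ext <;> simp only [cross_zero', cross_one', cross_two', Pi.smul_apply, smul_eq_mul] <;> ring

lemma cross_self (a : Fin 3 → ℝ) : cross a a = 0 := by
  apply vec_ext <;> simp only [cross_zero', cross_one', cross_two', Pi.zero_apply] <;> ring

/-- The Gram determinant of three vectors is nonpositive. -/
lemma gram (x y z : Fin 3 → ℝ) :
    form x x * (form y y * form z z - form y z ^ 2) -
      form x y * (form x y * form z z - form y z * form x z) +
      form x z * (form x y * form y z - form y y * form x z) = -(form (cross x y) z) ^ 2 := by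
  simp only [form, cross_zero', cross_one', cross_two']; ring

lemma gram_le (x y z : Fin 3 → ℝ) :
    form x x * (form y y * form z z - form y z ^ 2) -
      form x y * (form x y * form z z - form y z * form x z) +
      form x z * (form x y * form y z - form y y * form x z) ≤ 0 := by
  rw [gram]; nlinarith [sq_nonneg (form (cross x y) z)]

/-- Two unit spacelike vectors whose lines both come close to a point. -/
lemma gap {z e f : Fin 3 → ℝ} (hz : form z z = -1) (he : form e e = 1) (hf : form f f = 1)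
    (h1 : |form z e| < 1) (h2 : |form z f| < 1) : |form e f| < 3 := by
  have hg := gram_le z e f
  rw [hz, he, hf] at hg
  set a := form z e
  set b := form z f
  set c := form e f
  have ha := abs_lt.mp h1
  have hb := abs_lt.mp h2
  have ha2 : a ^ 2 < 1 := by nlinarith
  have hb2 : b ^ 2 < 1 := by nlinarith
  have hab : |a * b| ≤ 1 := by
    rw [abs_mul]; nlinarith [abs_nonneg a, abs_nonneg b]
  have habc : -(a * b * c) ≤ |c| := by
    have : |a * b * c| ≤ |c| := by
      rw [abs_mul]; nlinarith [abs_nonneg c]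
    linarith [neg_abs_le (a * b * c)]
  have hcc : c ^ 2 = |c| ^ 2 := (sq_abs c).symm
  have : c ^ 2 - 1 < 2 + 2 * |c| := by nlinarith
  rw [hcc] at this
  by_contra hcon
  push Not at hcon
  nlinarith [abs_nonneg c]

lemma one_le_dd (x y : Plane) : 1 ≤ -form x.1 y.1 := by
  obtain ⟨x, hx, hx2⟩ := x
  obtain ⟨y, hy, hy2⟩ := y
  simp only
  unfold form at *
  have h1 : (x 0 * y 0 + x 1 * y 1) ^ 2 ≤ (x 2 * y 2 - 1) ^ 2 := by
    have e1 : (x 0 * y 0 + x 1 * y 1) ^ 2 ≤ (x 0 ^ 2 + x 1 ^ 2) * (y 0 ^ 2 + y 1 ^ 2) := by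
      nlinarith [sq_nonneg (x 0 * y 1 - x 1 * y 0)]
    have e2 : x 0 ^ 2 + x 1 ^ 2 = x 2 ^ 2 - 1 := by nlinarith
    have e3 : y 0 ^ 2 + y 1 ^ 2 = y 2 ^ 2 - 1 := by nlinarith
    rw [e2, e3] at e1
    nlinarith [sq_nonneg (x 2 - y 2)]
  have hx1 : 1 ≤ x 2 := by nlinarith [sq_nonneg (x 0), sq_nonneg (x 1)]
  have hy1 : 1 ≤ y 2 := by nlinarith [sq_nonneg (y 0), sq_nonneg (y 1)]
  have h3 : 0 ≤ x 2 * y 2 - 1 := by nlinarith
  have h2 := abs_le_of_sq_le_sq' h1 h3
  nlinarith [h2.2]

lemma one_le_height (x : Plane) : 1 ≤ x.1 2 := by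
  obtain ⟨x, hx, hx2⟩ := x
  simp only
  unfold form at *
  nlinarith [sq_nonneg (x 0), sq_nonneg (x 1)]

/-- The crude triangle inequality `cosh (a + b) ≤ 2 cosh a cosh b`. -/
lemma dd_chain (x y z : Plane) :
    -form x.1 z.1 ≤ 2 * (-form x.1 y.1) * (-form y.1 z.1) := by
  have hg := gram_le x.1 y.1 z.1
  have h1 := one_le_dd x y
  have h2 := one_le_dd y z
  have h3 := one_le_dd x z
  rw [x.2.1, y.2.1, z.2.1] at hg
  set a := form x.1 y.1
  set b := form y.1 z.1
  set c := form x.1 z.1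
  have h5 : 1 ≤ a * b := by nlinarith
  have h4 : (-c - a * b) ^ 2 ≤ (a * b) ^ 2 := by nlinarith
  have := abs_le_of_sq_le_sq' h4 (by linarith)
  nlinarith [this.2]

/-- How a null (or any lightlike future) functional changes. -/
lemma null_chain (x y : Plane) {ν : Fin 3 → ℝ} (hν : form ν ν = 0)
    (hx : 0 < -form x.1 ν) : -form y.1 ν ≤ 2 * (-form x.1 y.1) * (-form x.1 ν) := by
  have hg := gram_le x.1 y.1 ν
  have h1 := one_le_dd x y
  rw [x.2.1, y.2.1, hν] at hg
  set a := form x.1 y.1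
  set b := form y.1 ν
  set c := form x.1 ν
  by_contra hcon
  push Not at hcon
  nlinarith [mul_pos hx hx, mul_pos (by linarith : 0 < -a) hx]

/-- The signed distance function from a line at two points. -/
lemma line_chain (x y : Plane) {e : Fin 3 → ℝ} (he : form e e = 1) :
    (form y.1 e + form x.1 y.1 * form x.1 e) ^ 2 ≤
      (form x.1 y.1 ^ 2 - 1) * (1 + form x.1 e ^ 2) := by
  have hg := gram_le x.1 y.1 e
  rw [x.2.1, y.2.1, he] at hg
  nlinarith

lemma sheet (x : Plane) {w : Fin 3 → ℝ} (hw : form w w = -1) (h : form x.1 w < 0) : 0 < w 2 := by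
  obtain ⟨x, hx, hx2⟩ := x
  simp only at h
  unfold form at *
  by_contra hcon
  push Not at hcon
  have h1 : (x 0 * w 0 + x 1 * w 1) ^ 2 ≤ (x 2 * w 2) ^ 2 := by
    have e1 : (x 0 * w 0 + x 1 * w 1) ^ 2 ≤ (x 0 ^ 2 + x 1 ^ 2) * (w 0 ^ 2 + w 1 ^ 2) := by
      nlinarith [sq_nonneg (x 0 * w 1 - x 1 * w 0)]
    have e2 : x 0 ^ 2 + x 1 ^ 2 = x 2 ^ 2 - 1 := by nlinarith
    have e3 : w 0 ^ 2 + w 1 ^ 2 = w 2 ^ 2 - 1 := by nlinarith
    rw [e2, e3] at e1
    have hx1 : 1 ≤ x 2 ^ 2 := by nlinarith [sq_nonneg (x 0), sq_nonneg (x 1)]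
    have hw1 : 1 ≤ w 2 ^ 2 := by nlinarith [sq_nonneg (w 0), sq_nonneg (w 1)]
    nlinarith
  have h2 : 0 ≤ -(x 2 * w 2) := by nlinarith
  have h3 : (x 0 * w 0 + x 1 * w 1) ^ 2 ≤ (-(x 2 * w 2)) ^ 2 := by nlinarith
  have := abs_le_of_sq_le_sq' h3 h2
  linarith [this.1]

lemma sheet' (x : Plane) {w : Fin 3 → ℝ} (hw : form w w = -1) (h : 0 < w 2) :
    form x.1 w < 0 := by
  have := one_le_dd x ⟨w, hw, h⟩
  simp only at this
  linarith

/-- null vectors are in the future of the plane -/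
lemma null_pos (x : Plane) (α : Boundary) : 0 < -form x.1 (nullVec α) := by
  obtain ⟨x, hx, hx2⟩ := x
  obtain ⟨a, ha⟩ := α
  simp only [nullVec]
  unfold form at *
  simp only [Matrix.cons_val_zero, Matrix.cons_val_one, Matrix.cons_val]
  have h1 : (x 0 * a 0 + x 1 * a 1) ^ 2 < x 2 ^ 2 := by
    nlinarith [sq_nonneg (x 0 * a 1 - x 1 * a 0)]
  have := abs_lt_of_sq_lt_sq' h1 hx2.le
  linarith [this.2]

lemma null_null (α : Boundary) : form (nullVec α) (nullVec α) = 0 := by
  obtain ⟨a, ha⟩ := α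
  simp only [nullVec, form, Matrix.cons_val_zero, Matrix.cons_val_one, Matrix.cons_val]
  nlinarith

/-- The cross product is natural for orientation preserving isometries. -/
lemma form_cross_det (a b c : Fin 3 → ℝ) :
    form (cross a b) c = Matrix.det !![a 0, b 0, c 0; a 1, b 1, c 1; a 2, b 2, c 2] := by
  rw [Matrix.det_fin_three]
  simp [form]
  ring

lemma form_nondeg {x y : Fin 3 → ℝ} (h : ∀ z, form x z = form y z) : x = y := by
  have h0 := h ![1, 0, 0]
  have h1 := h ![0, 1, 0]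
  have h2 := h ![0, 0, 1]
  simp only [form, Matrix.cons_val_zero, Matrix.cons_val_one, Matrix.cons_val] at h0 h1 h2
  apply vec_ext <;> linarith

lemma mulVec_three (g : Matrix (Fin 3) (Fin 3) ℝ) (x : Fin 3 → ℝ) (i : Fin 3) :
    (g *ᵥ x) i = g i 0 * x 0 + g i 1 * x 1 + g i 2 * x 2 := by
  simp [Matrix.mulVec, dotProduct, Fin.sum_univ_three]

lemma IsDirectIsometry.surj {g : Matrix (Fin 3) (Fin 3) ℝ} (hg : IsDirectIsometry g)
    (z : Fin 3 → ℝ) : g *ᵥ (g⁻¹ *ᵥ z) = z := by
  rw [Matrix.mulVec_mulVec, Matrix.mul_nonsing_inv g (by rw [hg.1]; exact isUnit_one),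
    Matrix.one_mulVec]

lemma IsDirectIsometry.inv_mulVec {g : Matrix (Fin 3) (Fin 3) ℝ} (hg : IsDirectIsometry g)
    (z : Fin 3 → ℝ) : g⁻¹ *ᵥ (g *ᵥ z) = z := by
  rw [Matrix.mulVec_mulVec, Matrix.nonsing_inv_mul g (by rw [hg.1]; exact isUnit_one),
    Matrix.one_mulVec]

lemma IsDirectIsometry.cross {g : Matrix (Fin 3) (Fin 3) ℝ} (hg : IsDirectIsometry g)
    (a b : Fin 3 → ℝ) : g *ᵥ cross a b = MP_e1777c_an.cross (g *ᵥ a) (g *ᵥ b) := by
  apply form_nondeg
  intro z
  have hz := hg.surj z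
  rw [← hz, hg.2.1, form_cross_det, form_cross_det]
  set c := g⁻¹ *ᵥ z
  have : !![(g *ᵥ a) 0, (g *ᵥ b) 0, (g *ᵥ c) 0; (g *ᵥ a) 1, (g *ᵥ b) 1, (g *ᵥ c) 1;
      (g *ᵥ a) 2, (g *ᵥ b) 2, (g *ᵥ c) 2] =
      g * !![a 0, b 0, c 0; a 1, b 1, c 1; a 2, b 2, c 2] := by
    ext i j
    fin_cases i <;> fin_cases j <;>
      simp [Matrix.mul_apply, Fin.sum_univ_three, mulVec_three]
  rw [this, Matrix.det_mul, hg.1, one_mul]

end Pool.Agent.Lib.MP_e1777c_an
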