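import Pool.Agent.Lib.MP_e1777c_an.Pos

set_option autoImplicit false

open Filter Topology Matrix

/-! Assembly of the counterexample. -/

namespace Pool.Agent.Lib.MP_e1777c_an

lemma s2 : (√2 : ℝ) * √2 = 2 := Real.mul_self_sqrt (by norm_num)

lemma s2pos : 0 < (√2 : ℝ) := by positivity

/-- the common point of the two geodesics -/
noncomputable def midPt : Plane :=
  ⟨![-(√2 / 2), √2 / 2, √2], by
    constructor
    · simp [form]; nlinarith [s2]
    · simp⟩

lemma sqrt_third : 0 < (1 - √3 / 3) / 2 * √2 := by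
  have h : (√3 : ℝ) < 3 := by rw [Real.sqrt_lt' (by norm_num)]; norm_num
  have := s2pos
  have : 0 < (1 - √3 / 3) / 2 := by linarith
  positivity

lemma sqrt_third' : 0 < (1 + √3 / 3) / 2 * √2 := by
  have := s2pos
  have := s3pos
  positivity

lemma cross_lines : Cross (line 0).α (line 2).β (line 1).α (line 3).β := by
  have h3 := s3
  have hp := s3pos
  refine ⟨?_, ?_, ?_, ?_, midPt, ?_, ?_⟩
  · apply ne_of_coord; left; simp [line, bpt]; intro h; linarith
  · apply ne_of_coord; left; simp [line, bpt]; intro h; linarith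
  · apply ne_of_coord; right; simp [line, bpt]; intro h; linarith [s3pos, s3gt]
  · apply ne_of_coord; right; simp [line, bpt]; intro h; linarith [s3pos, s3gt]
  · refine ⟨(1 - √3 / 3) / 2 * √2, (1 + √3 / 3) / 2 * √2, sqrt_third, sqrt_third', ?_⟩
    apply vec_ext <;> simp [line, nullVec, bpt, midPt] <;> nlinarith [s3, s2pos]
  · refine ⟨(1 + √3 / 3) / 2 * √2, (1 - √3 / 3) / 2 * √2, sqrt_third', sqrt_third, ?_⟩
    apply vec_ext <;> simp [line, nullVec, bpt, midPt] <;> nlinarith [s3, s2pos]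

lemma ss_zero_fast : ss 1 0 = 1 ∧ ss 2 0 = 1 := by
  constructor
  · exact cut_in (by norm_num)
  · exact cut_in (by norm_num)

lemma ss_zero_slow : ss 0 0 = 0 ∧ ss 3 0 = 0 := by
  constructor
  · show √0 * cut 0 = 0
    simp
  · show √0 * cut 0 = 0
    simp

/-- Existence of the counterexample, from the arithmetic input. -/
theorem counterexample (h : ArithStatement) : ∃ (Γ : SurfaceGroup) (F : Plane ≃ₜ Plane),
    IsLift Γ F ∧ ∃ (α₁ β₁ α₂ β₂ : Boundary) (v₁ v₂ : ℝ),
      IsRotationVector F α₁ β₁ v₁ ∧ IsRotationVector F α₂ β₂ v₂ ∧ Cross α₁ β₁ α₂ β₂ ∧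
      ∀ v' : ℝ, ¬ IsRotationVector F α₁ β₂ v' := by
  obtain ⟨Γ, h1, h2, h3, h4⟩ := h
  let S : Sys := ⟨Γ, h1, h2, h3, h4⟩
  have e1 := ss_zero_fast
  have e2 := ss_zero_slow
  refine ⟨Γ, S.F, ⟨fun g hg x y hxy => S.F_equiv hg hxy, fun x α hx =>
    convergesTo_of_bounded hx (fun k => S.step (x k))⟩,
    (line 0).α, (line 2).β, (line 1).α, (line 3).β, (ss 0 0 + ss 2 0) / 2, (ss 1 0 + ss 3 0) / 2,
    ?_, ?_, cross_lines, fun v => S.no_rotation v⟩
  · refine S.rotation (i := 0) (j := 2) (Or.inl ⟨rfl, rfl⟩) ?_ ?_ ?_ ?_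
    · apply ne_of_coord; right; simp [line, bpt]; intro h; linarith [s3pos, s3gt]
    · apply ne_of_coord; left; simp [line, bpt]; intro h; linarith [s3pos]
    · apply ne_of_coord; right; simp [line, bpt]; intro h; linarith [s3pos, s3gt]
    · rw [e1.2, e2.1]; norm_num
  · refine S.rotation (i := 1) (j := 3) (Or.inr ⟨rfl, rfl⟩) ?_ ?_ ?_ ?_
    · apply ne_of_coord; left; simp [line, bpt]; intro h; linarith
    · apply ne_of_coord; right; simp [line, bpt]; intro h; linarith [s3pos]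
    · apply ne_of_coord; left; simp [line, bpt]; intro h; linarith
    · rw [e1.1, e2.2]; norm_num

end Pool.Agent.Lib.MP_e1777c_an
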