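import Pool.Agent.Lib.MP_e1777c_an.Slow

set_option autoImplicit false

open Filter Topology Matrix

/-! Projections to geodesics and convergence to boundary points. -/

namespace Pool.Agent.Lib.MP_e1777c_an

/-- `- ⟨x, α⟩` -/
noncomputable def PP (α : Boundary) (x : Plane) : ℝ := -form x.1 (nullVec α)

lemma PP_pos (α : Boundary) (x : Plane) : 0 < PP α x := null_pos x α

lemma null_prod {α β : Boundary} (h : α ≠ β) : 0 < -form (nullVec α) (nullVec β) := by
  obtain ⟨a, ha⟩ := α
  obtain ⟨b, hb⟩ := β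
  simp only [form, nullVec, Matrix.cons_val_zero, Matrix.cons_val_one, Matrix.cons_val]
  have h1 : (a 0 - b 0) ^ 2 + (a 1 - b 1) ^ 2 ≠ 0 := by
    intro h2
    apply h
    have e0 : a 0 = b 0 := by nlinarith [sq_nonneg (a 0 - b 0), sq_nonneg (a 1 - b 1)]
    have e1 : a 1 = b 1 := by nlinarith [sq_nonneg (a 0 - b 0), sq_nonneg (a 1 - b 1)]
    apply Subtype.ext
    funext i
    fin_cases i
    · exact e0
    · exact e1
  have h2 : 0 < (a 0 - b 0) ^ 2 + (a 1 - b 1) ^ 2 :=
    lt_of_le_of_ne (by positivity) (Ne.symm h1)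
  nlinarith

/-- position of the projection of `x` to the geodesic `(α, β)` -/
noncomputable def tau (α β : Boundary) (x : Plane) : ℝ :=
  (Real.log (PP β x) - Real.log (PP α x)) / 2

/-- the point of the geodesic `(α, β)` with parameter `t` -/
noncomputable def gpt {α β : Boundary} (h : α ≠ β) (t : ℝ) : Plane :=
  ⟨(Real.exp t / √(2 * -form (nullVec α) (nullVec β))) • nullVec α +
    (Real.exp (-t) / √(2 * -form (nullVec α) (nullVec β))) • nullVec β, by
    have hκ := null_prod h
    set κ := -form (nullVec α) (nullVec β) with hκd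
    have h1 : √(2 * κ) ^ 2 = 2 * κ := Real.sq_sqrt (by linarith)
    have h2 : 0 < √(2 * κ) := Real.sqrt_pos.mpr (by linarith)
    have h3 : Real.exp t * Real.exp (-t) = 1 := by rw [← Real.exp_add]; simp
    have h4 : form (nullVec α) (nullVec β) = -κ := by rw [hκd]; ring
    constructor
    · simp only [form_add_left, form_add_right, form_smul_left, form_smul_right, null_null,
        form_comm (nullVec β) (nullVec α), h4]
      field_simp
      rw [h1]
      nlinarith
    · simp only [Pi.add_apply, Pi.smul_apply, smul_eq_mul, nullVec, Matrix.cons_val]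
      positivity⟩

lemma gpt_mem {α β : Boundary} (h : α ≠ β) (t : ℝ) : gpt h t ∈ geodesic α β := by
  have hκ := null_prod h
  have h2 : 0 < √(2 * -form (nullVec α) (nullVec β)) := Real.sqrt_pos.mpr (by linarith)
  exact ⟨_, _, by positivity, by positivity, rfl⟩

lemma mem_geodesic {α β : Boundary} (h : α ≠ β) {m : Plane} (hm : m ∈ geodesic α β) :
    ∃ t, m = gpt h t := by
  obtain ⟨a, b, ha, hb, hab⟩ := hm
  have hκ := null_prod h
  have h0 := m.2.1
  set κ := -form (nullVec α) (nullVec β) with hκd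
  have h4 : form (nullVec α) (nullVec β) = -κ := by rw [hκd]; ring
  rw [hab] at h0
  simp only [form_add_left, form_add_right, form_smul_left, form_smul_right, null_null,
    form_comm (nullVec β) (nullVec α), h4] at h0
  have h5 : 2 * κ * (a * b) = 1 := by linarith
  have h1 : √(2 * κ) ^ 2 = 2 * κ := Real.sq_sqrt (by linarith)
  have h2 : 0 < √(2 * κ) := Real.sqrt_pos.mpr (by linarith)
  refine ⟨Real.log (a * √(2 * κ)), Subtype.ext ?_⟩
  show m.1 = (Real.exp (Real.log (a * √(2 * κ))) / √(2 * κ)) • nullVec α +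
    (Real.exp (-Real.log (a * √(2 * κ))) / √(2 * κ)) • nullVec β
  rw [Real.exp_neg, Real.exp_log (by positivity), hab]
  have e1 : a * √(2 * κ) / √(2 * κ) = a := by field_simp
  have e2 : (a * √(2 * κ))⁻¹ / √(2 * κ) = b := by
    rw [div_eq_iff h2.ne', inv_eq_iff_eq_inv, eq_comm, inv_eq_iff_eq_inv]
    rw [eq_comm]
    apply inv_eq_of_mul_eq_one_left
    nlinarith
  rw [e1, e2]

lemma form_gpt {α β : Boundary} (h : α ≠ β) (x : Plane) (t : ℝ) : -form x.1 (gpt h t).1 =
    √(2 * (PP α x * PP β x) / -form (nullVec α) (nullVec β)) * Real.cosh (t - tau α β x) := by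
  have hκ := null_prod h
  have p1 := PP_pos α x
  have p2 := PP_pos β x
  set κ := -form (nullVec α) (nullVec β) with hκd
  have h1 : √(2 * κ) ^ 2 = 2 * κ := Real.sq_sqrt (by linarith)
  have h2 : 0 < √(2 * κ) := Real.sqrt_pos.mpr (by linarith)
  have hg : (gpt h t).1 = (Real.exp t / √(2 * κ)) • nullVec α +
    (Real.exp (-t) / √(2 * κ)) • nullVec β := rfl
  have e1 : form x.1 (nullVec α) = -PP α x := by unfold PP; ring
  have e2 : form x.1 (nullVec β) = -PP β x := by unfold PP; ring
  rw [hg, form_add_right, form_smul_right, form_smul_right, e1, e2]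
  set P := PP α x
  set Q := PP β x
  have e3 : Real.exp (tau α β x) = √Q / √P := by
    have : tau α β x = Real.log (√Q / √P) := by
      rw [Real.log_div (Real.sqrt_pos.mpr p2).ne' (Real.sqrt_pos.mpr p1).ne', Real.log_sqrt p2.le,
        Real.log_sqrt p1.le]
      unfold tau
      ring
    rw [this, Real.exp_log]
    have := Real.sqrt_pos.mpr p1
    have := Real.sqrt_pos.mpr p2
    positivity
  have e4 : √(2 * (P * Q) / κ) = 2 * (√P * √Q) / √(2 * κ) := by
    rw [eq_div_iff h2.ne', ← Real.sqrt_mul (by positivity), ← Real.sqrt_mul p1.le]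
    have : 2 * (P * Q) / κ * (2 * κ) = (2 * √(P * Q)) ^ 2 := by
      rw [mul_pow, Real.sq_sqrt (by positivity)]
      field_simp
    rw [this, Real.sqrt_sq (by positivity)]
  rw [e4, Real.cosh_eq, Real.exp_sub, neg_sub, Real.exp_sub, e3]
  have hP := Real.sqrt_pos.mpr p1
  have hQ := Real.sqrt_pos.mpr p2
  have sP := Real.sq_sqrt p1.le
  have sQ := Real.sq_sqrt p2.le
  rw [Real.exp_neg]
  have he := Real.exp_pos t
  field_simp
  rw [sP, sQ]
  ring

lemma hdist_le_iff (x y z : Plane) : hdist x y ≤ hdist x z ↔ -form x.1 y.1 ≤ -form x.1 z.1 := by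
  unfold hdist
  exact Real.arcosh_le_arcosh (by linarith [one_le_dd x y]) (by linarith [one_le_dd x z])

lemma isProj_gpt {α β : Boundary} (h : α ≠ β) (x : Plane) :
    IsProj α β x (gpt h (tau α β x)) := by
  refine ⟨gpt_mem h _, fun m' hm' => ?_⟩
  obtain ⟨t, rfl⟩ := mem_geodesic h hm'
  rw [hdist_le_iff, form_gpt, form_gpt, sub_self, Real.cosh_zero]
  exact mul_le_mul_of_nonneg_left (Real.one_le_cosh _) (Real.sqrt_nonneg _)

lemma isProj_unique {α β : Boundary} (h : α ≠ β) {x m : Plane} (hm : IsProj α β x m) :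
    m = gpt h (tau α β x) := by
  obtain ⟨t, rfl⟩ := mem_geodesic h hm.1
  have h1 := hm.2 _ (gpt_mem h (tau α β x))
  rw [hdist_le_iff, form_gpt, form_gpt, sub_self, Real.cosh_zero] at h1
  have hκ := null_prod h
  have p1 := PP_pos α x
  have p2 := PP_pos β x
  have h2 : 0 < √(2 * (PP α x * PP β x) / -form (nullVec α) (nullVec β)) :=
    Real.sqrt_pos.mpr (by positivity)
  have h3 := le_of_mul_le_mul_left h1 h2
  have h4 := Real.one_le_cosh (t - tau α β x)
  have h5 : Real.cosh (t - tau α β x) = 1 := le_antisymm h3 h4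
  have h6 : t - tau α β x = 0 := by
    by_contra hcon
    have := Real.one_lt_cosh.mpr hcon
    linarith
  rw [sub_eq_zero] at h6
  rw [h6]

lemma hdist_gpt {α β : Boundary} (h : α ≠ β) (s t : ℝ) :
    hdist (gpt h s) (gpt h t) = |s - t| := by
  have hκ := null_prod h
  unfold hdist
  set κ := -form (nullVec α) (nullVec β) with hκd
  have h1 : √(2 * κ) ^ 2 = 2 * κ := Real.sq_sqrt (by linarith)
  have h2 : 0 < √(2 * κ) := Real.sqrt_pos.mpr (by linarith)
  have h4 : form (nullVec α) (nullVec β) = -κ := by rw [hκd]; ring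
  have hg : ∀ t, (gpt h t).1 = (Real.exp t / √(2 * κ)) • nullVec α +
    (Real.exp (-t) / √(2 * κ)) • nullVec β := fun _ => rfl
  have h5 : -form (gpt h s).1 (gpt h t).1 = Real.cosh (s - t) := by
    rw [hg, hg]
    simp only [form_add_left, form_add_right, form_smul_left, form_smul_right, null_null,
      form_comm (nullVec β) (nullVec α), h4]
    rw [Real.cosh_eq, neg_sub, Real.exp_sub, Real.exp_sub, Real.exp_neg, Real.exp_neg]
    have := Real.exp_pos s
    have := Real.exp_pos t
    field_simp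
    rw [h1]
    ring
  rw [h5, ← Real.cosh_abs, Real.arcosh_cosh (abs_nonneg _)]

lemma hdist_proj {α β : Boundary} (h : α ≠ β) {x y m m' : Plane} (hm : IsProj α β x m)
    (hm' : IsProj α β y m') : hdist m m' = |tau α β x - tau α β y| := by
  rw [isProj_unique h hm, isProj_unique h hm', hdist_gpt]

/-- normalised logarithm -/
noncomputable def lam (δ : Boundary) (x : Plane) : ℝ := Real.log (PP δ x / x.1 2)

lemma lam_eq (δ : Boundary) (x : Plane) : lam δ x = Real.log (PP δ x) - Real.log (x.1 2) := by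
  unfold lam
  rw [Real.log_div (PP_pos δ x).ne' x.2.2.ne']

lemma tau_lam (α β : Boundary) (x : Plane) : tau α β x = (lam β x - lam α x) / 2 := by
  rw [lam_eq, lam_eq]; unfold tau; ring

lemma φ_lam (l : Line) (x : Plane) : l.φ x = lam l.α x - lam l.β x := by
  rw [lam_eq, lam_eq]; unfold Line.φ PP; ring

lemma PP_div (δ : Boundary) (x : Plane) :
    PP δ x / x.1 2 = 1 - (x.1 0 / x.1 2) * δ.1 0 - (x.1 1 / x.1 2) * δ.1 1 := by
  have := x.2.2.ne'
  unfold PP form nullVec
  simp only [Matrix.cons_val_zero, Matrix.cons_val_one, Matrix.cons_val]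
  field_simp
  ring

lemma tendsto_lam {x : ℕ → Plane} {γ δ : Boundary} (hx : ConvergesTo x γ) (h : γ ≠ δ) :
    Tendsto (fun k => lam δ (x k)) atTop (𝓝 (Real.log (-form (nullVec γ) (nullVec δ)))) := by
  unfold lam
  apply (Real.continuousAt_log (null_prod h).ne').tendsto.comp
  have h1 : -form (nullVec γ) (nullVec δ) = 1 - γ.1 0 * δ.1 0 - γ.1 1 * δ.1 1 := by
    unfold form nullVec
    simp only [Matrix.cons_val_zero, Matrix.cons_val_one, Matrix.cons_val]
    ring
  rw [h1]
  simp only [PP_div]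
  exact (tendsto_const_nhds.sub (hx.1.mul_const _)).sub (hx.2.mul_const _)

lemma lam_bounded {x : ℕ → Plane} {γ δ : Boundary} (hx : ConvergesTo x γ) (h : γ ≠ δ) :
    ∃ C, ∀ k, |lam δ (x k)| ≤ C := by
  obtain ⟨C, hC⟩ := (Metric.isBounded_range_of_tendsto _ (tendsto_lam hx h)).exists_norm_le
  exact ⟨C, fun k => hC _ ⟨k, rfl⟩⟩

/-- criterion for convergence to a boundary point -/
lemma convergesTo_of {x : ℕ → Plane} {γ : Boundary}
    (h : Tendsto (fun k => PP γ (x k) / (x k).1 2) atTop (𝓝 0)) : ConvergesTo x γ := by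
  have key : ∀ z : Plane, (z.1 0 / z.1 2 - γ.1 0) ^ 2 + (z.1 1 / z.1 2 - γ.1 1) ^ 2 ≤
      2 * (PP γ z / z.1 2) := by
    intro z
    rw [PP_div]
    have h1 := z.2.1
    have h2 := z.2.2
    unfold form at h1
    have h3 : (z.1 0 / z.1 2) ^ 2 + (z.1 1 / z.1 2) ^ 2 ≤ 1 := by
      rw [div_pow, div_pow, ← add_div, div_le_one (by positivity)]
      nlinarith
    nlinarith [γ.2]
  have h0 : Tendsto (fun k => √(2 * (PP γ (x k) / (x k).1 2))) atTop (𝓝 0) := by
    have := (h.const_mul 2).sqrt
    simpa using this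
  constructor
  · rw [tendsto_iff_norm_sub_tendsto_zero]
    refine squeeze_zero (fun k => norm_nonneg _) (fun k => ?_) h0
    rw [Real.norm_eq_abs]
    apply Real.abs_le_sqrt
    have := key (x k)
    nlinarith [sq_nonneg ((x k).1 1 / (x k).1 2 - γ.1 1)]
  · rw [tendsto_iff_norm_sub_tendsto_zero]
    refine squeeze_zero (fun k => norm_nonneg _) (fun k => ?_) h0
    rw [Real.norm_eq_abs]
    apply Real.abs_le_sqrt
    have := key (x k)
    nlinarith [sq_nonneg ((x k).1 0 / (x k).1 2 - γ.1 0)]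

lemma tendsto_PP_of {x : ℕ → Plane} {γ : Boundary} (h : ConvergesTo x γ) :
    Tendsto (fun k => PP γ (x k) / (x k).1 2) atTop (𝓝 0) := by
  simp only [PP_div]
  have h1 := (tendsto_const_nhds (x := (1 : ℝ))).sub (h.1.mul_const (γ.1 0)) |>.sub
    (h.2.mul_const (γ.1 1))
  have h2 : (1 : ℝ) - γ.1 0 * γ.1 0 - γ.1 1 * γ.1 1 = 0 := by
    have := γ.2; nlinarith
  rwa [h2] at h1

/-- bounded displacement implies that the boundary is fixed -/
lemma convergesTo_of_bounded {x y : ℕ → Plane} {γ : Boundary} (h : ConvergesTo x γ) {C : ℝ}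
    (hC : ∀ k, -form (x k).1 (y k).1 ≤ C) : ConvergesTo y γ := by
  apply convergesTo_of
  have h1 := (tendsto_PP_of h).const_mul (4 * C ^ 2)
  rw [mul_zero] at h1
  refine squeeze_zero (fun k => ?_) (fun k => ?_) h1
  · exact (div_pos (PP_pos _ _) (y k).2.2).le
  · have h2 := null_chain (x k) (y k) (null_null γ) (null_pos (x k) γ)
    have h3 := dd_chain (x k) (y k) ⟨pV, form_pV, by simp [pV]⟩
    have h3' : -form (x k).1 pV ≤ 2 * -form (x k).1 (y k).1 * -form (y k).1 pV := h3
    have e1 : ∀ z : Fin 3 → ℝ, -form z pV = z 2 := by intro z; simp [form, pV]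
    rw [e1, e1] at h3'
    have h4 := one_le_dd (x k) (y k)
    have h5 := hC k
    have p1 := PP_pos γ (x k)
    have p2 := (x k).2.2
    have p3 := (y k).2.2
    have h6 : PP γ (y k) ≤ 2 * C * PP γ (x k) := by
      have : PP γ (y k) ≤ 2 * -form (x k).1 (y k).1 * PP γ (x k) := h2
      nlinarith
    have h7 : (x k).1 2 ≤ 2 * C * (y k).1 2 := by nlinarith
    rw [div_le_iff₀ p3]
    have h8 : PP γ (x k) ≤ (PP γ (x k) / (x k).1 2) * (2 * C * (y k).1 2) := by
      calc PP γ (x k) = (PP γ (x k) / (x k).1 2) * (x k).1 2 := by field_simp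
        _ ≤ _ := mul_le_mul_of_nonneg_left h7 (by positivity)
    have hC0 : 0 < C := by linarith
    nlinarith

end Pool.Agent.Lib.MP_e1777c_an
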