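import Pool.Agent.Lib.MP_e1777c_an.Maps

set_option autoImplicit false

open Filter Topology Matrix

/-! Gluing of local homeomorphisms, and the homeomorphism of the construction. -/

namespace Pool.Agent.Lib.MP_e1777c_an

section Glue

variable {ι : Type*} (U : ι → Set Plane)

open Classical in
/-- The map that equals `φ a` on `U a` and the identity elsewhere. -/
noncomputable def glue (φ : ι → Plane → Plane) (z : Plane) : Plane :=
  if h : ∃ a, z ∈ U a then φ h.choose z else z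

variable (hloc : ∀ z₀ : Plane, ∃ V ∈ 𝓝 z₀, ∀ a b, (V ∩ U a).Nonempty → (V ∩ U b).Nonempty → a = b)

include hloc

lemma glue_unique {z : Plane} {a b : ι} (ha : z ∈ U a) (hb : z ∈ U b) : a = b := by
  obtain ⟨V, hV, h⟩ := hloc z
  exact h a b ⟨z, mem_of_mem_nhds hV, ha⟩ ⟨z, mem_of_mem_nhds hV, hb⟩

lemma glue_of_mem (φ : ι → Plane → Plane) {z : Plane} {a : ι} (ha : z ∈ U a) :
    glue U φ z = φ a z := by
  unfold glue
  have h : ∃ a, z ∈ U a := ⟨a, ha⟩
  rw [dif_pos h, glue_unique U hloc h.choose_spec ha]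

omit hloc in
lemma glue_of_notMem (φ : ι → Plane → Plane) {z : Plane} (h : ∀ a, z ∉ U a) :
    glue U φ z = z := by
  unfold glue
  rw [dif_neg]
  rintro ⟨a, ha⟩
  exact h a ha

lemma continuous_glue (φ : ι → Plane → Plane) (hφ : ∀ a, Continuous (φ a))
    (hid : ∀ a z, z ∉ U a → φ a z = z) : Continuous (glue U φ) := by
  rw [continuous_iff_continuousAt]
  intro z₀
  obtain ⟨V, hV, h⟩ := hloc z₀
  by_cases hex : ∃ a, (V ∩ U a).Nonempty
  · obtain ⟨a, ha⟩ := hex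
    have : glue U φ =ᶠ[𝓝 z₀] φ a := by
      filter_upwards [hV] with z hz
      by_cases hza : z ∈ U a
      · exact glue_of_mem U hloc φ hza
      · rw [hid a z hza]
        apply glue_of_notMem
        intro b hb
        have := h a b ha ⟨z, hz, hb⟩
        subst this
        exact hza hb
    exact ((hφ a).continuousAt).congr this.symm
  · push Not at hex
    have : glue U φ =ᶠ[𝓝 z₀] id := by
      filter_upwards [hV] with z hz
      apply glue_of_notMem
      intro b hb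
      have h1 : z ∈ V ∩ U b := ⟨hz, hb⟩
      rw [hex b] at h1
      exact h1
    exact continuousAt_id.congr this.symm

lemma glue_comp (φ ψ : ι → Plane → Plane) (h1 : ∀ a z, z ∈ U a → ψ a (φ a z) = z)
    (h2 : ∀ a z, z ∈ U a → φ a z ∈ U a) (z : Plane) : glue U ψ (glue U φ z) = z := by
  by_cases hex : ∃ a, z ∈ U a
  · obtain ⟨a, ha⟩ := hex
    rw [glue_of_mem U hloc φ ha, glue_of_mem U hloc ψ (h2 a z ha), h1 a z ha]
  · push Not at hex
    rw [glue_of_notMem U φ hex, glue_of_notMem U ψ hex]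

/-- Glued homeomorphism. -/
noncomputable def glueHomeo (φ ψ : ι → Plane → Plane) (hφ : ∀ a, Continuous (φ a))
    (hψ : ∀ a, Continuous (ψ a)) (hφi : ∀ a z, z ∉ U a → φ a z = z)
    (hψi : ∀ a z, z ∉ U a → ψ a z = z) (h1 : ∀ a z, z ∈ U a → ψ a (φ a z) = z)
    (h2 : ∀ a z, z ∈ U a → φ a (ψ a z) = z) (h3 : ∀ a z, z ∈ U a → φ a z ∈ U a)
    (h4 : ∀ a z, z ∈ U a → ψ a z ∈ U a) : Plane ≃ₜ Plane where
  toFun := glue U φ
  invFun := glue U ψ
  left_inv := glue_comp U hloc φ ψ h1 h3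
  right_inv := glue_comp U hloc ψ φ h2 h4
  continuous_toFun := continuous_glue U hloc φ hφ hφi
  continuous_invFun := continuous_glue U hloc ψ hψ hψi

end Glue

/-- The arithmetic data of the construction. -/
structure Sys where
  /-- the surface group -/
  Γ : SurfaceGroup
  sepE : ∀ g ∈ Γ.carrier, ∀ i j, (g *ᵥ eV i = eV j ∧ i = j) ∨ 3 ≤ |form (g *ᵥ eV i) (eV j)|
  stabP : ∀ g ∈ Γ.carrier, g *ᵥ pV = pV → g = 1
  sepP : ∀ g ∈ Γ.carrier, g *ᵥ pV = pV ∨ 100 ≤ -form (g *ᵥ pV) pV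
  sepEP : ∀ g ∈ Γ.carrier, ∀ i, g *ᵥ eV i = eV i ∨ 100 ≤ |form (g *ᵥ eV i) pV|

lemma form_eV (i : Fin 4) : form (eV i) (eV i) = 1 := by
  have h3 : (√3 : ℝ) ^ 2 = 3 := Real.sq_sqrt (by norm_num)
  fin_cases i <;> simp [eV, form] <;> nlinarith

lemma form_pV : form pV pV = -1 := by simp [pV, form]

lemma form_eV_pV (i : Fin 4) : form (eV i) pV = -√3 := by
  fin_cases i <;> simp [eV, form, pV]

namespace Sys

variable (S : Sys)

/-- The lines of type `i`. -/
def E (i : Fin 4) : Set (Fin 3 → ℝ) := {e | ∃ g ∈ S.Γ.carrier, e = g *ᵥ eV i}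

/-- The centres. -/
def P : Set (Fin 3 → ℝ) := {c | ∃ g ∈ S.Γ.carrier, c = g *ᵥ pV}

lemma eV_mem (i : Fin 4) : eV i ∈ S.E i := ⟨1, S.Γ.one_mem, by rw [Matrix.one_mulVec]⟩

lemma pV_mem : pV ∈ S.P := ⟨1, S.Γ.one_mem, by rw [Matrix.one_mulVec]⟩

lemma E_smul {i : Fin 4} {e : Fin 3 → ℝ} {g : Matrix (Fin 3) (Fin 3) ℝ} (hg : g ∈ S.Γ.carrier)
    (he : e ∈ S.E i) : g *ᵥ e ∈ S.E i := by
  obtain ⟨h, hh, rfl⟩ := he
  exact ⟨g * h, S.Γ.mul_mem g hg h hh, by rw [Matrix.mulVec_mulVec]⟩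

lemma P_smul {c : Fin 3 → ℝ} {g : Matrix (Fin 3) (Fin 3) ℝ} (hg : g ∈ S.Γ.carrier)
    (hc : c ∈ S.P) : g *ᵥ c ∈ S.P := by
  obtain ⟨h, hh, rfl⟩ := hc
  exact ⟨g * h, S.Γ.mul_mem g hg h hh, by rw [Matrix.mulVec_mulVec]⟩

lemma E_unit {i : Fin 4} {e : Fin 3 → ℝ} (he : e ∈ S.E i) : form e e = 1 := by
  obtain ⟨h, hh, rfl⟩ := he
  rw [(S.Γ.isometry h hh).2.1, form_eV]

lemma P_unit {c : Fin 3 → ℝ} (hc : c ∈ S.P) : form c c = -1 := by
  obtain ⟨h, hh, rfl⟩ := hc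
  rw [(S.Γ.isometry h hh).2.1, form_pV]

lemma P_pos {c : Fin 3 → ℝ} (hc : c ∈ S.P) : 0 < c 2 := by
  obtain ⟨h, hh, rfl⟩ := hc
  exact (S.Γ.isometry h hh).2.2 ⟨pV, form_pV, by simp [pV]⟩

/-- centres as points of the plane -/
def PP {c : Fin 3 → ℝ} (hc : c ∈ S.P) : Plane := ⟨c, S.P_unit hc, S.P_pos hc⟩

lemma E_sep {i j : Fin 4} {e f : Fin 3 → ℝ} (he : e ∈ S.E i) (hf : f ∈ S.E j) :
    (e = f ∧ i = j) ∨ 3 ≤ |form e f| := by
  obtain ⟨g, hg, rfl⟩ := he
  obtain ⟨h, hh, rfl⟩ := hf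
  have hh' := S.Γ.isometry h hh
  have hk : h⁻¹ * g ∈ S.Γ.carrier := S.Γ.mul_mem _ (S.Γ.inv_mem h hh) g hg
  have e1 : h *ᵥ ((h⁻¹ * g) *ᵥ eV i) = g *ᵥ eV i := by
    rw [← Matrix.mulVec_mulVec, hh'.surj]
  rcases S.sepE _ hk i j with ⟨h1, h2⟩ | h1
  · left
    refine ⟨?_, h2⟩
    rw [← e1, h1]
  · right
    rw [← e1, hh'.2.1]
    exact h1

lemma P_sep {c d : Fin 3 → ℝ} (hc : c ∈ S.P) (hd : d ∈ S.P) : c = d ∨ 100 ≤ -form c d := by
  obtain ⟨g, hg, rfl⟩ := hc
  obtain ⟨h, hh, rfl⟩ := hd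
  have hh' := S.Γ.isometry h hh
  have hk : h⁻¹ * g ∈ S.Γ.carrier := S.Γ.mul_mem _ (S.Γ.inv_mem h hh) g hg
  have e1 : h *ᵥ ((h⁻¹ * g) *ᵥ pV) = g *ᵥ pV := by
    rw [← Matrix.mulVec_mulVec, hh'.surj]
  rcases S.sepP _ hk with h1 | h1
  · left
    rw [← e1, h1]
  · right
    rw [← e1, hh'.2.1]
    exact h1

lemma EP_sep {i : Fin 4} {e c : Fin 3 → ℝ} (he : e ∈ S.E i) (hc : c ∈ S.P) :
    form e c = -√3 ∨ 100 ≤ |form e c| := by
  obtain ⟨g, hg, rfl⟩ := he
  obtain ⟨h, hh, rfl⟩ := hc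
  have hh' := S.Γ.isometry h hh
  have hk : h⁻¹ * g ∈ S.Γ.carrier := S.Γ.mul_mem _ (S.Γ.inv_mem h hh) g hg
  have e1 : h *ᵥ ((h⁻¹ * g) *ᵥ eV i) = g *ᵥ eV i := by
    rw [← Matrix.mulVec_mulVec, hh'.surj]
  rw [← e1, hh'.2.1]
  rcases S.sepEP _ hk i with h1 | h1
  · left
    rw [h1, form_eV_pV]
  · right
    exact h1

/-- Index type of the collars. -/
abbrev CI : Type := {x : Fin 4 × (Fin 3 → ℝ) // x.2 ∈ S.E x.1}

/-- The collars. -/
def collar (a : S.CI) : Set Plane := {z | |form z.1 a.1.2| < 9 / 10}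

/-- The balls. -/
def ball (c : S.P) : Set Plane := {z | -form z.1 c.1 < 13 / 10}

lemma nhd (z₀ : Plane) {r : ℝ} (hr : 1 < r) : {z : Plane | -form z.1 z₀.1 < r} ∈ 𝓝 z₀ := by
  apply IsOpen.mem_nhds
  · exact isOpen_lt ((continuous_form_left z₀.1).comp continuous_subtype_val).neg continuous_const
  · show -form z₀.1 z₀.1 < r
    rw [z₀.2.1]; linarith

lemma collar_loc (z₀ : Plane) : ∃ V ∈ 𝓝 z₀, ∀ a b : S.CI, (V ∩ S.collar a).Nonempty →
    (V ∩ S.collar b).Nonempty → a = b := by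
  refine ⟨{z : Plane | -form z.1 z₀.1 < 1001 / 1000}, nhd z₀ (by norm_num), ?_⟩
  have key : ∀ a : S.CI, ({z : Plane | -form z.1 z₀.1 < 1001 / 1000} ∩ S.collar a).Nonempty →
      |form z₀.1 a.1.2| < 1 := by
    rintro a ⟨z, hz1, hz2⟩
    have h1 : -form z.1 z₀.1 < 1001 / 1000 := hz1
    have h2 : |form z.1 a.1.2| < 9 / 10 := hz2
    have h3 := one_le_dd z z₀
    have h4 := line_chain z z₀ (S.E_unit a.2)
    set D := form z.1 z₀.1
    set x := form z.1 a.1.2
    set y := form z₀.1 a.1.2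
    have hx := abs_lt.mp h2
    have h5 : (D ^ 2 - 1) * (1 + x ^ 2) ≤ (7 / 100) ^ 2 := by
      have e1 : D ^ 2 - 1 ≤ 21 / 10000 := by nlinarith
      have e2 : 1 + x ^ 2 ≤ 19 / 10 := by nlinarith
      have e3 : 0 ≤ D ^ 2 - 1 := by nlinarith
      nlinarith
    have h6 := abs_le_of_sq_le_sq' (h4.trans h5) (by norm_num)
    rw [abs_lt]
    constructor <;> nlinarith
  intro a b ha hb
  have h := gap z₀.2.1 (S.E_unit a.2) (S.E_unit b.2) (key a ha) (key b hb)
  rcases S.E_sep a.2 b.2 with ⟨h1, h2⟩ | h1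
  · exact Subtype.ext (Prod.ext h2 h1)
  · linarith

lemma ball_loc (z₀ : Plane) : ∃ V ∈ 𝓝 z₀, ∀ a b : S.P, (V ∩ S.ball a).Nonempty →
    (V ∩ S.ball b).Nonempty → a = b := by
  refine ⟨{z : Plane | -form z.1 z₀.1 < 2}, nhd z₀ (by norm_num), ?_⟩
  have key : ∀ a : S.P, ({z : Plane | -form z.1 z₀.1 < 2} ∩ S.ball a).Nonempty →
      -form z₀.1 a.1 < 6 := by
    rintro a ⟨z, hz1, hz2⟩
    have h1 : -form z.1 z₀.1 < 2 := hz1
    have h2 : -form z.1 a.1 < 13 / 10 := hz2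
    have h3 := dd_chain z₀ z (S.PP a.2)
    have h3' : -form z₀.1 a.1 ≤ 2 * -form z₀.1 z.1 * -form z.1 a.1 := h3
    rw [form_comm z₀.1 z.1] at h3'
    have h4 := one_le_dd z z₀
    have h5 := one_le_dd z (S.PP a.2)
    have h5' : 1 ≤ -form z.1 a.1 := h5
    nlinarith
  intro a b ha hb
  have h1 := key a ha
  have h2 := key b hb
  have h3 := dd_chain (S.PP a.2) z₀ (S.PP b.2)
  have h3' : -form a.1 b.1 ≤ 2 * -form a.1 z₀.1 * -form z₀.1 b.1 := h3
  rw [form_comm a.1 z₀.1] at h3'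
  have h4 := one_le_dd z₀ (S.PP a.2)
  have h4' : 1 ≤ -form z₀.1 a.1 := h4
  have h5 := one_le_dd z₀ (S.PP b.2)
  have h5' : 1 ≤ -form z₀.1 b.1 := h5
  rcases S.P_sep a.2 b.2 with h | h
  · exact Subtype.ext h
  · nlinarith

end Sys

/-! ### The profile functions -/

/-- the outward radial map -/
noncomputable def rhoF (R : ℝ) : ℝ :=
  if R ≤ 0 then R else if R ≤ 1 / 2 then 3 * R / max (3 - 2 * R) 2 else
    if R ≤ 9 / 10 then 3 / 4 + 3 / 8 * (R - 1 / 2) else R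

/-- the inward radial map -/
noncomputable def rhoG (R : ℝ) : ℝ :=
  if R ≤ 0 then R else if R ≤ 3 / 4 then 3 * R / max (3 + 2 * R) 3 else
    if R ≤ 9 / 10 then 1 / 2 + 8 / 3 * (R - 3 / 4) else R

lemma rhoF_out {R : ℝ} (h : R ≤ 0 ∨ 9 / 10 ≤ R) : rhoF R = R := by
  unfold rhoF
  rcases h with h | h
  · rw [if_pos h]
  · rw [if_neg (by linarith), if_neg (by linarith)]
    split_ifs with h1
    · have : R = 9 / 10 := le_antisymm h1 h
      rw [this]; norm_num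
    · rfl

lemma rhoG_out {R : ℝ} (h : R ≤ 0 ∨ 9 / 10 ≤ R) : rhoG R = R := by
  unfold rhoG
  rcases h with h | h
  · rw [if_pos h]
  · rw [if_neg (by linarith), if_neg (by linarith)]
    split_ifs with h1
    · have : R = 9 / 10 := le_antisymm h1 h
      rw [this]; norm_num
    · rfl

lemma rhoF_low {R : ℝ} (h0 : 0 < R) (h1 : R ≤ 1 / 2) : rhoF R = 3 * R / (3 - 2 * R) := by
  unfold rhoF
  rw [if_neg (by linarith), if_pos h1, max_eq_left (by linarith)]

lemma rhoG_low {R : ℝ} (h0 : 0 < R) (h1 : R ≤ 3 / 4) : rhoG R = 3 * R / (3 + 2 * R) := by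
  unfold rhoG
  rw [if_neg (by linarith), if_pos h1, max_eq_left (by linarith)]

lemma rhoF_high {R : ℝ} (h0 : 1 / 2 ≤ R) (h1 : R ≤ 9 / 10) :
    rhoF R = 3 / 4 + 3 / 8 * (R - 1 / 2) := by
  unfold rhoF
  rw [if_neg (by linarith)]
  split_ifs with h2
  · have : R = 1 / 2 := le_antisymm h2 h0
    rw [this]; norm_num
  · rfl

lemma rhoG_high {R : ℝ} (h0 : 3 / 4 ≤ R) (h1 : R ≤ 9 / 10) :
    rhoG R = 1 / 2 + 8 / 3 * (R - 3 / 4) := by
  unfold rhoG
  rw [if_neg (by linarith)]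
  split_ifs with h2
  · have : R = 3 / 4 := le_antisymm h2 h0
    rw [this]; norm_num
  · rfl

lemma continuous_rhoF : Continuous rhoF := by
  unfold rhoF
  have h1 : Continuous (fun R : ℝ => 3 * R / max (3 - 2 * R) 2) := by
    apply Continuous.div (by fun_prop) (by fun_prop)
    intro R
    have : (2 : ℝ) ≤ max (3 - 2 * R) 2 := le_max_right _ _
    linarith
  refine Continuous.if_le continuous_id (Continuous.if_le h1 (Continuous.if_le (by fun_prop)
    continuous_id continuous_id continuous_const ?_) continuous_id continuous_const ?_)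
    continuous_id continuous_const ?_
  · intro R hR; rw [hR]; norm_num
  · intro R hR; rw [hR]; norm_num
  · intro R hR; rw [hR]; norm_num

lemma continuous_rhoG : Continuous rhoG := by
  unfold rhoG
  have h1 : Continuous (fun R : ℝ => 3 * R / max (3 + 2 * R) 3) := by
    apply Continuous.div (by fun_prop) (by fun_prop)
    intro R
    have : (3 : ℝ) ≤ max (3 + 2 * R) 3 := le_max_right _ _
    linarith
  refine Continuous.if_le continuous_id (Continuous.if_le h1 (Continuous.if_le (by fun_prop)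
    continuous_id continuous_id continuous_const ?_) continuous_id continuous_const ?_)
    continuous_id continuous_const ?_
  · intro R hR; rw [hR]; norm_num
  · intro R hR; rw [hR]; norm_num
  · intro R hR; rw [hR]; norm_num

lemma rhoG_rhoF (R : ℝ) : rhoG (rhoF R) = R := by
  rcases le_or_gt R 0 with h | h
  · rw [rhoF_out (Or.inl h), rhoG_out (Or.inl h)]
  rcases le_or_gt R (1 / 2) with h1 | h1
  · rw [rhoF_low h h1]
    have h3 : 0 < 3 - 2 * R := by linarith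
    have h3' := h3.ne'
    have h4 : 3 + 2 * (3 * R / (3 - 2 * R)) ≠ 0 := by positivity
    rw [rhoG_low (by positivity) (by rw [div_le_iff₀ h3]; linarith), div_eq_iff h4]
    have h6 : 3 * R / (3 - 2 * R) * (3 - 2 * R) = 3 * R := div_mul_cancel₀ _ h3'
    linear_combination h6
  rcases le_or_gt R (9 / 10) with h2 | h2
  · rw [rhoF_high h1.le h2, rhoG_high (by linarith) (by linarith)]
    ring
  · rw [rhoF_out (Or.inr h2.le), rhoG_out (Or.inr h2.le)]

lemma rhoF_rhoG (R : ℝ) : rhoF (rhoG R) = R := by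
  rcases le_or_gt R 0 with h | h
  · rw [rhoG_out (Or.inl h), rhoF_out (Or.inl h)]
  rcases le_or_gt R (3 / 4) with h1 | h1
  · rw [rhoG_low h h1]
    have h3 : 0 < 3 + 2 * R := by linarith
    have h5 : 3 * R / (3 + 2 * R) ≤ 1 / 2 := by rw [div_le_iff₀ h3]; linarith
    have h4 : 3 - 2 * (3 * R / (3 + 2 * R)) ≠ 0 := by
      have : 0 < 3 - 2 * (3 * R / (3 + 2 * R)) := by linarith
      exact this.ne'
    rw [rhoF_low (by positivity) h5, div_eq_iff h4]
    field_simp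
    ring
  rcases le_or_gt R (9 / 10) with h2 | h2
  · rw [rhoG_high h1.le h2, rhoF_high (by linarith) (by linarith)]
    ring
  · rw [rhoG_out (Or.inr h2.le), rhoF_out (Or.inr h2.le)]

lemma rhoF_ge (R : ℝ) : R ≤ rhoF R := by
  rcases le_or_gt R 0 with h | h
  · rw [rhoF_out (Or.inl h)]
  rcases le_or_gt R (1 / 2) with h1 | h1
  · rw [rhoF_low h h1, le_div_iff₀ (by linarith)]
    nlinarith
  rcases le_or_gt R (9 / 10) with h2 | h2
  · rw [rhoF_high h1.le h2]; linarith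
  · rw [rhoF_out (Or.inr h2.le)]

lemma rhoG_le (R : ℝ) : rhoG R ≤ R := by
  have := rhoF_ge (rhoG R)
  rwa [rhoF_rhoG] at this

lemma rhoF_lt {R : ℝ} (h : R < 9 / 10) : rhoF R < 9 / 10 := by
  rcases le_or_gt R 0 with h0 | h0
  · rw [rhoF_out (Or.inl h0)]; exact h
  rcases le_or_gt R (1 / 2) with h1 | h1
  · rw [rhoF_low h0 h1, div_lt_iff₀ (by linarith)]; linarith
  · rw [rhoF_high h1.le h.le]; linarith

lemma rhoF_pos {R : ℝ} (h : 0 < R) : 0 < rhoF R := lt_of_lt_of_le h (rhoF_ge R)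

lemma rhoG_pos {R : ℝ} (h : 0 < R) : 0 < rhoG R := by
  by_contra hcon
  push Not at hcon
  have h1 := rhoF_rhoG R
  rw [rhoF_out (Or.inl hcon)] at h1
  linarith

lemma rhoF_neg {R : ℝ} (h : -(9 / 10) < R) : -(9 / 10) < rhoF R := lt_of_lt_of_le h (rhoF_ge R)

lemma rhoG_neg {R : ℝ} (h : -(9 / 10) < R) : -(9 / 10) < rhoG R := by
  rcases le_or_gt R 0 with h0 | h0
  · rw [rhoG_out (Or.inl h0)]; exact h
  · have := rhoG_pos h0; linarith

/-- cut-off function -/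
noncomputable def cut (R : ℝ) : ℝ := max 0 (min 1 (2 - 4 * |R|))

lemma continuous_cut : Continuous cut := by unfold cut; fun_prop

lemma cut_nonneg (R : ℝ) : 0 ≤ cut R := le_max_left _ _

lemma cut_le_one (R : ℝ) : cut R ≤ 1 := max_le (by norm_num) (min_le_left _ _)

lemma cut_out {R : ℝ} (h : 1 / 2 ≤ |R|) : cut R = 0 := by
  unfold cut
  apply max_eq_left
  exact (min_le_right _ _).trans (by linarith)

lemma cut_in {R : ℝ} (h : |R| ≤ 1 / 4) : cut R = 1 := by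
  unfold cut
  rw [min_eq_left (by linarith), max_eq_right (by norm_num)]

/-- radial maps of the four types of collars -/
noncomputable def rr : Fin 4 → ℝ → ℝ
  | 0 => rhoF
  | 1 => rhoF
  | 2 => rhoG
  | 3 => rhoG

/-- inverses -/
noncomputable def rri : Fin 4 → ℝ → ℝ
  | 0 => rhoG
  | 1 => rhoG
  | 2 => rhoF
  | 3 => rhoF

/-- speeds of the four types of collars -/
noncomputable def ss : Fin 4 → ℝ → ℝ
  | 0 => fun R => √R * cut R
  | 1 => cut
  | 2 => cut
  | 3 => fun R => √R * cut R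

lemma continuous_rr (i : Fin 4) : Continuous (rr i) := by
  fin_cases i
  · exact continuous_rhoF
  · exact continuous_rhoF
  · exact continuous_rhoG
  · exact continuous_rhoG

lemma continuous_rri (i : Fin 4) : Continuous (rri i) := by
  fin_cases i
  · exact continuous_rhoG
  · exact continuous_rhoG
  · exact continuous_rhoF
  · exact continuous_rhoF

lemma continuous_ss (i : Fin 4) : Continuous (ss i) := by
  fin_cases i
  · exact Real.continuous_sqrt.mul continuous_cut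
  · exact continuous_cut
  · exact continuous_cut
  · exact Real.continuous_sqrt.mul continuous_cut

lemma rri_rr (i : Fin 4) (R : ℝ) : rri i (rr i R) = R := by
  fin_cases i
  · exact rhoG_rhoF R
  · exact rhoG_rhoF R
  · exact rhoF_rhoG R
  · exact rhoF_rhoG R

lemma rr_rri (i : Fin 4) (R : ℝ) : rr i (rri i R) = R := by
  fin_cases i
  · exact rhoF_rhoG R
  · exact rhoF_rhoG R
  · exact rhoG_rhoF R
  · exact rhoG_rhoF R

lemma rhoG_lt {R : ℝ} (h : R < 9 / 10) : rhoG R < 9 / 10 := lt_of_le_of_lt (rhoG_le R) h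

lemma rr_mem (i : Fin 4) {R : ℝ} (h : |R| < 9 / 10) : |rr i R| < 9 / 10 := by
  rw [abs_lt] at h ⊢
  fin_cases i
  · exact ⟨rhoF_neg h.1, rhoF_lt h.2⟩
  · exact ⟨rhoF_neg h.1, rhoF_lt h.2⟩
  · exact ⟨rhoG_neg h.1, rhoG_lt h.2⟩
  · exact ⟨rhoG_neg h.1, rhoG_lt h.2⟩

lemma rri_mem (i : Fin 4) {R : ℝ} (h : |R| < 9 / 10) : |rri i R| < 9 / 10 := by
  rw [abs_lt] at h ⊢
  fin_cases i
  · exact ⟨rhoG_neg h.1, rhoG_lt h.2⟩
  · exact ⟨rhoG_neg h.1, rhoG_lt h.2⟩
  · exact ⟨rhoF_neg h.1, rhoF_lt h.2⟩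
  · exact ⟨rhoF_neg h.1, rhoF_lt h.2⟩

lemma rr_out (i : Fin 4) {R : ℝ} (h : 9 / 10 ≤ |R|) : rr i R = R := by
  have h' : R ≤ 0 ∨ 9 / 10 ≤ R := by
    rcases le_abs'.mp h with h1 | h1
    · left; linarith
    · right; exact h1
  fin_cases i
  · exact rhoF_out h'
  · exact rhoF_out h'
  · exact rhoG_out h'
  · exact rhoG_out h'

lemma rri_out (i : Fin 4) {R : ℝ} (h : 9 / 10 ≤ |R|) : rri i R = R := by
  conv_rhs => rw [← rri_rr i R, rr_out i h]

lemma ss_out (i : Fin 4) {R : ℝ} (h : 1 / 2 ≤ |R|) : ss i R = 0 := by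
  fin_cases i
  · show √R * cut R = 0
    rw [cut_out h, mul_zero]
  · exact cut_out h
  · exact cut_out h
  · show √R * cut R = 0
    rw [cut_out h, mul_zero]

/-- the angle function -/
noncomputable def ang (h : ℝ) : ℝ := Real.pi * max 0 (min 1 (26 - 20 * h))

lemma continuous_ang : Continuous ang := by unfold ang; fun_prop

lemma ang_out {h : ℝ} (hh : 13 / 10 ≤ h) : ang h = 0 := by
  unfold ang
  rw [max_eq_left, mul_zero]
  exact (min_le_right _ _).trans (by linarith)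

lemma ang_in {h : ℝ} (hh : h ≤ 5 / 4) : ang h = Real.pi := by
  unfold ang
  rw [min_eq_left (by linarith), max_eq_right (by norm_num), mul_one]

namespace Sys

variable (S : Sys)

/-- collar maps -/
noncomputable def phiA (a : S.CI) (z : Plane) : Plane :=
  PhiP a.1.2 (S.E_unit a.2) (rr a.1.1 (-form z.1 a.1.2)) (ss a.1.1 (-form z.1 a.1.2)) z

/-- inverses of the collar maps -/
noncomputable def psiA (a : S.CI) (z : Plane) : Plane :=
  PhiP a.1.2 (S.E_unit a.2) (rri a.1.1 (-form z.1 a.1.2))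
    (-ss a.1.1 (rri a.1.1 (-form z.1 a.1.2))) z

lemma psiA_phiA (a : S.CI) (z : Plane) : S.psiA a (S.phiA a z) = z := by
  apply Subtype.ext
  have he := S.E_unit a.2
  have h1 : form (S.phiA a z).1 a.1.2 = -rr a.1.1 (-form z.1 a.1.2) := form_Phi_e he _ _
  show Phi a.1.2 (rri a.1.1 (-form (S.phiA a z).1 a.1.2))
    (-ss a.1.1 (rri a.1.1 (-form (S.phiA a z).1 a.1.2))) (S.phiA a z).1 = z.1
  rw [h1, neg_neg, rri_rr]
  show Phi a.1.2 _ _ (Phi a.1.2 _ _ z.1) = z.1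
  rw [Phi_comp he, add_neg_cancel, Phi_id]

lemma phiA_psiA (a : S.CI) (z : Plane) : S.phiA a (S.psiA a z) = z := by
  apply Subtype.ext
  have he := S.E_unit a.2
  have h1 : form (S.psiA a z).1 a.1.2 = -rri a.1.1 (-form z.1 a.1.2) := form_Phi_e he _ _
  show Phi a.1.2 (rr a.1.1 (-form (S.psiA a z).1 a.1.2))
    (ss a.1.1 (-form (S.psiA a z).1 a.1.2)) (S.psiA a z).1 = z.1
  rw [h1, neg_neg, rr_rri]
  show Phi a.1.2 _ _ (Phi a.1.2 _ _ z.1) = z.1
  rw [Phi_comp he, neg_add_cancel, Phi_id]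

/-- The collar homeomorphism. -/
noncomputable def A : Plane ≃ₜ Plane :=
  glueHomeo S.collar S.collar_loc S.phiA S.psiA
    (fun a => Continuous.subtype_mk
      ((continuous_Phi a.1.2 (continuous_rr _) (continuous_ss _)).comp continuous_subtype_val) _)
    (fun a => Continuous.subtype_mk
      ((continuous_Phi a.1.2 (continuous_rri _)
        ((continuous_ss _).comp (continuous_rri _)).neg).comp continuous_subtype_val) _)
    (fun a z hz => by
      have h : 9 / 10 ≤ |(-form z.1 a.1.2)| := by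
        rw [abs_neg]; exact not_lt.mp hz
      apply Subtype.ext
      show Phi a.1.2 _ _ z.1 = z.1
      rw [rr_out _ h, ss_out _ (by linarith), Phi_id])
    (fun a z hz => by
      have h : 9 / 10 ≤ |(-form z.1 a.1.2)| := by
        rw [abs_neg]; exact not_lt.mp hz
      apply Subtype.ext
      show Phi a.1.2 _ _ z.1 = z.1
      rw [rri_out _ h, ss_out _ (by linarith), neg_zero, Phi_id])
    (fun a z _ => S.psiA_phiA a z) (fun a z _ => S.phiA_psiA a z)
    (fun a z hz => by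
      show |form (Phi a.1.2 _ _ z.1) a.1.2| < 9 / 10
      rw [form_Phi_e (S.E_unit a.2), abs_neg]
      apply rr_mem
      rw [abs_neg]; exact hz)
    (fun a z hz => by
      show |form (Phi a.1.2 _ _ z.1) a.1.2| < 9 / 10
      rw [form_Phi_e (S.E_unit a.2), abs_neg]
      apply rri_mem
      rw [abs_neg]; exact hz)

lemma A_collar {i : Fin 4} {e : Fin 3 → ℝ} (he : e ∈ S.E i) {z : Plane}
    (hz : |form z.1 e| < 9 / 10) :
    (S.A z).1 = Phi e (rr i (-form z.1 e)) (ss i (-form z.1 e)) z.1 := by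
  have : S.A z = S.phiA ⟨(i, e), he⟩ z :=
    glue_of_mem S.collar S.collar_loc S.phiA (a := ⟨(i, e), he⟩) hz
  rw [this]; rfl

lemma A_out {z : Plane} (h : ∀ i, ∀ e ∈ S.E i, 9 / 10 ≤ |form z.1 e|) : S.A z = z :=
  glue_of_notMem S.collar S.phiA (fun a ha => absurd ha (not_lt.mpr (h a.1.1 a.1.2 a.2)))

/-- ball maps -/
noncomputable def phiH (c : S.P) (z : Plane) : Plane :=
  RotP c.1 (S.P_unit c.2) (ang (-form z.1 c.1)) z

/-- inverses of the ball maps -/
noncomputable def psiH (c : S.P) (z : Plane) : Plane :=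
  RotP c.1 (S.P_unit c.2) (-ang (-form z.1 c.1)) z

/-- The hub homeomorphism. -/
noncomputable def H : Plane ≃ₜ Plane :=
  glueHomeo S.ball S.ball_loc S.phiH S.psiH
    (fun a => Continuous.subtype_mk
      ((continuous_Rot a.1 continuous_ang).comp continuous_subtype_val) _)
    (fun a => Continuous.subtype_mk
      ((continuous_Rot a.1 continuous_ang.neg).comp continuous_subtype_val) _)
    (fun a z hz => by
      have h : 13 / 10 ≤ -form z.1 a.1 := not_lt.mp hz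
      apply Subtype.ext
      show Rot a.1 _ z.1 = z.1
      rw [ang_out h, Rot_zero])
    (fun a z hz => by
      have h : 13 / 10 ≤ -form z.1 a.1 := not_lt.mp hz
      apply Subtype.ext
      show Rot a.1 _ z.1 = z.1
      rw [ang_out h, neg_zero, Rot_zero])
    (fun a z _ => by
      apply Subtype.ext
      show Rot a.1 (-ang (-form (Rot a.1 _ z.1) a.1)) (Rot a.1 _ z.1) = z.1
      rw [form_Rot_c (S.P_unit a.2), Rot_comp (S.P_unit a.2), add_neg_cancel, Rot_zero])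
    (fun a z _ => by
      apply Subtype.ext
      show Rot a.1 (ang (-form (Rot a.1 _ z.1) a.1)) (Rot a.1 _ z.1) = z.1
      rw [form_Rot_c (S.P_unit a.2), Rot_comp (S.P_unit a.2), neg_add_cancel, Rot_zero])
    (fun a z hz => by
      show -form (Rot a.1 _ z.1) a.1 < 13 / 10
      rw [form_Rot_c (S.P_unit a.2)]; exact hz)
    (fun a z hz => by
      show -form (Rot a.1 _ z.1) a.1 < 13 / 10
      rw [form_Rot_c (S.P_unit a.2)]; exact hz)

lemma H_ball {c : Fin 3 → ℝ} (hc : c ∈ S.P) {z : Plane} (hz : -form z.1 c < 13 / 10) :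
    (S.H z).1 = Rot c (ang (-form z.1 c)) z.1 := by
  have : S.H z = S.phiH ⟨c, hc⟩ z :=
    glue_of_mem S.ball S.ball_loc S.phiH (a := ⟨c, hc⟩) hz
  rw [this]; rfl

lemma H_out {z : Plane} (h : ∀ c ∈ S.P, 13 / 10 ≤ -form z.1 c) : S.H z = z :=
  glue_of_notMem S.ball S.phiH (fun a ha => absurd ha (not_lt.mpr (h a.1 a.2)))

/-- The homeomorphism of the construction. -/
noncomputable def F : Plane ≃ₜ Plane := S.A.trans S.H

lemma F_apply (z : Plane) : S.F z = S.H (S.A z) := rfl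

/-! ### Equivariance -/

lemma A_equiv {g : Matrix (Fin 3) (Fin 3) ℝ} (hg : g ∈ S.Γ.carrier) {x y : Plane}
    (hxy : y.1 = g *ᵥ x.1) : (S.A y).1 = g *ᵥ (S.A x).1 := by
  have hI := S.Γ.isometry g hg
  by_cases hex : ∃ i, ∃ e ∈ S.E i, |form x.1 e| < 9 / 10
  · obtain ⟨i, e, he, hx⟩ := hex
    have h1 : form y.1 (g *ᵥ e) = form x.1 e := by rw [hxy, hI.2.1]
    rw [S.A_collar he hx, S.A_collar (S.E_smul hg he) (by rw [h1]; exact hx), hI.Phi, h1, ← hxy]
  · push Not at hex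
    rw [S.A_out hex, S.A_out, hxy]
    intro i e he
    have h1 : form y.1 e = form x.1 (g⁻¹ *ᵥ e) := by
      rw [hxy, ← hI.2.1 x.1 (g⁻¹ *ᵥ e), hI.surj]
    rw [h1]
    exact hex i _ (S.E_smul (S.Γ.inv_mem g hg) he)

lemma H_equiv {g : Matrix (Fin 3) (Fin 3) ℝ} (hg : g ∈ S.Γ.carrier) {x y : Plane}
    (hxy : y.1 = g *ᵥ x.1) : (S.H y).1 = g *ᵥ (S.H x).1 := by
  have hI := S.Γ.isometry g hg
  by_cases hex : ∃ c ∈ S.P, -form x.1 c < 13 / 10
  · obtain ⟨c, hc, hx⟩ := hex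
    have h1 : form y.1 (g *ᵥ c) = form x.1 c := by rw [hxy, hI.2.1]
    rw [S.H_ball hc hx, S.H_ball (S.P_smul hg hc) (by rw [h1]; exact hx), hI.Rot, h1, ← hxy]
  · push Not at hex
    rw [S.H_out hex, S.H_out, hxy]
    intro c hc
    have h1 : form y.1 c = form x.1 (g⁻¹ *ᵥ c) := by
      rw [hxy, ← hI.2.1 x.1 (g⁻¹ *ᵥ c), hI.surj]
    rw [h1]
    exact hex _ (S.P_smul (S.Γ.inv_mem g hg) hc)

lemma F_equiv {g : Matrix (Fin 3) (Fin 3) ℝ} (hg : g ∈ S.Γ.carrier) {x y : Plane}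
    (hxy : y.1 = g *ᵥ x.1) : (S.F y).1 = g *ᵥ (S.F x).1 :=
  S.H_equiv hg (S.A_equiv hg hxy)

end Sys

end Pool.Agent.Lib.MP_e1777c_an
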