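import Pool.Agent.Lib.MP_e1777c_an.Basic

set_option autoImplicit false

open Filter Topology Matrix

/-! Hypercycle maps and rotations. -/

namespace Pool.Agent.Lib.MP_e1777c_an

/-- The map that sends `z` to the point whose signed distance to the line `e` has hyperbolic sine
`R'` and whose projection to the line is the projection of `z` translated by `s`. -/
noncomputable def Phi (e : Fin 3 → ℝ) (R' s : ℝ) (z : Fin 3 → ℝ) : Fin 3 → ℝ :=
  (√(1 + R' ^ 2) / √(1 + (form z e) ^ 2)) •
    (Real.cosh s • (z - form z e • e) + Real.sinh s • cross e z) - R' • e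

lemma sqrt_pos' (a : ℝ) : 0 < √(1 + a ^ 2) := Real.sqrt_pos.mpr (by positivity)

lemma sq_sqrt' (a : ℝ) : √(1 + a ^ 2) ^ 2 = 1 + a ^ 2 := Real.sq_sqrt (by positivity)

section

variable {e z : Fin 3 → ℝ} (he : form e e = 1)

include he

lemma form_Phi_e (R' s : ℝ) : form (Phi e R' s z) e = -R' := by
  unfold Phi
  rw [form_sub_left, form_smul_left, form_add_left, form_smul_left, form_smul_left, form_sub_left,
    form_smul_left, form_smul_left, form_cross_left, he]
  ring

lemma Phi_perp (R' s : ℝ) : Phi e R' s z - form (Phi e R' s z) e • e =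
    (√(1 + R' ^ 2) / √(1 + (form z e) ^ 2)) •
    (Real.cosh s • (z - form z e • e) + Real.sinh s • cross e z) := by
  rw [form_Phi_e he]
  unfold Phi
  rw [neg_smul, sub_neg_eq_add, sub_add_cancel]

lemma cross_Phi (R' s : ℝ) : cross e (Phi e R' s z) =
    (√(1 + R' ^ 2) / √(1 + (form z e) ^ 2)) •
    (Real.cosh s • cross e z + Real.sinh s • (z - form z e • e)) := by
  unfold Phi
  rw [cross_sub_right, cross_smul_right, cross_add_right, cross_smul_right, cross_smul_right,
    cross_smul_right, cross_sub_right, cross_smul_right, cross_self, cross_cross, he,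
    form_comm e z]
  simp

lemma Phi_comp (R' s R'' s' : ℝ) : Phi e R'' s' (Phi e R' s z) = Phi e R'' (s + s') z := by
  have h1 : Phi e R'' s' (Phi e R' s z) =
      (√(1 + R'' ^ 2) / √(1 + (form (Phi e R' s z) e) ^ 2)) •
    (Real.cosh s' • (Phi e R' s z - form (Phi e R' s z) e • e) +
      Real.sinh s' • cross e (Phi e R' s z)) - R'' • e := rfl
  rw [h1, Phi_perp he, cross_Phi he, form_Phi_e he]
  unfold Phi
  rw [Real.cosh_add, Real.sinh_add]
  have h2 := sqrt_pos' R'
  have h3 := sqrt_pos' (form z e)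
  have h4 : (-R') ^ 2 = R' ^ 2 := by ring
  rw [h4]
  apply vec_ext <;>
  · simp only [Pi.sub_apply, Pi.add_apply, Pi.smul_apply, smul_eq_mul]
    field_simp
    ring

lemma form_Phi_self (hz : form z z = -1) (R' s : ℝ) :
    form z (Phi e R' s z) = -(√(1 + R' ^ 2) * √(1 + (form z e) ^ 2) * Real.cosh s) -
      R' * form z e := by
  have h3 := sqrt_pos' (form z e)
  have h4 := sq_sqrt' (form z e)
  unfold Phi
  rw [form_sub_right, form_smul_right, form_add_right, form_smul_right, form_smul_right,
    form_sub_right, form_smul_right, form_smul_right, form_comm z (cross e z), form_cross_right, hz]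
  field_simp
  linear_combination (√(1 + R' ^ 2) * Real.cosh s) * h4

lemma form_Phi_Phi (hz : form z z = -1) (R' s : ℝ) :
    form (Phi e R' s z) (Phi e R' s z) = -1 := by
  have h3 := sqrt_pos' (form z e)
  have h4 := sq_sqrt' (form z e)
  have h5 := sq_sqrt' R'
  have hu : form (z - form z e • e) (z - form z e • e) = -(1 + form z e ^ 2) := by
    rw [form_sub_left, form_sub_right, form_sub_right, form_smul_left, form_smul_left,
      form_smul_right, form_smul_right, he, hz, form_comm e z]
    ring
  have hc : form (cross e z) (cross e z) = 1 + form z e ^ 2 := by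
    rw [form_cross_cross, he, hz, form_comm e z]; ring
  have huc : form (z - form z e • e) (cross e z) = 0 := by
    rw [form_sub_left, form_smul_left, form_comm z, form_cross_right, form_comm e, form_cross_left]
    ring
  have hue : form (z - form z e • e) e = 0 := by
    rw [form_sub_left, form_smul_left, he]; ring
  have hce : form (cross e z) e = 0 := form_cross_left _ _
  unfold Phi
  set u := z - form z e • e
  set k := cross e z
  set l := √(1 + R' ^ 2) / √(1 + (form z e) ^ 2)
  have hl : l ^ 2 * (1 + form z e ^ 2) = 1 + R' ^ 2 := by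
    simp only [l]
    rw [div_pow, h4, h5, div_mul_cancel₀]
    positivity
  simp only [form_sub_left, form_sub_right, form_smul_left, form_smul_right, form_add_left,
    form_add_right, hu, hc, huc, form_comm k u, form_comm e u, form_comm e k, hue, hce, he]
  have hcs := Real.cosh_sq s
  nlinarith

omit he in
lemma Phi_id (z : Fin 3 → ℝ) : Phi e (-form z e) 0 z = z := by
  unfold Phi
  have h3 := sqrt_pos' (form z e)
  rw [Real.cosh_zero, Real.sinh_zero]
  have h4 : (-form z e) ^ 2 = form z e ^ 2 := by ring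
  rw [h4, div_self h3.ne']
  simp

omit he in
lemma form_Phi_null {ν : Fin 3 → ℝ} {σ : ℝ} (h1 : form e ν = 0) (h2 : cross e ν = σ • ν)
    (hσ : σ = 1 ∨ σ = -1) (R' s : ℝ) :
    form (Phi e R' s z) ν = √(1 + R' ^ 2) / √(1 + (form z e) ^ 2) * Real.exp (-σ * s) * form z ν := by
  have h3 : form (cross e z) ν = -σ * form z ν := by
    have : form (cross e z) ν = -form (cross e ν) z := by
      simp only [form, cross_zero', cross_one', cross_two']; ring
    rw [this, h2, form_smul_left, form_comm ν z]; ring
  unfold Phi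
  rw [form_sub_left, form_smul_left, form_add_left, form_smul_left, form_smul_left, form_sub_left,
    form_smul_left, form_smul_left, h1, h3]
  rcases hσ with rfl | rfl
  · have : Real.exp (-1 * s) = Real.cosh s - Real.sinh s := by
      rw [Real.cosh_sub_sinh]; congr 1; ring
    rw [this]; ring
  · have : Real.exp (- -1 * s) = Real.cosh s + Real.sinh s := by
      rw [Real.cosh_add_sinh]; congr 1; ring
    rw [this]; ring

end

lemma IsDirectIsometry.Phi {g : Matrix (Fin 3) (Fin 3) ℝ} (hg : IsDirectIsometry g)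
    (e z : Fin 3 → ℝ) (R' s : ℝ) :
    g *ᵥ MP_e1777c_an.Phi e R' s z = MP_e1777c_an.Phi (g *ᵥ e) R' s (g *ᵥ z) := by
  unfold MP_e1777c_an.Phi
  rw [hg.2.1, Matrix.mulVec_sub, Matrix.mulVec_smul, Matrix.mulVec_smul, Matrix.mulVec_add,
    Matrix.mulVec_smul, Matrix.mulVec_smul, Matrix.mulVec_sub, Matrix.mulVec_smul, hg.cross]

/-- `Phi` on the hyperbolic plane. -/
noncomputable def PhiP (e : Fin 3 → ℝ) (he : form e e = 1) (R' s : ℝ) (z : Plane) : Plane :=
  ⟨Phi e R' s z.1, form_Phi_Phi he z.2.1 R' s, sheet z (form_Phi_Phi he z.2.1 R' s) (by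
    rw [form_Phi_self he z.2.1]
    have h1 := sqrt_pos' R'
    have h2 := sqrt_pos' (form z.1 e)
    have h3 := sq_sqrt' R'
    have h4 := sq_sqrt' (form z.1 e)
    have h5 := Real.one_le_cosh s
    have h6 : |R' * form z.1 e| < √(1 + R' ^ 2) * √(1 + (form z.1 e) ^ 2) := by
      apply abs_lt_of_sq_lt_sq _ (by positivity)
      rw [mul_pow, mul_pow, h3, h4]
      nlinarith [sq_nonneg R', sq_nonneg (form z.1 e)]
    have h7 := (abs_lt.mp h6).1
    have h8 : 0 < √(1 + R' ^ 2) * √(1 + (form z.1 e) ^ 2) := by positivity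
    nlinarith)⟩

lemma continuous_form_left (e : Fin 3 → ℝ) : Continuous (fun z : Fin 3 → ℝ => form z e) := by
  unfold form; fun_prop

lemma continuous_cross (e : Fin 3 → ℝ) : Continuous (fun z : Fin 3 → ℝ => cross e z) := by
  unfold cross
  fun_prop

lemma continuous_Phi (e : Fin 3 → ℝ) {r s : ℝ → ℝ} (hr : Continuous r) (hs : Continuous s) :
    Continuous (fun z : Fin 3 → ℝ => Phi e (r (-form z e)) (s (-form z e)) z) := by
  have hf := continuous_form_left e
  have hc := continuous_cross e
  unfold Phi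
  have h1 : Continuous (fun z : Fin 3 → ℝ => √(1 + (r (-form z e)) ^ 2) / √(1 + (form z e) ^ 2)) := by
    apply Continuous.div
    · exact (continuous_const.add ((hr.comp hf.neg).pow 2)).sqrt
    · exact (continuous_const.add (hf.pow 2)).sqrt
    · intro z; exact (sqrt_pos' _).ne'
  have h2 : Continuous (fun z : Fin 3 → ℝ => Real.cosh (s (-form z e))) :=
    Real.continuous_cosh.comp (hs.comp hf.neg)
  have h3 : Continuous (fun z : Fin 3 → ℝ => Real.sinh (s (-form z e))) :=
    Real.continuous_sinh.comp (hs.comp hf.neg)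
  exact (h1.smul ((h2.smul (continuous_id.sub (hf.smul continuous_const))).add (h3.smul hc))).sub
    ((hr.comp hf.neg).smul continuous_const)

/-- Rotation by `θ` about the timelike unit vector `c`. -/
noncomputable def Rot (c : Fin 3 → ℝ) (θ : ℝ) (z : Fin 3 → ℝ) : Fin 3 → ℝ :=
  Real.cos θ • z + Real.sin θ • cross c z - ((1 - Real.cos θ) * form z c) • c

section

variable {c z : Fin 3 → ℝ} (hc : form c c = -1)

include hc

lemma form_Rot_c (θ : ℝ) : form (Rot c θ z) c = form z c := by
  unfold Rot
  rw [form_sub_left, form_add_left, form_smul_left, form_smul_left, form_smul_left,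
    form_cross_left, hc]
  ring

lemma cross_Rot (θ : ℝ) : cross c (Rot c θ z) =
    Real.cos θ • cross c z - Real.sin θ • (z + form z c • c) := by
  unfold Rot
  rw [cross_sub_right, cross_add_right, cross_smul_right, cross_smul_right, cross_smul_right,
    cross_self, cross_cross, hc, form_comm c z]
  apply vec_ext <;> simp <;> ring

lemma Rot_comp (θ θ' : ℝ) : Rot c θ' (Rot c θ z) = Rot c (θ + θ') z := by
  have h1 : Rot c θ' (Rot c θ z) = Real.cos θ' • Rot c θ z + Real.sin θ' • cross c (Rot c θ z) -
      ((1 - Real.cos θ') * form (Rot c θ z) c) • c := rfl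
  rw [h1, cross_Rot hc, form_Rot_c hc]
  unfold Rot
  rw [Real.cos_add, Real.sin_add]
  apply vec_ext <;>
  · simp only [Pi.sub_apply, Pi.add_apply, Pi.smul_apply, smul_eq_mul]
    ring

omit hc in
lemma form_Rot_self (θ : ℝ) : form z (Rot c θ z) =
    Real.cos θ * form z z - (1 - Real.cos θ) * form z c ^ 2 := by
  unfold Rot
  rw [form_sub_right, form_add_right, form_smul_right, form_smul_right, form_smul_right,
    form_comm z (cross c z), form_cross_right]
  ring

lemma form_Rot_Rot (θ : ℝ) : form (Rot c θ z) (Rot c θ z) = form z z := by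
  unfold Rot
  simp only [form_sub_left, form_sub_right, form_smul_left, form_smul_right, form_add_left,
    form_add_right, form_cross_cross, form_comm z (cross c z), form_cross_right, form_cross_left,
    form_comm c (cross c z), hc, form_comm c z]
  have := Real.sin_sq_add_cos_sq θ
  linear_combination (form z c ^ 2 + form z z) * this

end

lemma Rot_zero (c z : Fin 3 → ℝ) : Rot c 0 z = z := by
  unfold Rot
  simp

lemma Rot_pi (c z : Fin 3 → ℝ) : Rot c Real.pi z = -z - (2 * form z c) • c := by
  unfold Rot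
  rw [Real.cos_pi, Real.sin_pi]
  apply vec_ext <;> simp only [Pi.sub_apply, Pi.add_apply, Pi.smul_apply, Pi.neg_apply,
    smul_eq_mul] <;> ring

lemma IsDirectIsometry.Rot {g : Matrix (Fin 3) (Fin 3) ℝ} (hg : IsDirectIsometry g)
    (c z : Fin 3 → ℝ) (θ : ℝ) :
    g *ᵥ MP_e1777c_an.Rot c θ z = MP_e1777c_an.Rot (g *ᵥ c) θ (g *ᵥ z) := by
  unfold MP_e1777c_an.Rot
  rw [hg.2.1, Matrix.mulVec_sub, Matrix.mulVec_smul, Matrix.mulVec_add,
    Matrix.mulVec_smul, Matrix.mulVec_smul, hg.cross]

lemma perp_nonneg (z : Plane) {w : Fin 3 → ℝ} (h : form z.1 w = 0) : 0 ≤ form w w := by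
  obtain ⟨z, hz, hz2⟩ := z
  simp only at h
  unfold form at *
  have e1 : (z 0 * w 0 + z 1 * w 1) ^ 2 ≤ (z 0 ^ 2 + z 1 ^ 2) * (w 0 ^ 2 + w 1 ^ 2) := by
    nlinarith [sq_nonneg (z 0 * w 1 - z 1 * w 0)]
  have e2 : z 0 ^ 2 + z 1 ^ 2 = z 2 ^ 2 - 1 := by nlinarith
  have e3 : z 0 * w 0 + z 1 * w 1 = z 2 * w 2 := by linarith
  rw [e2, e3] at e1
  have h4 : z 2 ^ 2 * w 2 ^ 2 ≤ z 2 ^ 2 * (w 0 ^ 2 + w 1 ^ 2) := by
    nlinarith [sq_nonneg (w 0), sq_nonneg (w 1)]
  have h5 := le_of_mul_le_mul_left h4 (by positivity)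
  nlinarith

/-- `Rot` on the hyperbolic plane. -/
noncomputable def RotP (c : Fin 3 → ℝ) (hc : form c c = -1) (θ : ℝ) (z : Plane) : Plane :=
  ⟨Rot c θ z.1, by rw [form_Rot_Rot hc]; exact z.2.1,
    sheet z (by rw [form_Rot_Rot hc]; exact z.2.1) (by
      rw [form_Rot_self, z.2.1]
      have h1 := Real.cos_le_one θ
      have h2 := Real.neg_one_le_cos θ
      have h3 : 1 ≤ form z.1 c ^ 2 := by
        have e1 : form (cross c z.1) (cross c z.1) = form z.1 c ^ 2 - 1 := by
          rw [form_cross_cross, hc, z.2.1, form_comm c z.1]; ring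
        have := perp_nonneg z (w := cross c z.1) (by rw [form_comm, form_cross_right])
        linarith
      nlinarith)⟩

lemma continuous_Rot (c : Fin 3 → ℝ) {t : ℝ → ℝ} (ht : Continuous t) :
    Continuous (fun z : Fin 3 → ℝ => Rot c (t (-form z c)) z) := by
  have hf := continuous_form_left c
  have hc := continuous_cross c
  have h1 : Continuous (fun z : Fin 3 → ℝ => Real.cos (t (-form z c))) :=
    Real.continuous_cos.comp (ht.comp hf.neg)
  have h2 : Continuous (fun z : Fin 3 → ℝ => Real.sin (t (-form z c))) :=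
    Real.continuous_sin.comp (ht.comp hf.neg)
  unfold Rot
  exact ((h1.smul continuous_id).add (h2.smul hc)).sub
    (((continuous_const.sub h1).mul hf).smul continuous_const)

end Pool.Agent.Lib.MP_e1777c_an
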