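import Pool.Agent.Lib.MP_e1777c_an.Geo

set_option autoImplicit false

open Filter Topology Matrix

/-! The four lines, and the missing rotation vector. -/

namespace Pool.Agent.Lib.MP_e1777c_an

lemma s3 : (√3 : ℝ) * √3 = 3 := Real.mul_self_sqrt (by norm_num)

/-- The boundary point with coordinates `a`, `b`. -/
def bpt (a b : ℝ) (h : a ^ 2 + b ^ 2 = 1) : Boundary := ⟨![a, b], by simpa using h⟩

lemma nullVec_bpt (a b : ℝ) (h : a ^ 2 + b ^ 2 = 1) : nullVec (bpt a b h) = ![a, b, 1] := by
  apply vec_ext <;> simp [nullVec, bpt]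

lemma hs1 : (√3 / 2) ^ 2 + (1 / 2 : ℝ) ^ 2 = 1 := by nlinarith [s3]
lemma hs2 : (√3 / 2) ^ 2 + (-(1 / 2) : ℝ) ^ 2 = 1 := by nlinarith [s3]
lemma hs3 : (-(1 / 2) : ℝ) ^ 2 + (√3 / 2) ^ 2 = 1 := by nlinarith [s3]
lemma hs4 : (1 / 2 : ℝ) ^ 2 + (√3 / 2) ^ 2 = 1 := by nlinarith [s3]
lemma hs5 : (-(√3 / 2)) ^ 2 + (-(1 / 2) : ℝ) ^ 2 = 1 := by nlinarith [s3]
lemma hs6 : (-(√3 / 2)) ^ 2 + (1 / 2 : ℝ) ^ 2 = 1 := by nlinarith [s3]
lemma hs7 : (1 / 2 : ℝ) ^ 2 + (-(√3 / 2)) ^ 2 = 1 := by nlinarith [s3]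
lemma hs8 : (-(1 / 2) : ℝ) ^ 2 + (-(√3 / 2)) ^ 2 = 1 := by nlinarith [s3]

/-- the four lines -/
noncomputable def line : Fin 4 → Line
  | 0 =>
    { e := eV 0, unit := form_eV 0, α := bpt (√3 / 2) (1 / 2) hs1, β := bpt (√3 / 2) (-(1 / 2)) hs2
      κ := 1 / 2, κpos := by norm_num
      eα := by rw [nullVec_bpt]; simp [form, eV]; ring
      cα := by
        rw [nullVec_bpt]
        apply vec_ext
        · simp [eV]; ring
        · simp [eV]; nlinarith [s3]
        · simp [eV]
      eβ := by rw [nullVec_bpt]; simp [form, eV]; ring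
      cβ := by
        rw [nullVec_bpt]
        apply vec_ext
        · simp [eV]; ring
        · simp [eV]; nlinarith [s3]
        · simp [eV]
      dec := by
        intro x y
        rw [nullVec_bpt, nullVec_bpt]
        simp [form, eV]
        linear_combination (x 0 * y 0 - x 2 * y 2) * s3 }
  | 1 =>
    { e := eV 1, unit := form_eV 1, α := bpt (-(1 / 2)) (√3 / 2) hs3, β := bpt (1 / 2) (√3 / 2) hs4
      κ := 1 / 2, κpos := by norm_num
      eα := by rw [nullVec_bpt]; simp [form, eV]; ring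
      cα := by
        rw [nullVec_bpt]
        apply vec_ext
        · simp [eV]; nlinarith [s3]
        · simp [eV]; ring
        · simp [eV]
      eβ := by rw [nullVec_bpt]; simp [form, eV]; ring
      cβ := by
        rw [nullVec_bpt]
        apply vec_ext
        · simp [eV]; nlinarith [s3]
        · simp [eV]; ring
        · simp [eV]
      dec := by
        intro x y
        rw [nullVec_bpt, nullVec_bpt]
        simp [form, eV]
        linear_combination (x 1 * y 1 - x 2 * y 2) * s3 }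
  | 2 =>
    { e := eV 2, unit := form_eV 2, α := bpt (-(√3 / 2)) (-(1 / 2)) hs5
      β := bpt (-(√3 / 2)) (1 / 2) hs6
      κ := 1 / 2, κpos := by norm_num
      eα := by rw [nullVec_bpt]; simp [form, eV]; ring
      cα := by
        rw [nullVec_bpt]
        apply vec_ext
        · simp [eV]; ring
        · simp [eV]; nlinarith [s3]
        · simp [eV]
      eβ := by rw [nullVec_bpt]; simp [form, eV]; ring
      cβ := by
        rw [nullVec_bpt]
        apply vec_ext
        · simp [eV]; ring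
        · simp [eV]; nlinarith [s3]
        · simp [eV]
      dec := by
        intro x y
        rw [nullVec_bpt, nullVec_bpt]
        simp [form, eV]
        linear_combination (x 0 * y 0 - x 2 * y 2) * s3 }
  | 3 =>
    { e := eV 3, unit := form_eV 3, α := bpt (1 / 2) (-(√3 / 2)) hs7
      β := bpt (-(1 / 2)) (-(√3 / 2)) hs8
      κ := 1 / 2, κpos := by norm_num
      eα := by rw [nullVec_bpt]; simp [form, eV]; ring
      cα := by
        rw [nullVec_bpt]
        apply vec_ext
        · simp [eV]; nlinarith [s3]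
        · simp [eV]; ring
        · simp [eV]
      eβ := by rw [nullVec_bpt]; simp [form, eV]; ring
      cβ := by
        rw [nullVec_bpt]
        apply vec_ext
        · simp [eV]; nlinarith [s3]
        · simp [eV]; ring
        · simp [eV]
      dec := by
        intro x y
        rw [nullVec_bpt, nullVec_bpt]
        simp [form, eV]
        linear_combination (x 1 * y 1 - x 2 * y 2) * s3 }

lemma line_e (i : Fin 4) : (line i).e = eV i := by
  fin_cases i <;> rfl

lemma ne_of_coord {γ δ : Boundary} (h : γ.1 0 ≠ δ.1 0 ∨ γ.1 1 ≠ δ.1 1) : γ ≠ δ := by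
  rintro rfl
  simp at h

lemma s3pos : 0 < (√3 : ℝ) := by positivity

lemma s3gt : 1 < (√3 : ℝ) := by
  rw [Real.lt_sqrt (by norm_num)]; norm_num

namespace Sys

variable (S : Sys)

lemma line_mem (i : Fin 4) : (line i).e ∈ S.E i := by rw [line_e]; exact S.eV_mem i

/-- There is no rotation vector with positive speed from the slow source to the slow sink. -/
theorem no_rotation (v : ℝ) : ¬ IsRotationVector S.F (line 0).α (line 3).β v := by
  rintro ⟨hv, hne, x, n, m, m', hn0, hnm, hx, hy, hm, hm', hlim⟩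
  have hs := s3gt
  have hd1 : (line 0).α ≠ (line 0).β :=
    ne_of_coord (Or.inr (by show (1 / 2 : ℝ) ≠ -(1 / 2); norm_num))
  have hd2 : (line 3).β ≠ (line 3).α :=
    ne_of_coord (Or.inl (by show (-(1 / 2) : ℝ) ≠ 1 / 2; norm_num))
  have hd3 : (line 3).β ≠ (line 0).α :=
    ne_of_coord (Or.inl (by show (-(1 / 2) : ℝ) ≠ √3 / 2; intro h; linarith))
  have hd4 : (line 3).β ≠ (line 0).β :=
    ne_of_coord (Or.inl (by show (-(1 / 2) : ℝ) ≠ √3 / 2; intro h; linarith))
  have hd5 : (line 0).α ≠ (line 3).α :=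
    ne_of_coord (Or.inl (by show √3 / 2 ≠ (1 / 2 : ℝ); intro h; linarith))
  obtain ⟨C1, h1⟩ := lam_bounded hx hd1
  obtain ⟨C2, h2⟩ := lam_bounded hx hd3.symm
  obtain ⟨C3, h3⟩ := lam_bounded hx hd5
  obtain ⟨C4, h4⟩ := lam_bounded hy hd2
  obtain ⟨C5, h5⟩ := lam_bounded hy hd3
  obtain ⟨C6, h6⟩ := lam_bounded hy hd4
  set K := 8 + 2 * Real.log 256 + 2 * Real.log 40 with hK
  have key : ∀ k, hdist (m k) (m' k) ≤ 16 * √(n k) +
      (C1 + C2 + C3 + C4 + C5 + C6 + K) := by
    intro k
    rw [hdist_proj hne (hm k) (hm' k), tau_lam, tau_lam]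
    have a1 := abs_le.mp (h1 k)
    have a2 := abs_le.mp (h2 k)
    have a3 := abs_le.mp (h3 k)
    have a4 := abs_le.mp (h4 k)
    have a5 := abs_le.mp (h5 k)
    have a6 := abs_le.mp (h6 k)
    have b1 := abs_le.mp (S.slow (line 0) (S.line_mem 0) (Or.inl rfl) (n k) (x k))
    have b2 := abs_le.mp (S.slow (line 3) (S.line_mem 3) (Or.inr rfl) (n k) (x k))
    rw [φ_lam, φ_lam, ← hK] at b1 b2
    have hK0 : 0 ≤ K := by
      have : 0 ≤ Real.log 256 := Real.log_nonneg (by norm_num)
      have : 0 ≤ Real.log 40 := Real.log_nonneg (by norm_num)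
      linarith
    rw [abs_le]
    constructor <;>
      linarith [a1.1, a1.2, a2.1, a2.2, a3.1, a3.2, a4.1, a4.2, a5.1, a5.2, a6.1, a6.2, b1.1,
        b1.2, b2.1, b2.2]
  have hnt : Tendsto (fun k => (n k : ℝ)) atTop atTop :=
    tendsto_natCast_atTop_atTop.comp hnm.tendsto_atTop
  have hz : Tendsto (fun k => (16 * √(n k) + (C1 + C2 + C3 + C4 + C5 + C6 + K)) / n k)
      atTop (𝓝 0) := by
    have e1 : Tendsto (fun t : ℝ => (16 * √t + (C1 + C2 + C3 + C4 + C5 + C6 + K)) / t)
        atTop (𝓝 0) := by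
      have f1 : Tendsto (fun t : ℝ => 16 * (√t)⁻¹ + (C1 + C2 + C3 + C4 + C5 + C6 + K) * t⁻¹)
          atTop (𝓝 (16 * 0 + (C1 + C2 + C3 + C4 + C5 + C6 + K) * 0)) :=
        ((tendsto_inv_atTop_zero.comp Real.tendsto_sqrt_atTop).const_mul 16).add
          (tendsto_inv_atTop_zero.const_mul _)
      simp only [mul_zero, add_zero] at f1
      refine f1.congr' ?_
      filter_upwards [eventually_gt_atTop 0] with t ht
      have := Real.sqrt_pos.mpr ht
      have h := Real.mul_self_sqrt ht.le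
      have hinv : (√t)⁻¹ = √t * t⁻¹ := by
        apply inv_eq_of_mul_eq_one_right
        rw [← mul_assoc, h, mul_inv_cancel₀ ht.ne']
      rw [hinv]
      field_simp
    exact e1.comp hnt
  have hle : v ≤ 0 := by
    apply le_of_tendsto_of_tendsto hlim hz
    filter_upwards with k
    exact div_le_div_of_nonneg_right (key k) (by positivity)
  linarith

end Sys

end Pool.Agent.Lib.MP_e1777c_an
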