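import Pool.Agent.Lib.MP_e1777c_an.Glue

set_option autoImplicit false

open Filter Topology Matrix

/-! Orbits of the homeomorphism of the construction. -/

namespace Pool.Agent.Lib.MP_e1777c_an

namespace Sys

variable (S : Sys)

/-- the low part of the collar of the line `e` -/
def L (e : Fin 3 → ℝ) : Set Plane := {z | -(9 / 10) < -form z.1 e ∧ -form z.1 e < 1 / 2}

lemma L_collar {e : Fin 3 → ℝ} {z : Plane} (h : z ∈ L e) : |form z.1 e| < 9 / 10 := by
  obtain ⟨h1, h2⟩ := h
  rw [abs_lt]; constructor <;> linarith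

lemma collar_unique {i j : Fin 4} {e f : Fin 3 → ℝ} (he : e ∈ S.E i) (hf : f ∈ S.E j) {z : Plane}
    (h1 : |form z.1 e| < 9 / 10) (h2 : |form z.1 f| < 9 / 10) : e = f ∧ i = j := by
  have h := gap z.2.1 (S.E_unit he) (S.E_unit hf) (by linarith) (by linarith)
  rcases S.E_sep he hf with h3 | h3
  · exact h3
  · linarith

/-- balls only meet the high parts of collars -/
lemma ball_high {i : Fin 4} {e c : Fin 3 → ℝ} (he : e ∈ S.E i) (hc : c ∈ S.P) {z : Plane}
    (h1 : |form z.1 e| < 9 / 10) (h2 : -form z.1 c < 13 / 10) : 1 / 2 < -form z.1 e := by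
  have h3 := line_chain (S.PP hc) z (S.E_unit he)
  have h3' : (form z.1 e + form c z.1 * form c e) ^ 2 ≤ (form c z.1 ^ 2 - 1) * (1 + form c e ^ 2) := h3
  have h4 := one_le_dd z (S.PP hc)
  have h4' : 1 ≤ -form z.1 c := h4
  rw [form_comm c z.1, form_comm c e] at h3'
  have hs := S.EP_sep he hc
  set D := form z.1 c
  set x := form z.1 e
  set a := form e c
  have hx := abs_lt.mp h1
  have h5 : a ^ 2 + 2 * D * a * x + x ^ 2 ≤ D ^ 2 - 1 := by nlinarith
  rcases hs with ha | ha
  · have h30 : (√3 : ℝ) ^ 2 = 3 := Real.sq_sqrt (by norm_num)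
    have h31 : (√3 : ℝ) < 1733 / 1000 := by
      rw [Real.sqrt_lt' (by norm_num)]; norm_num
    have h32 : 0 < (√3 : ℝ) := by positivity
    rw [ha] at h5
    by_contra hcon
    push Not at hcon
    have h6 : 4 ≤ D ^ 2 + 2 * √3 * (-D) * (-x) - x ^ 2 := by nlinarith
    have h7 : D ^ 2 ≤ 169 / 100 := by nlinarith
    rcases le_or_gt (-x) 0 with hx0 | hx0
    · have : 2 * √3 * (-D) * (-x) ≤ 0 := by
        have : 0 ≤ 2 * √3 * (-D) := by positivity
        nlinarith
      nlinarith
    · have h8 : 2 * √3 * (-D) * (-x) ≤ 2 * (1733 / 1000) * (13 / 10) * (-x) := by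
        have e1 : √3 * (-D) ≤ (1733 / 1000) * (13 / 10) := by
          apply mul_le_mul h31.le (by linarith) (by linarith) (by norm_num)
        nlinarith
      nlinarith
  · exfalso
    have h6 : |a| ^ 2 ≤ 69 / 100 + 2 * (13 / 10) * |a| * (9 / 10) := by
      have e1 : |2 * D * a * x| ≤ 2 * (13 / 10) * |a| * (9 / 10) := by
        rw [abs_mul, abs_mul, abs_mul]
        have : |D| ≤ 13 / 10 := by rw [abs_le]; constructor <;> linarith
        have h2' : |(2 : ℝ)| = 2 := abs_of_pos (by norm_num)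
        rw [h2']
        gcongr
      have e2 := neg_abs_le (2 * D * a * x)
      have e3 : |a| ^ 2 = a ^ 2 := sq_abs a
      nlinarith
    nlinarith [abs_nonneg a]

lemma L_not_ball {i : Fin 4} {e c : Fin 3 → ℝ} (he : e ∈ S.E i) (hc : c ∈ S.P) {z : Plane}
    (h : z ∈ L e) : 13 / 10 ≤ -form z.1 c := by
  by_contra hcon
  push Not at hcon
  have := S.ball_high he hc (L_collar h) hcon
  linarith [h.2]

lemma form_A {i : Fin 4} {e : Fin 3 → ℝ} (he : e ∈ S.E i) {z : Plane}
    (hz : |form z.1 e| < 9 / 10) : -form (S.A z).1 e = rr i (-form z.1 e) := by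
  rw [S.A_collar he hz, form_Phi_e (S.E_unit he), neg_neg]

lemma A_mem_collar {i : Fin 4} {e : Fin 3 → ℝ} (he : e ∈ S.E i) {z : Plane}
    (hz : |form z.1 e| < 9 / 10) : |form (S.A z).1 e| < 9 / 10 := by
  rw [← abs_neg, S.form_A he hz]
  apply rr_mem
  rwa [abs_neg]

/-- if the image under `A` is in a collar then so is the point -/
lemma mem_collar_of_A {i : Fin 4} {e : Fin 3 → ℝ} (he : e ∈ S.E i) {z : Plane}
    (hz : |form (S.A z).1 e| < 9 / 10) : |form z.1 e| < 9 / 10 := by
  by_cases hex : ∃ j, ∃ f ∈ S.E j, |form z.1 f| < 9 / 10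
  · obtain ⟨j, f, hf, hzf⟩ := hex
    have h1 := S.A_mem_collar hf hzf
    obtain ⟨h2, -⟩ := S.collar_unique he hf hz h1
    rw [h2]; exact hzf
  · push Not at hex
    rw [S.A_out hex] at hz
    exact hz

lemma ball_inv {c : Fin 3 → ℝ} (hc : c ∈ S.P) (z : Plane) :
    -form (S.H z).1 c < 13 / 10 ↔ -form z.1 c < 13 / 10 := by
  by_cases hex : ∃ d ∈ S.P, -form z.1 d < 13 / 10
  · obtain ⟨d, hd, hz⟩ := hex
    have h1 : form (S.H z).1 d = form z.1 d := by
      rw [S.H_ball hd hz, form_Rot_c (S.P_unit hd)]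
    by_cases hcd : c = d
    · subst hcd; rw [h1]
    · have key : ∀ w : Plane, -form w.1 d < 13 / 10 → ¬ (-form w.1 c < 13 / 10) := by
        intro w hw hwc
        have := glue_unique S.ball S.ball_loc (z := w) (a := ⟨c, hc⟩) (b := ⟨d, hd⟩) hwc hw
        exact hcd (congrArg Subtype.val this)
      constructor
      · intro h; exact absurd h (key _ (by rw [h1]; exact hz))
      · intro h; exact absurd h (key _ hz)
  · push Not at hex
    rw [S.H_out hex]

/-- source types -/
def Src (i : Fin 4) : Prop := i = 0 ∨ i = 1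

/-- sink types -/
def Snk (i : Fin 4) : Prop := i = 2 ∨ i = 3

lemma src_or_snk (i : Fin 4) : Src i ∨ Snk i := by
  unfold Src Snk; omega

lemma rr_src {i : Fin 4} (h : Src i) : rr i = rhoF := by
  rcases h with rfl | rfl <;> rfl

lemma rr_snk {i : Fin 4} (h : Snk i) : rr i = rhoG := by
  rcases h with rfl | rfl <;> rfl

lemma F_snk {i : Fin 4} (hi : Snk i) {e : Fin 3 → ℝ} (he : e ∈ S.E i) {z : Plane} (hz : z ∈ L e) :
    S.F z = S.A z ∧ S.F z ∈ L e := by
  have h1 : S.A z ∈ L e := by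
    have := S.form_A he (L_collar hz)
    rw [rr_snk hi] at this
    show -(9 / 10) < -form (S.A z).1 e ∧ -form (S.A z).1 e < 1 / 2
    rw [this]
    exact ⟨rhoG_neg hz.1, lt_of_le_of_lt (rhoG_le _) hz.2⟩
  have h2 : S.F z = S.A z := S.H_out (fun c hc => S.L_not_ball he hc h1)
  exact ⟨h2, by rw [h2]; exact h1⟩

lemma F_src {i : Fin 4} (hi : Src i) {e : Fin 3 → ℝ} (he : e ∈ S.E i) {z : Plane}
    (hz : S.F z ∈ L e) : S.F z = S.A z ∧ z ∈ L e := by
  have h1 : ∀ c ∈ S.P, 13 / 10 ≤ -form (S.A z).1 c := by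
    intro c hc
    by_contra hcon
    push Not at hcon
    have := (S.ball_inv hc (S.A z)).mpr hcon
    have h2 := S.L_not_ball he hc hz
    rw [F_apply] at h2
    linarith
  have h2 : S.F z = S.A z := S.H_out h1
  refine ⟨h2, ?_⟩
  rw [h2] at hz
  have h3 := S.mem_collar_of_A he (L_collar hz)
  have h4 := S.form_A he h3
  rw [rr_src hi] at h4
  have h5 := hz.2
  rw [h4] at h5
  exact ⟨by linarith [(abs_lt.mp h3).2], lt_of_le_of_lt (rhoF_ge _) h5⟩

/-! ### The middle part of an orbit -/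

/-- points whose column meets the ball about `c` -/
def Y (c : Fin 3 → ℝ) : Set Plane :=
  {z | -form z.1 c < 13 / 10 ∨ ∃ i, ∃ e ∈ S.E i, |form z.1 e| < 9 / 10 ∧ ∃ R' : ℝ, |R'| < 9 / 10 ∧
    -form (Phi e R' 0 z.1) c < 13 / 10}

lemma dd_column (z : Plane) {e : Fin 3 → ℝ} (he : form e e = 1) {R' : ℝ}
    (h1 : |form z.1 e| < 9 / 10) (h2 : |R'| < 9 / 10) : -form z.1 (Phi e R' 0 z.1) ≤ 3 := by
  rw [form_Phi_self he z.2.1, Real.cosh_zero]
  have a1 := abs_lt.mp h1
  have a2 := abs_lt.mp h2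
  have h3 : √(1 + R' ^ 2) ≤ 27 / 20 := by
    rw [Real.sqrt_le_left (by norm_num)]; nlinarith
  have h4 : √(1 + form z.1 e ^ 2) ≤ 27 / 20 := by
    rw [Real.sqrt_le_left (by norm_num)]; nlinarith
  have h5 := sqrt_pos' R'
  have h6 := sqrt_pos' (form z.1 e)
  nlinarith

lemma Y_dd {c : Fin 3 → ℝ} (hc : c ∈ S.P) {z : Plane} (hz : z ∈ S.Y c) : -form z.1 c < 8 := by
  rcases hz with h | ⟨i, e, he, h1, R', h2, h3⟩
  · linarith
  · have h4 := dd_column z (S.E_unit he) h1 h2
    have h5 := dd_chain z (PhiP e (S.E_unit he) R' 0 z) (S.PP hc)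
    have h5' : -form z.1 c ≤ 2 * -form z.1 (Phi e R' 0 z.1) * -form (Phi e R' 0 z.1) c := h5
    have h6 := one_le_dd z (PhiP e (S.E_unit he) R' 0 z)
    have h6' : 1 ≤ -form z.1 (Phi e R' 0 z.1) := h6
    have h7 := one_le_dd (PhiP e (S.E_unit he) R' 0 z) (S.PP hc)
    have h7' : 1 ≤ -form (Phi e R' 0 z.1) c := h7
    nlinarith

lemma Y_ball {c d : Fin 3 → ℝ} (hc : c ∈ S.P) (hd : d ∈ S.P) {z : Plane} (hz : z ∈ S.Y c)
    (h : -form z.1 d < 13 / 10) : c = d := by
  have h1 := S.Y_dd hc hz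
  have h2 := dd_chain (S.PP hc) z (S.PP hd)
  have h2' : -form c d ≤ 2 * -form c z.1 * -form z.1 d := h2
  rw [form_comm c z.1] at h2'
  have h3 := one_le_dd z (S.PP hc)
  have h3' : 1 ≤ -form z.1 c := h3
  have h4 := one_le_dd z (S.PP hd)
  have h4' : 1 ≤ -form z.1 d := h4
  rcases S.P_sep hc hd with h5 | h5
  · exact h5
  · nlinarith

lemma A_high {i : Fin 4} {e : Fin 3 → ℝ} (he : e ∈ S.E i) {z : Plane}
    (h1 : |form z.1 e| < 9 / 10) (h2 : z ∉ L e) :
    (S.A z).1 = Phi e (rr i (-form z.1 e)) 0 z.1 := by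
  rw [S.A_collar he h1, ss_out]
  have h3 := abs_lt.mp h1
  have h4 : 1 / 2 ≤ -form z.1 e := by
    by_contra hcon
    push Not at hcon
    exact h2 ⟨by linarith, hcon⟩
  exact h4.trans (le_abs_self _)

/-- not in any low part -/
def NotL (z : Plane) : Prop := ∀ i, ∀ e ∈ S.E i, z ∉ L e

lemma Y_forward {c : Fin 3 → ℝ} (hc : c ∈ S.P) {z : Plane} (hL : S.NotL z) (hz : z ∈ S.Y c) :
    S.F z ∈ S.Y c := by
  have hA : S.A z ∈ S.Y c := by
    by_cases hex : ∃ j, ∃ f ∈ S.E j, |form z.1 f| < 9 / 10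
    · obtain ⟨j, f, hf, hzf⟩ := hex
      have hf1 := S.E_unit hf
      have hAz := S.A_high hf hzf (hL j f hf)
      have hAc := S.A_mem_collar hf hzf
      right
      refine ⟨j, f, hf, hAc, ?_⟩
      rcases hz with h | ⟨i, e, he, h1, R', h2, h3⟩
      · refine ⟨-form z.1 f, by rwa [abs_neg], ?_⟩
        rw [hAz, Phi_comp hf1, add_zero, Phi_id]
        exact h
      · obtain ⟨h4, h5⟩ := S.collar_unique he hf h1 hzf
        subst h4
        refine ⟨R', h2, ?_⟩
        rw [hAz, Phi_comp hf1, add_zero]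
        exact h3
    · push Not at hex
      rw [S.A_out hex]
      exact hz
  rw [F_apply]
  by_cases hb : ∃ d ∈ S.P, -form (S.A z).1 d < 13 / 10
  · obtain ⟨d, hd, hdz⟩ := hb
    have := S.Y_ball hc hd hA hdz
    subst this
    left
    exact (S.ball_inv hc _).mpr hdz
  · push Not at hb
    rw [S.H_out hb]
    exact hA

/-- not in any `Y c` -/
def NotY (z : Plane) : Prop := ∀ c ∈ S.P, z ∉ S.Y c

lemma notY_column {i : Fin 4} {e : Fin 3 → ℝ} (he : e ∈ S.E i) {z w : Plane}
    (h1 : |form z.1 e| < 9 / 10) (hY : S.NotY z) {R' : ℝ} (hR : |R'| < 9 / 10)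
    (hw : w.1 = Phi e R' 0 z.1) : S.NotY w := by
  have he1 := S.E_unit he
  have hwe : |form w.1 e| < 9 / 10 := by rw [hw, form_Phi_e he1, abs_neg]; exact hR
  intro c hc hwY
  apply hY c hc
  right
  refine ⟨i, e, he, h1, ?_⟩
  rcases hwY with h | ⟨j, f, hf, h2, R'', h3, h4⟩
  · exact ⟨R', hR, by rw [← hw]; exact h⟩
  · obtain ⟨h5, -⟩ := S.collar_unique he hf hwe h2
    subst h5
    refine ⟨R'', h3, ?_⟩
    rw [hw, Phi_comp he1, add_zero] at h4
    exact h4

lemma notY_not_ball {z : Plane} (hY : S.NotY z) : ∀ c ∈ S.P, 13 / 10 ≤ -form z.1 c := by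
  intro c hc
  by_contra hcon
  push Not at hcon
  exact hY c hc (Or.inl hcon)

/-- Bounded displacement of orbit segments that avoid the low parts. -/
lemma middle (z : Plane) (n : ℕ) (hL : ∀ j < n, S.NotL (S.F^[j] z)) :
    -form z.1 (S.F^[n] z).1 ≤ 128 := by
  by_cases hY : ∃ c ∈ S.P, z ∈ S.Y c
  · obtain ⟨c, hc, hz⟩ := hY
    have key : ∀ j ≤ n, S.F^[j] z ∈ S.Y c := by
      intro j
      induction j with
      | zero => intro _; exact hz
      | succ j ih =>
        intro hj
        rw [Function.iterate_succ_apply']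
        exact S.Y_forward hc (hL j (by omega)) (ih (by omega))
    have h1 := S.Y_dd hc hz
    have h2 := S.Y_dd hc (key n le_rfl)
    have h3 := dd_chain z (S.PP hc) (S.F^[n] z)
    have h3' : -form z.1 (S.F^[n] z).1 ≤ 2 * -form z.1 c * -form c (S.F^[n] z).1 := h3
    rw [form_comm c] at h3'
    have h4 := one_le_dd z (S.PP hc)
    have h4' : 1 ≤ -form z.1 c := h4
    have h5 := one_le_dd (S.F^[n] z) (S.PP hc)
    have h5' : 1 ≤ -form (S.F^[n] z).1 c := h5
    nlinarith
  · have hY' : S.NotY z := fun c hc h => hY ⟨c, hc, h⟩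
    by_cases hex : ∃ j, ∃ f ∈ S.E j, |form z.1 f| < 9 / 10
    · obtain ⟨i, f, hf, hzf⟩ := hex
      have hf1 := S.E_unit hf
      have key : ∀ j ≤ n, ∃ R' : ℝ, |R'| < 9 / 10 ∧ (S.F^[j] z).1 = Phi f R' 0 z.1 := by
        intro j
        induction j with
        | zero => intro _; exact ⟨-form z.1 f, by rwa [abs_neg], by
            rw [Phi_id]; rfl⟩
        | succ j ih =>
          intro hj
          obtain ⟨R', hR, hw⟩ := ih (by omega)
          have hwc : |form (S.F^[j] z).1 f| < 9 / 10 := by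
            rw [hw, form_Phi_e hf1, abs_neg]; exact hR
          have hA := S.A_high hf hwc (hL j (by omega) i f hf)
          rw [Function.iterate_succ_apply', F_apply]
          have hA2 : (S.A (S.F^[j] z)).1 = Phi f (rr i (-form (S.F^[j] z).1 f)) 0 z.1 := by
            rw [hA]
            conv_lhs => rw [hw]
            rw [Phi_comp hf1, add_zero, hw]
          have hR2 : |rr i (-form (S.F^[j] z).1 f)| < 9 / 10 := rr_mem i (by rwa [abs_neg])
          have hAY := S.notY_column hf hzf hY' hR2 hA2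
          rw [S.H_out (S.notY_not_ball hAY)]
          exact ⟨_, hR2, hA2⟩
      obtain ⟨R', hR, hw⟩ := key n le_rfl
      rw [hw]
      have := dd_column z hf1 hzf hR
      linarith
    · push Not at hex
      have hF : S.F z = z := by
        rw [F_apply, S.A_out hex, S.H_out (S.notY_not_ball hY')]
      have : S.F^[n] z = z := by
        induction n with
        | zero => rfl
        | succ n ih =>
          rw [Function.iterate_succ_apply', ih (fun j hj => hL j (by omega)), hF]
      rw [this, z.2.1]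
      norm_num

/-- Bounded steps. -/
lemma step (z : Plane) : -form z.1 (S.F z).1 ≤ 20 := by
  have h1 : -form z.1 (S.A z).1 ≤ 4 := by
    by_cases hex : ∃ j, ∃ f ∈ S.E j, |form z.1 f| < 9 / 10
    · obtain ⟨i, f, hf, hzf⟩ := hex
      have hf1 := S.E_unit hf
      rw [S.A_collar hf hzf, form_Phi_self hf1 z.2.1]
      have a1 := abs_lt.mp hzf
      have a2 := abs_lt.mp (rr_mem i (R := -form z.1 f) (by rwa [abs_neg]))
      set R' := rr i (-form z.1 f)
      have h3 : √(1 + R' ^ 2) ≤ 27 / 20 := by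
        rw [Real.sqrt_le_left (by norm_num)]; nlinarith
      have h4 : √(1 + form z.1 f ^ 2) ≤ 27 / 20 := by
        rw [Real.sqrt_le_left (by norm_num)]; nlinarith
      have h5 := sqrt_pos' R'
      have h6 := sqrt_pos' (form z.1 f)
      have h7 : Real.cosh (ss i (-form z.1 f)) ≤ 8 / 5 := by
        have hs : |ss i (-form z.1 f)| ≤ 1 := by
          rw [abs_le]
          have c1 := cut_nonneg (-form z.1 f)
          have c2 := cut_le_one (-form z.1 f)
          have c3 : √(-form z.1 f) ≤ 1 := by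
            rw [Real.sqrt_le_left (by norm_num)]; linarith
          have c4 := Real.sqrt_nonneg (-form z.1 f)
          have c5 : 0 ≤ √(-form z.1 f) * cut (-form z.1 f) := by positivity
          have c6 : √(-form z.1 f) * cut (-form z.1 f) ≤ 1 := by nlinarith
          fin_cases i
          · exact ⟨by show (-1 : ℝ) ≤ √(-form z.1 f) * cut (-form z.1 f); linarith, c6⟩
          · exact ⟨by show (-1 : ℝ) ≤ cut (-form z.1 f); linarith, c2⟩
          · exact ⟨by show (-1 : ℝ) ≤ cut (-form z.1 f); linarith, c2⟩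
          · exact ⟨by show (-1 : ℝ) ≤ √(-form z.1 f) * cut (-form z.1 f); linarith, c6⟩
        have h8 : Real.cosh (ss i (-form z.1 f)) ≤ Real.cosh 1 := by
          rw [Real.cosh_le_cosh, abs_one]; exact hs
        have h9 : Real.cosh 1 ≤ 8 / 5 := by
          rw [Real.cosh_eq]
          have e1 := Real.exp_one_lt_d9
          have e2 : Real.exp (-1) ≤ 37 / 100 := by
            rw [Real.exp_neg]
            have e3 := Real.exp_one_gt_d9
            rw [inv_le_comm₀ (Real.exp_pos 1) (by norm_num)]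
            norm_num
            linarith
          linarith
        linarith
      have h8 := Real.one_le_cosh (ss i (-form z.1 f))
      have h9 : √(1 + R' ^ 2) * √(1 + form z.1 f ^ 2) ≤ (27 / 20) * (27 / 20) := by
        apply mul_le_mul h3 h4 h6.le (by norm_num)
      have h10 : √(1 + R' ^ 2) * √(1 + form z.1 f ^ 2) * Real.cosh (ss i (-form z.1 f)) ≤
          (27 / 20) * (27 / 20) * (8 / 5) := by
        apply mul_le_mul h9 h7 (by linarith) (by norm_num)
      nlinarith
    · push Not at hex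
      rw [S.A_out hex, z.2.1]; norm_num
  have h2 : ∀ w : Plane, -form w.1 (S.H w).1 ≤ 5 / 2 := by
    intro w
    by_cases hb : ∃ d ∈ S.P, -form w.1 d < 13 / 10
    · obtain ⟨d, hd, hdz⟩ := hb
      rw [S.H_ball hd hdz, form_Rot_self, w.2.1]
      have a1 := Real.cos_le_one (ang (-form w.1 d))
      have a2 := Real.neg_one_le_cos (ang (-form w.1 d))
      have a3 := one_le_dd w (S.PP hd)
      have a3' : 1 ≤ -form w.1 d := a3
      have a4 : form w.1 d ^ 2 ≤ 169 / 100 := by nlinarith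
      nlinarith
    · push Not at hb
      rw [S.H_out hb, w.2.1]; norm_num
  have h3 := dd_chain z (S.A z) (S.F z)
  have h4 := h2 (S.A z)
  have h4' : -form (S.A z).1 (S.F z).1 ≤ 5 / 2 := h4
  have h5 := one_le_dd z (S.A z)
  have h6 := one_le_dd (S.A z) (S.F z)
  nlinarith

end Sys

end Pool.Agent.Lib.MP_e1777c_an
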