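import Pool.Agent.Lib.MP_e1777c_an.Neg

set_option autoImplicit false

open Filter Topology Matrix

/-! The two rotation vectors with positive speed. -/

namespace Pool.Agent.Lib.MP_e1777c_an

/-- the radii of the special orbits -/
noncomputable def Rk (k : ℕ) : ℝ := 3 / (2 * ((k : ℝ) + 2))

lemma Rk_pos (k : ℕ) : 0 < Rk k := by unfold Rk; positivity

lemma Rk_le (k : ℕ) : Rk k ≤ 3 / 4 := by
  unfold Rk
  rw [div_le_div_iff₀ (by positivity) (by norm_num)]
  have : (0 : ℝ) ≤ k := Nat.cast_nonneg k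
  nlinarith

lemma Rk_succ_le (k : ℕ) : Rk (k + 1) ≤ 1 / 2 := by
  unfold Rk
  push_cast
  rw [div_le_div_iff₀ (by positivity) (by norm_num)]
  have : (0 : ℝ) ≤ k := Nat.cast_nonneg k
  nlinarith

lemma rhoF_Rk (k : ℕ) : rhoF (Rk (k + 1)) = Rk k := by
  rw [rhoF_low (Rk_pos _) (Rk_succ_le k)]
  have h1 := Rk_succ_le k
  have h2 : 3 - 2 * Rk (k + 1) ≠ 0 := by linarith
  rw [div_eq_iff h2]
  unfold Rk
  push_cast
  have : (0 : ℝ) ≤ k := Nat.cast_nonneg k
  field_simp
  ring

lemma rhoG_Rk (k : ℕ) : rhoG (Rk k) = Rk (k + 1) := by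
  rw [← rhoF_Rk k, rhoG_rhoF]

lemma Rk_zero : Rk 0 = 3 / 4 := by unfold Rk; norm_num

lemma tendsto_Rk : Tendsto Rk atTop (𝓝 0) := by
  unfold Rk
  apply Tendsto.div_atTop tendsto_const_nhds
  apply Tendsto.const_mul_atTop (by norm_num)
  exact tendsto_atTop_add_const_right _ _ tendsto_natCast_atTop_atTop

lemma ss_nonneg (i : Fin 4) (R : ℝ) : 0 ≤ ss i R := by
  fin_cases i
  · exact slow_speed_nonneg R
  · exact cut_nonneg R
  · exact cut_nonneg R
  · exact slow_speed_nonneg R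

lemma ss_ge (i : Fin 4) (k : ℕ) (hk : 4 ≤ k) : 1 / 2 * (1 / ((k : ℝ) + 1)) ≤ ss i (Rk k) := by
  have hk' : (4 : ℝ) ≤ k := by exact_mod_cast hk
  have h1 : Rk k ≤ 1 / 4 := by
    unfold Rk
    rw [div_le_div_iff₀ (by positivity) (by norm_num)]
    nlinarith
  have h0 := Rk_pos k
  have h2 : cut (Rk k) = 1 := cut_in (by rw [abs_of_pos h0]; exact h1)
  have h3 : 1 / 2 * (1 / ((k : ℝ) + 1)) ≤ Rk k := by
    unfold Rk
    rw [one_div, one_div, ← mul_inv, inv_eq_one_div, div_le_div_iff₀ (by positivity) (by positivity)]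
    nlinarith
  have h4 : Rk k ≤ √(Rk k) := by
    apply Real.le_sqrt_of_sq_le
    nlinarith
  fin_cases i
  · show _ ≤ √(Rk k) * cut (Rk k)
    rw [h2]; linarith
  · show _ ≤ cut (Rk k)
    rw [h2]; linarith
  · show _ ≤ cut (Rk k)
    rw [h2]; linarith
  · show _ ≤ √(Rk k) * cut (Rk k)
    rw [h2]; linarith

lemma diverge (u : ℕ → ℝ) (h0 : ∀ k, 0 ≤ u k)
    (h : ∀ k : ℕ, 4 ≤ k → 1 / 2 * (1 / ((k : ℝ) + 1)) ≤ u k) :
    Tendsto (fun n => ∑ j ∈ Finset.range n, u j) atTop atTop := by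
  have h1 : Tendsto (fun n : ℕ => 1 / 2 * (∑ i ∈ Finset.range n, 1 / ((i : ℝ) + 1)) - 4) atTop atTop :=
    tendsto_atTop_add_const_right _ _
      (Tendsto.const_mul_atTop (by norm_num) Real.tendsto_sum_range_one_div_nat_succ_atTop)
  refine tendsto_atTop_mono (fun n => ?_) h1
  have h2 : ∀ n : ℕ, 1 / 2 * (∑ i ∈ Finset.range n, 1 / ((i : ℝ) + 1)) - min (n : ℝ) 4 ≤
      ∑ j ∈ Finset.range n, u j := by
    intro n
    induction n with
    | zero => simp
    | succ n ih =>
      rw [Finset.sum_range_succ, Finset.sum_range_succ]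
      rcases lt_or_ge n 4 with hn | hn
      · have e1 : min ((n + 1 : ℕ) : ℝ) 4 = min (n : ℝ) 4 + 1 := by
          have hn' : (n : ℝ) + 1 ≤ 4 := by exact_mod_cast hn
          push_cast
          rw [min_eq_left hn', min_eq_left (by linarith)]
        rw [e1]
        have e2 : 1 / ((n : ℝ) + 1) ≤ 1 := by
          rw [div_le_one (by positivity)]
          have : (0 : ℝ) ≤ n := Nat.cast_nonneg n
          linarith
        have := h0 n
        linarith
      · have hn' : (4 : ℝ) ≤ n := by exact_mod_cast hn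
        have e1 : min ((n + 1 : ℕ) : ℝ) 4 = min (n : ℝ) 4 := by
          push_cast
          rw [min_eq_right hn', min_eq_right (by linarith)]
        rw [e1]
        have := h n hn
        linarith
  have h3 := h2 n
  have h4 : min (n : ℝ) 4 ≤ 4 := min_le_right _ _
  linarith

/-- total displacement of the backward orbit -/
noncomputable def SS (i : Fin 4) (k : ℕ) : ℝ := ∑ j ∈ Finset.range k, ss i (Rk (j + 1))

/-- total displacement of the forward orbit -/
noncomputable def TT (i : Fin 4) (k : ℕ) : ℝ := ∑ j ∈ Finset.range k, ss i (Rk j)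

lemma tendsto_TT (i : Fin 4) : Tendsto (TT i) atTop atTop :=
  diverge _ (fun _ => ss_nonneg _ _) (fun k hk => ss_ge i k hk)

lemma SS_eq (i : Fin 4) (k : ℕ) : SS i k = TT i (k + 1) - ss i (Rk 0) := by
  unfold SS TT
  rw [Finset.sum_range_succ']
  ring

lemma tendsto_SS (i : Fin 4) : Tendsto (SS i) atTop atTop := by
  have h : SS i = fun k => TT i (k + 1) - ss i (Rk 0) := funext (SS_eq i)
  rw [h]
  exact tendsto_atTop_add_const_right _ _ ((tendsto_add_atTop_iff_nat 1).mpr (tendsto_TT i))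

lemma SS_nonneg (i : Fin 4) (k : ℕ) : 0 ≤ SS i k := Finset.sum_nonneg fun _ _ => ss_nonneg _ _

lemma TT_nonneg (i : Fin 4) (k : ℕ) : 0 ≤ TT i k := Finset.sum_nonneg fun _ _ => ss_nonneg _ _

lemma cesaro_TT (i : Fin 4) : Tendsto (fun k : ℕ => (k : ℝ)⁻¹ * TT i k) atTop (𝓝 (ss i 0)) :=
  Filter.Tendsto.cesaro (((continuous_ss i).tendsto 0).comp tendsto_Rk)

lemma cesaro_SS (i : Fin 4) : Tendsto (fun k : ℕ => (k : ℝ)⁻¹ * SS i k) atTop (𝓝 (ss i 0)) :=
  Filter.Tendsto.cesaro (((continuous_ss i).tendsto 0).comp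
    ((tendsto_add_atTop_iff_nat 1).mpr tendsto_Rk))

/-- the base point -/
def p0 : Plane := ⟨pV, form_pV, by simp [pV]⟩

lemma PP_p0 (α : Boundary) : PP α p0 = 1 := by
  simp [PP, p0, form, pV, nullVec]

/-- backward orbits -/
noncomputable def xs (i : Fin 4) (k : ℕ) : Plane :=
  PhiP (line i).e (line i).unit (Rk k) (-SS i k) p0

/-- forward orbits -/
noncomputable def ys (i : Fin 4) (k : ℕ) : Plane :=
  PhiP (line i).e (line i).unit (Rk k) (TT i k) p0

lemma form_xs (i : Fin 4) (k : ℕ) : form (xs i k).1 (line i).e = -Rk k :=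
  form_Phi_e (line i).unit _ _

lemma form_ys (i : Fin 4) (k : ℕ) : form (ys i k).1 (line i).e = -Rk k :=
  form_Phi_e (line i).unit _ _

lemma φ_p0 (l : Line) : l.φ p0 = 0 := by
  have h1 := PP_p0 l.α
  have h2 := PP_p0 l.β
  unfold Line.φ
  unfold PP at h1 h2
  rw [h1, h2, sub_self]

lemma φ_xs (i : Fin 4) (k : ℕ) : (line i).φ (xs i k) = -2 * SS i k := by
  rw [(line i).φ_Phi (z := p0) (w := xs i k) rfl, φ_p0]; ring

lemma φ_ys (i : Fin 4) (k : ℕ) : (line i).φ (ys i k) = 2 * TT i k := by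
  rw [(line i).φ_Phi (z := p0) (w := ys i k) rfl, φ_p0]; ring

lemma quot_le_one (i : Fin 4) (k : ℕ) :
    √(1 + Rk k ^ 2) / √(1 + form p0.1 (line i).e ^ 2) ≤ 1 := by
  have h1 : form p0.1 (line i).e = -√3 := by
    rw [line_e, form_comm]; exact form_eV_pV i
  rw [h1, div_le_one (sqrt_pos' _)]
  apply Real.sqrt_le_sqrt
  have := Rk_pos k
  have := Rk_le k
  have := s3
  nlinarith

lemma PP_xs_le (i : Fin 4) (k : ℕ) : PP (line i).α (xs i k) ≤ Real.exp (-SS i k) := by
  have h1 : PP (line i).α (xs i k) = √(1 + Rk k ^ 2) / √(1 + form p0.1 (line i).e ^ 2) *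
      Real.exp (-SS i k) * PP (line i).α p0 := by
    unfold PP
    rw [show (xs i k).1 = Phi (line i).e (Rk k) (-SS i k) p0.1 from rfl, (line i).form_Phi_α]
    ring
  rw [h1, PP_p0, mul_one]
  have := quot_le_one i k
  have := Real.exp_pos (-SS i k)
  nlinarith

lemma PP_ys_le (i : Fin 4) (k : ℕ) : PP (line i).β (ys i k) ≤ Real.exp (-TT i k) := by
  have h1 : PP (line i).β (ys i k) = √(1 + Rk k ^ 2) / √(1 + form p0.1 (line i).e ^ 2) *
      Real.exp (-TT i k) * PP (line i).β p0 := by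
    unfold PP
    rw [show (ys i k).1 = Phi (line i).e (Rk k) (TT i k) p0.1 from rfl, (line i).form_Phi_β]
    ring
  rw [h1, PP_p0, mul_one]
  have := quot_le_one i k
  have := Real.exp_pos (-TT i k)
  nlinarith

lemma converges_xs (i : Fin 4) : ConvergesTo (xs i) (line i).α := by
  apply convergesTo_of
  have h1 : Tendsto (fun k => Real.exp (-SS i k)) atTop (𝓝 0) :=
    Real.tendsto_exp_neg_atTop_nhds_zero.comp (tendsto_SS i)
  refine squeeze_zero (fun k => (div_pos (PP_pos _ _) (xs i k).2.2).le) (fun k => ?_) h1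
  rw [div_le_iff₀ (xs i k).2.2]
  have := PP_xs_le i k
  have := one_le_height (xs i k)
  have := Real.exp_pos (-SS i k)
  nlinarith

lemma converges_ys (i : Fin 4) : ConvergesTo (ys i) (line i).β := by
  apply convergesTo_of
  have h1 : Tendsto (fun k => Real.exp (-TT i k)) atTop (𝓝 0) :=
    Real.tendsto_exp_neg_atTop_nhds_zero.comp (tendsto_TT i)
  refine squeeze_zero (fun k => (div_pos (PP_pos _ _) (ys i k).2.2).le) (fun k => ?_) h1
  rw [div_le_iff₀ (ys i k).2.2]
  have := PP_ys_le i k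
  have := one_le_height (ys i k)
  have := Real.exp_pos (-TT i k)
  nlinarith

lemma ConvergesTo.shift {x : ℕ → Plane} {γ : Boundary} (h : ConvergesTo x γ) :
    ConvergesTo (fun k => x (k + 1)) γ :=
  ⟨(tendsto_add_atTop_iff_nat 1).mpr h.1, (tendsto_add_atTop_iff_nat 1).mpr h.2⟩

namespace Sys

variable (S : Sys)

lemma A_xs {i : Fin 4} (hi : Src i) (k : ℕ) : S.A (xs i (k + 1)) = xs i k := by
  apply Subtype.ext
  have h0 := Rk_pos (k + 1)
  have h1 := Rk_succ_le k
  rw [S.A_collar (S.line_mem i) (by rw [form_xs, abs_neg, abs_of_pos h0]; linarith), form_xs,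
    neg_neg, rr_src hi, rhoF_Rk]
  show Phi _ _ _ (Phi _ _ _ p0.1) = Phi _ _ _ p0.1
  rw [Phi_comp (line i).unit]
  congr 1
  unfold SS
  rw [Finset.sum_range_succ]
  ring

lemma A_ys {i : Fin 4} (hi : Snk i) (k : ℕ) : S.A (ys i k) = ys i (k + 1) := by
  apply Subtype.ext
  have h0 := Rk_pos k
  have h1 := Rk_le k
  rw [S.A_collar (S.line_mem i) (by rw [form_ys, abs_neg, abs_of_pos h0]; linarith), form_ys,
    neg_neg, rr_snk hi, rhoG_Rk]
  show Phi _ _ _ (Phi _ _ _ p0.1) = Phi _ _ _ p0.1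
  rw [Phi_comp (line i).unit]
  congr 1
  unfold TT
  rw [Finset.sum_range_succ]

lemma not_ball_of {i : Fin 4} {z : Plane} (h0 : 0 < -form z.1 (line i).e)
    (h1 : -form z.1 (line i).e ≤ 1 / 2) : ∀ c ∈ S.P, 13 / 10 ≤ -form z.1 c := by
  intro c hc
  by_contra hcon
  push Not at hcon
  have h2 := S.ball_high (S.line_mem i) hc (z := z) (by rw [abs_lt]; constructor <;> linarith) hcon
  linarith

lemma F_xs {i : Fin 4} (hi : Src i) (k : ℕ) : S.F (xs i (k + 2)) = xs i (k + 1) := by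
  rw [F_apply, S.A_xs hi]
  apply S.H_out
  apply S.not_ball_of (i := i)
  · rw [form_xs, neg_neg]; exact Rk_pos _
  · rw [form_xs, neg_neg]; exact Rk_succ_le k

lemma F_ys {i : Fin 4} (hi : Snk i) (k : ℕ) : S.F (ys i k) = ys i (k + 1) := by
  rw [F_apply, S.A_ys hi]
  apply S.H_out
  apply S.not_ball_of (i := i)
  · rw [form_ys, neg_neg]; exact Rk_pos _
  · rw [form_ys, neg_neg]; exact Rk_succ_le k

lemma base_val (i : Fin 4) : Phi (line i).e (Rk 0) 0 p0.1 =
    (5 / 8 : ℝ) • (pV + √3 • eV i) - (3 / 4 : ℝ) • eV i := by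
  have h1 : form p0.1 (line i).e = -√3 := by
    rw [line_e, form_comm]; exact form_eV_pV i
  unfold Phi
  rw [h1, Rk_zero, Real.cosh_zero, Real.sinh_zero]
  have e1 : √(1 + (3 / 4 : ℝ) ^ 2) = 5 / 4 := by
    rw [show (1 + (3 / 4 : ℝ) ^ 2) = (5 / 4) ^ 2 by norm_num, Real.sqrt_sq (by norm_num)]
  have e2 : √(1 + (-√3) ^ 2) = 2 := by
    have : (1 + (-√3) ^ 2) = (2 : ℝ) ^ 2 := by nlinarith [s3]
    rw [this, Real.sqrt_sq (by norm_num)]
  rw [e1, e2, line_e]
  have e3 : (5 / 4 / 2 : ℝ) = 5 / 8 := by norm_num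
  rw [e3, one_smul, zero_smul, add_zero, neg_smul, sub_neg_eq_add]
  rfl

lemma SS_zero (i : Fin 4) : SS i 0 = 0 := by simp [SS]

lemma TT_zero (i : Fin 4) : TT i 0 = 0 := by simp [TT]

lemma xs_zero (i : Fin 4) : (xs i 0).1 = (5 / 8 : ℝ) • (pV + √3 • eV i) - (3 / 4 : ℝ) • eV i := by
  show Phi (line i).e (Rk 0) (-SS i 0) p0.1 = _
  rw [SS_zero, neg_zero, base_val]

lemma ys_zero (i : Fin 4) : (ys i 0).1 = (5 / 8 : ℝ) • (pV + √3 • eV i) - (3 / 4 : ℝ) • eV i := by
  show Phi (line i).e (Rk 0) (TT i 0) p0.1 = _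
  rw [TT_zero, base_val]

/-- the partner of a source -/
def Pair (i j : Fin 4) : Prop := (i = 0 ∧ j = 2) ∨ (i = 1 ∧ j = 3)

lemma F_jump {i j : Fin 4} (hij : Pair i j) : S.F (xs i 1) = ys j 0 := by
  have hi : Src i := by
    rcases hij with ⟨h, -⟩ | ⟨h, -⟩
    · exact Or.inl h
    · exact Or.inr h
  rw [F_apply, S.A_xs hi]
  have h3 := s3
  have hlt : (√3 : ℝ) < 1733 / 1000 := by
    rw [Real.sqrt_lt' (by norm_num)]; norm_num
  have hgt : (433 / 250 : ℝ) ≤ √3 := by
    apply Real.le_sqrt_of_sq_le; norm_num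
  have h1 : -form (xs i 0).1 pV = 5 / 2 - 3 / 4 * √3 := by
    rw [xs_zero, form_sub_left, form_smul_left, form_add_left, form_smul_left, form_smul_left,
      form_pV, form_eV_pV]
    nlinarith
  apply Subtype.ext
  rw [S.H_ball S.pV_mem (by rw [h1]; linarith), h1, ang_in (by linarith), Rot_pi]
  have h1' : form (xs i 0).1 pV = -(5 / 2 - 3 / 4 * √3) := by linarith
  rw [h1', ys_zero, xs_zero]
  rcases hij with ⟨rfl, rfl⟩ | ⟨rfl, rfl⟩
  · apply vec_ext <;> simp [eV, pV] <;> nlinarith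
  · apply vec_ext <;> simp [eV, pV] <;> nlinarith

lemma iter_xs {i : Fin 4} (hi : Src i) (k : ℕ) : S.F^[k] (xs i (k + 1)) = xs i 1 := by
  induction k with
  | zero => rfl
  | succ k ih => rw [Function.iterate_succ_apply, S.F_xs hi, ih]

lemma iter_ys {i : Fin 4} (hi : Snk i) (k : ℕ) : S.F^[k] (ys i 0) = ys i k := by
  induction k with
  | zero => rfl
  | succ k ih => rw [Function.iterate_succ_apply', ih, S.F_ys hi]

lemma iter_jump {i j : Fin 4} (hij : Pair i j) (k : ℕ) :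
    S.F^[2 * (k + 1)] (xs i (k + 1)) = ys j (k + 1) := by
  have hi : Src i := by
    rcases hij with ⟨h, -⟩ | ⟨h, -⟩
    · exact Or.inl h
    · exact Or.inr h
  have hj : Snk j := by
    rcases hij with ⟨-, h⟩ | ⟨-, h⟩
    · exact Or.inl h
    · exact Or.inr h
  have h2 : 2 * (k + 1) = ((k + 1) + 1) + k := by ring
  rw [h2, Function.iterate_add_apply, S.iter_xs hi, Function.iterate_succ_apply,
    S.F_jump hij, S.iter_ys hj]

/-- the rotation vectors with positive speed -/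
theorem rotation {i j : Fin 4} (hij : Pair i j) (h1 : (line i).α ≠ (line i).β)
    (h2 : (line i).α ≠ (line j).β) (h3 : (line j).α ≠ (line j).β)
    (hv : 0 < (ss i 0 + ss j 0) / 2) :
    IsRotationVector S.F (line i).α (line j).β ((ss i 0 + ss j 0) / 2) := by
  have hcx : ConvergesTo (fun k => xs i (k + 1)) (line i).α := (converges_xs i).shift
  have hcy : ConvergesTo (fun k => ys j (k + 1)) (line j).β := (converges_ys j).shift
  refine ⟨hv, h2, fun k => xs i (k + 1), fun k => 2 * (k + 1),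
    fun k => gpt h2 (tau (line i).α (line j).β (xs i (k + 1))),
    fun k => gpt h2 (tau (line i).α (line j).β (ys j (k + 1))),
    fun k => by positivity, ?_, hcx, ?_, fun k => isProj_gpt h2 _, ?_, ?_⟩
  · intro a b hab
    show 2 * (a + 1) < 2 * (b + 1)
    omega
  · simp only [S.iter_jump hij]
    exact hcy
  · intro k
    show IsProj _ _ (S.F^[2 * (k + 1)] (xs i (k + 1))) _
    rw [S.iter_jump hij]
    exact isProj_gpt h2 _
  · obtain ⟨C1, b1⟩ := lam_bounded hcx h1
    obtain ⟨C2, b2⟩ := lam_bounded hcx h2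
    obtain ⟨C3, b3⟩ := lam_bounded hcy h3.symm
    obtain ⟨C4, b4⟩ := lam_bounded hcy h2.symm
    have key : ∀ k : ℕ, |hdist (gpt h2 (tau (line i).α (line j).β (xs i (k + 1))))
        (gpt h2 (tau (line i).α (line j).β (ys j (k + 1)))) - (SS i (k + 1) + TT j (k + 1))| ≤
        C1 + C2 + C3 + C4 := by
      intro k
      rw [hdist_gpt, tau_lam, tau_lam]
      have e1 := φ_lam (line i) (xs i (k + 1))
      have e2 := φ_lam (line j) (ys j (k + 1))
      rw [φ_xs] at e1
      rw [φ_ys] at e2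
      have a1 := abs_le.mp (b1 k)
      have a2 := abs_le.mp (b2 k)
      have a3 := abs_le.mp (b3 k)
      have a4 := abs_le.mp (b4 k)
      have s1 := SS_nonneg i (k + 1)
      have s2 := TT_nonneg j (k + 1)
      obtain ⟨D, hD⟩ : ∃ D : ℝ, D = (lam (line j).β (xs i (k + 1)) - lam (line i).α (xs i (k + 1))) / 2 -
        (lam (line j).β (ys j (k + 1)) - lam (line i).α (ys j (k + 1))) / 2 := ⟨_, rfl⟩
      rw [← hD]
      have hD1 : |D - (SS i (k + 1) + TT j (k + 1))| ≤ C1 + C2 + C3 + C4 := by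
        rw [abs_le]
        constructor <;>
          linarith [a1.1, a1.2, a2.1, a2.2, a3.1, a3.2, a4.1, a4.2]
      have hab : abs (SS i (k + 1) + TT j (k + 1)) = SS i (k + 1) + TT j (k + 1) :=
        abs_of_nonneg (by linarith)
      have h5 := abs_abs_sub_abs_le D (SS i (k + 1) + TT j (k + 1))
      rw [hab] at h5
      exact h5.trans hD1
    have hmain : Tendsto (fun k : ℕ => (SS i (k + 1) + TT j (k + 1)) / ((2 * (k + 1) : ℕ) : ℝ)) atTop
        (𝓝 ((ss i 0 + ss j 0) / 2)) := by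
      have t1 := (tendsto_add_atTop_iff_nat 1).mpr (cesaro_SS i)
      have t2 := (tendsto_add_atTop_iff_nat 1).mpr (cesaro_TT j)
      have t3 := (t1.add t2).div_const 2
      refine t3.congr fun k => ?_
      push_cast
      field_simp
    have herr : Tendsto (fun k : ℕ => (C1 + C2 + C3 + C4) / ((2 * (k + 1) : ℕ) : ℝ)) atTop (𝓝 0) := by
      apply Tendsto.div_atTop tendsto_const_nhds
      apply tendsto_natCast_atTop_atTop.comp
      apply tendsto_atTop_mono (fun k => ?_) tendsto_id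
      show k ≤ 2 * (k + 1)
      omega
    rw [tendsto_iff_norm_sub_tendsto_zero] at hmain ⊢
    refine squeeze_zero (fun k => norm_nonneg _) (fun k => ?_) ((herr.add hmain).congr
      (fun k => rfl) |>.trans (by rw [add_zero]))
    have hn : (0 : ℝ) < ((2 * (k + 1) : ℕ) : ℝ) := by positivity
    rw [Real.norm_eq_abs, Real.norm_eq_abs]
    have hk := key k
    set X := hdist (gpt h2 (tau (line i).α (line j).β (xs i (k + 1))))
        (gpt h2 (tau (line i).α (line j).β (ys j (k + 1))))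
    set Z := SS i (k + 1) + TT j (k + 1)
    set N := ((2 * (k + 1) : ℕ) : ℝ)
    have e1 : X / N - (ss i 0 + ss j 0) / 2 = (X - Z) / N + (Z / N - (ss i 0 + ss j 0) / 2) := by
      rw [sub_div]; ring
    rw [e1]
    refine (abs_add_le _ _).trans ?_
    have : |(X - Z) / N| ≤ (C1 + C2 + C3 + C4) / N := by
      rw [abs_div, abs_of_pos hn]
      exact div_le_div_of_nonneg_right hk hn.le
    linarith

end Sys

end Pool.Agent.Lib.MP_e1777c_an
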