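import Pool.Agent.Lib.MP_e1777c_an.Orbit

set_option autoImplicit false

open Filter Topology Matrix

/-! Slow motion along the slow lines. -/

namespace Pool.Agent.Lib.MP_e1777c_an

/-- A line with its two end points: the translation `Phi e _ s` moves points away from `α` and
towards `β`. -/
structure Line where
  /-- the unit vector -/
  e : Fin 3 → ℝ
  unit : form e e = 1
  /-- the backward end -/
  α : Boundary
  /-- the forward end -/
  β : Boundary
  /-- normalisation -/
  κ : ℝ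
  κpos : 0 < κ
  eα : form e (nullVec α) = 0
  cα : cross e (nullVec α) = (-1 : ℝ) • nullVec α
  eβ : form e (nullVec β) = 0
  cβ : cross e (nullVec β) = (1 : ℝ) • nullVec β
  dec : ∀ x y, form x y = form x e * form y e -
    κ⁻¹ * (form x (nullVec α) * form y (nullVec β) + form x (nullVec β) * form y (nullVec α))

namespace Line

variable (l : Line)

/-- twice the coordinate along the line -/
noncomputable def φ (z : Plane) : ℝ :=
  Real.log (-form z.1 (nullVec l.α)) - Real.log (-form z.1 (nullVec l.β))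

lemma form_Phi_α (R' s : ℝ) (z : Fin 3 → ℝ) : form (Phi l.e R' s z) (nullVec l.α) =
    √(1 + R' ^ 2) / √(1 + (form z l.e) ^ 2) * Real.exp s * form z (nullVec l.α) := by
  rw [form_Phi_null l.eα l.cα (Or.inr rfl)]
  congr 3
  ring

lemma form_Phi_β (R' s : ℝ) (z : Fin 3 → ℝ) : form (Phi l.e R' s z) (nullVec l.β) =
    √(1 + R' ^ 2) / √(1 + (form z l.e) ^ 2) * Real.exp (-s) * form z (nullVec l.β) := by
  rw [form_Phi_null l.eβ l.cβ (Or.inl rfl)]
  congr 3
  ring

lemma φ_Phi {z w : Plane} {R' s : ℝ} (h : w.1 = Phi l.e R' s z.1) : l.φ w = l.φ z + 2 * s := by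
  unfold φ
  have h1 := null_pos z l.α
  have h2 := null_pos z l.β
  have h3 := sqrt_pos' R'
  have h4 := sqrt_pos' (form z.1 l.e)
  have e1 : -form w.1 (nullVec l.α) =
      (√(1 + R' ^ 2) / √(1 + (form z.1 l.e) ^ 2)) * Real.exp s * (-form z.1 (nullVec l.α)) := by
    rw [h, l.form_Phi_α]; ring
  have e2 : -form w.1 (nullVec l.β) =
      (√(1 + R' ^ 2) / √(1 + (form z.1 l.e) ^ 2)) * Real.exp (-s) * (-form z.1 (nullVec l.β)) := by
    rw [h, l.form_Phi_β]; ring
  have h5 : √(1 + R' ^ 2) / √(1 + (form z.1 l.e) ^ 2) ≠ 0 := by positivity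
  rw [e1, e2, Real.log_mul (mul_ne_zero h5 (Real.exp_ne_zero _)) h1.ne',
    Real.log_mul (mul_ne_zero h5 (Real.exp_ne_zero _)) h2.ne',
    Real.log_mul h5 (Real.exp_ne_zero _), Real.log_mul h5 (Real.exp_ne_zero _),
    Real.log_exp, Real.log_exp]
  ring

lemma log_null (α : Boundary) (z w : Plane) : |Real.log (-form z.1 (nullVec α)) -
    Real.log (-form w.1 (nullVec α))| ≤ Real.log (2 * -form z.1 w.1) := by
  have h1 := null_pos z α
  have h2 := null_pos w α
  have h3 := null_chain z w (null_null α) h1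
  have h4 := null_chain w z (null_null α) h2
  rw [form_comm w.1 z.1] at h4
  have h5 := one_le_dd z w
  have h6 : 0 < 2 * -form z.1 w.1 := by linarith
  have h7 := Real.log_le_log h2 h3
  have h8 := Real.log_le_log h1 h4
  rw [Real.log_mul h6.ne' h1.ne'] at h7
  rw [Real.log_mul h6.ne' h2.ne'] at h8
  rw [abs_le]
  constructor <;> linarith

lemma φ_lip (z w : Plane) : |l.φ z - l.φ w| ≤ 2 * Real.log (2 * -form z.1 w.1) := by
  have h1 := abs_le.mp (log_null l.α z w)
  have h2 := abs_le.mp (log_null l.β z w)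
  unfold φ
  rw [abs_le]
  constructor <;> linarith [h1.1, h1.2, h2.1, h2.2]

/-- The projection to a line of (a neighbourhood of) a disjoint line is bounded. -/
lemma extent {f : Fin 3 → ℝ} (hf : form f f = 1) (hef : 3 ≤ |form l.e f|) {z w : Plane}
    (hz : |form z.1 f| < 1) (hw : |form w.1 f| < 1) : |l.φ z - l.φ w| ≤ 4 := by
  have hκ := l.κpos
  set c := form l.e f with hc
  set A := form f (nullVec l.α) with hA
  set B := form f (nullVec l.β) with hB
  have h1 := l.dec f f
  rw [hf, form_comm f l.e, ← hc, ← hA, ← hB] at h1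
  have hc9 : 9 ≤ c ^ 2 := by
    have : |c| ^ 2 = c ^ 2 := sq_abs c
    nlinarith [abs_nonneg c]
  have hAB : A * B = l.κ * (c ^ 2 - 1) / 2 := by
    field_simp at h1
    linarith
  have hABpos : 0 < A * B := by rw [hAB]; nlinarith
  have key : ∀ z : Plane, |form z.1 f| < 1 →
      |B| * (-form z.1 (nullVec l.α)) < 6 * (|A| * (-form z.1 (nullVec l.β))) ∧
      |A| * (-form z.1 (nullVec l.β)) < 6 * (|B| * (-form z.1 (nullVec l.α))) := by
    intro z hz
    have p1 := null_pos z l.α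
    have p2 := null_pos z l.β
    have h2 := l.dec z.1 z.1
    have h3 := l.dec z.1 f
    rw [z.2.1] at h2
    rw [form_comm f l.e, ← hc, ← hA, ← hB] at h3
    set p := form z.1 (nullVec l.α)
    set q := form z.1 (nullVec l.β)
    set r := form z.1 l.e
    have h2' : 2 * (p * q) = l.κ * (1 + r ^ 2) := by
      field_simp at h2
      linarith
    have hx := abs_lt.mp hz
    rw [h3] at hx
    -- X = |B| (-p), Y = |A| (-q)
    set X := |B| * (-p) with hX
    set Y := |A| * (-q) with hY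
    have hX0 : 0 < X := by
      have : B ≠ 0 := by rintro h; rw [h] at hABpos; simp at hABpos
      have := abs_pos.mpr this
      positivity
    have hY0 : 0 < Y := by
      have : A ≠ 0 := by rintro h; rw [h] at hABpos; simp at hABpos
      have := abs_pos.mpr this
      positivity
    have hXY : X * Y = l.κ ^ 2 * (c ^ 2 - 1) * (1 + r ^ 2) / 4 := by
      have : X * Y = |A * B| * (p * q) := by rw [hX, hY, abs_mul]; ring
      rw [this, abs_of_pos hABpos, hAB]
      have : p * q = l.κ * (1 + r ^ 2) / 2 := by linarith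
      rw [this]; ring
    have hsum : X + Y ≤ l.κ * (1 + |r * c|) := by
      have hs : (X + Y) = |p * B + q * A| := by
        rcases le_or_gt 0 A with hA0 | hA0
        · have hB0 : 0 ≤ B := by
            by_contra hcon; push Not at hcon; nlinarith
          rw [hX, hY, abs_of_nonneg hA0, abs_of_nonneg hB0, abs_of_nonpos (by nlinarith)]
          ring
        · have hB0 : B ≤ 0 := by
            by_contra hcon; push Not at hcon; nlinarith
          rw [hX, hY, abs_of_neg hA0, abs_of_nonpos hB0, abs_of_nonneg (by nlinarith)]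
          ring
      rw [hs]
      have h4 : p * B + q * A = l.κ * (r * c - (r * c - l.κ⁻¹ * (p * B + q * A))) := by
        field_simp
        ring
      rw [h4, abs_mul, abs_of_pos hκ]
      apply mul_le_mul_of_nonneg_left _ hκ.le
      have h5 : |r * c - l.κ⁻¹ * (p * B + q * A)| ≤ 1 := by
        rw [abs_le]; constructor <;> linarith [hx.1, hx.2]
      calc |r * c - (r * c - l.κ⁻¹ * (p * B + q * A))| ≤ |r * c| +
          |r * c - l.κ⁻¹ * (p * B + q * A)| := abs_sub _ _
        _ ≤ 1 + |r * c| := by linarith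
    -- (X+Y)^2 ≤ 8 X Y
    have h8 : (X + Y) ^ 2 ≤ 8 * (X * Y) := by
      have h9 : (X + Y) ^ 2 ≤ (l.κ * (1 + |r * c|)) ^ 2 :=
        pow_le_pow_left₀ (by positivity) hsum 2
      refine h9.trans ?_
      rw [hXY]
      have hrc : |r * c| ^ 2 = r ^ 2 * c ^ 2 := by rw [sq_abs]; ring
      have h10 : (1 + |r * c|) ^ 2 ≤ 2 * ((c ^ 2 - 1) * (1 + r ^ 2)) := by
        have h12 : 9 * r ^ 2 ≤ |r * c| ^ 2 := by rw [hrc]; nlinarith [sq_nonneg r]
        have h13 : 2 * ((c ^ 2 - 1) * (1 + r ^ 2)) = 2 * c ^ 2 - 2 + 2 * |r * c| ^ 2 - 2 * r ^ 2 := by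
          rw [hrc]; ring
        rw [h13]
        nlinarith [sq_nonneg (|r * c| - 1), sq_nonneg (|r * c| - 2)]
      have h11 : (l.κ * (1 + |r * c|)) ^ 2 = l.κ ^ 2 * (1 + |r * c|) ^ 2 := by ring
      rw [h11]
      nlinarith [sq_nonneg l.κ, mul_le_mul_of_nonneg_left h10 (sq_nonneg l.κ)]
    constructor
    · by_contra hcon
      push Not at hcon
      nlinarith
    · by_contra hcon
      push Not at hcon
      nlinarith
  have hA0 : 0 < |A| := by
    apply abs_pos.mpr; rintro h; rw [h] at hABpos; simp at hABpos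
  have hB0 : 0 < |B| := by
    apply abs_pos.mpr; rintro h; rw [h] at hABpos; simp at hABpos
  have hlog6 : Real.log 6 ≤ 2 := by
    rw [Real.log_le_iff_le_exp (by norm_num)]
    have := Real.exp_one_gt_d9
    have h2 : Real.exp 2 = Real.exp 1 * Real.exp 1 := by rw [← Real.exp_add]; norm_num
    rw [h2]; nlinarith
  have key2 : ∀ z : Plane, |form z.1 f| < 1 → |l.φ z - (Real.log |A| - Real.log |B|)| ≤ 2 := by
    intro z hz
    obtain ⟨k1, k2⟩ := key z hz
    have p1 := null_pos z l.α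
    have p2 := null_pos z l.β
    have l1 := Real.log_le_log (by positivity) k1.le
    have l2 := Real.log_le_log (by positivity) k2.le
    rw [Real.log_mul hB0.ne' p1.ne', Real.log_mul (by norm_num) (by positivity),
      Real.log_mul hA0.ne' p2.ne'] at l1
    rw [Real.log_mul hA0.ne' p2.ne', Real.log_mul (by norm_num) (by positivity),
      Real.log_mul hB0.ne' p1.ne'] at l2
    unfold φ
    rw [abs_le]
    constructor <;> linarith
  have a1 := abs_le.mp (key2 z hz)
  have a2 := abs_le.mp (key2 w hw)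
  rw [abs_le]
  constructor <;> linarith [a1.1, a1.2, a2.1, a2.2]

end Line

/-! ### Real inequalities -/

lemma pot_src {R : ℝ} (h0 : 0 < R) (h1 : R < 1 / 2) :
    2 * √R ≤ 8 * (√(1 / R) - √(1 / R - 2 / 3)) := by
  have hT : 2 < 1 / R := by rw [lt_div_iff₀ h0]; linarith
  set T := 1 / R with hTdef
  have ha : √T ^ 2 = T := Real.sq_sqrt (by linarith)
  have hb : √(T - 2 / 3) ^ 2 = T - 2 / 3 := Real.sq_sqrt (by linarith)
  have ha0 : 0 < √T := Real.sqrt_pos.mpr (by linarith)
  have hb0 : 0 < √(T - 2 / 3) := Real.sqrt_pos.mpr (by linarith)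
  have hR : √R * √T = 1 := by
    rw [← Real.sqrt_mul h0.le, hTdef, mul_one_div_cancel h0.ne', Real.sqrt_one]
  set a := √T
  set b := √(T - 2 / 3)
  have hab : b ≤ a := Real.sqrt_le_sqrt (by linarith)
  have h2 : 2 ≤ 8 * (a * (a - b)) := by nlinarith
  have h3 : √R * (8 * (a * (a - b))) = 8 * (a - b) := by
    calc √R * (8 * (a * (a - b))) = (√R * a) * (8 * (a - b)) := by ring
      _ = _ := by rw [hR, one_mul]
  have := mul_le_mul_of_nonneg_left h2 (Real.sqrt_nonneg R)
  rw [h3] at this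
  linarith

lemma pot_snk {R : ℝ} (h0 : 0 < R) (h1 : R < 1 / 2) :
    2 * √R ≤ 8 * (√(1 / R + 2 / 3) - √(1 / R)) := by
  have hT : 2 < 1 / R := by rw [lt_div_iff₀ h0]; linarith
  set T := 1 / R with hTdef
  have ha : √T ^ 2 = T := Real.sq_sqrt (by linarith)
  have hb : √(T + 2 / 3) ^ 2 = T + 2 / 3 := Real.sq_sqrt (by linarith)
  have ha0 : 0 < √T := Real.sqrt_pos.mpr (by linarith)
  have hb0 : 0 < √(T + 2 / 3) := Real.sqrt_pos.mpr (by linarith)
  have hR : √R * √T = 1 := by
    rw [← Real.sqrt_mul h0.le, hTdef, mul_one_div_cancel h0.ne', Real.sqrt_one]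
  set a := √T
  set b := √(T + 2 / 3)
  have hab : b ≤ 7 / 6 * a := by
    apply Real.sqrt_le_iff.mpr
    constructor
    · positivity
    · nlinarith
  have h2 : 2 ≤ 8 * (a * (b - a)) := by nlinarith
  have h3 : √R * (8 * (a * (b - a))) = 8 * (b - a) := by
    calc √R * (8 * (a * (b - a))) = (√R * a) * (8 * (b - a)) := by ring
      _ = _ := by rw [hR, one_mul]
  have := mul_le_mul_of_nonneg_left h2 (Real.sqrt_nonneg R)
  rw [h3] at this
  linarith

lemma sqrt_sub_le {a b : ℝ} (hb : 0 ≤ b) (hab : b ≤ a) : √a - √b ≤ √(a - b) := by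
  have h1 := Real.sq_sqrt hb
  have h2 := Real.sq_sqrt (hb.trans hab)
  have h3 := Real.sq_sqrt (sub_nonneg.mpr hab)
  have h4 := Real.sqrt_nonneg a
  have h5 := Real.sqrt_nonneg b
  have h6 := Real.sqrt_nonneg (a - b)
  by_contra hcon
  push Not at hcon
  nlinarith

lemma rhoF_inv {R : ℝ} (h0 : 0 < R) (h1 : R ≤ 1 / 2) : 1 / rhoF R = 1 / R - 2 / 3 := by
  rw [rhoF_low h0 h1]
  have : (3 - 2 * R) ≠ 0 := by linarith
  field_simp

lemma rhoG_inv {R : ℝ} (h0 : 0 < R) (h1 : R ≤ 3 / 4) : 1 / rhoG R = 1 / R + 2 / 3 := by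
  rw [rhoG_low h0 h1]
  field_simp

lemma slow_speed_nonneg (R : ℝ) : 0 ≤ √R * cut R := mul_nonneg (Real.sqrt_nonneg _) (cut_nonneg _)

lemma slow_speed_le (R : ℝ) : √R * cut R ≤ √R :=
  mul_le_of_le_one_right (Real.sqrt_nonneg _) (cut_le_one _)

lemma slow_speed_neg {R : ℝ} (h : R ≤ 0) : √R * cut R = 0 := by
  rw [Real.sqrt_eq_zero_of_nonpos h, zero_mul]

namespace Sys

variable (S : Sys) (l : Line)

/-- motion along a slow source line -/
lemma slow_src_aux (hl : l.e ∈ S.E 0) (n : ℕ) (z : Plane) (h : S.F^[n] z ∈ L l.e) :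
    z ∈ L l.e ∧
    ((-form z.1 l.e ≤ 0 ∧ -form (S.F^[n] z).1 l.e ≤ 0 ∧ l.φ (S.F^[n] z) = l.φ z) ∨
    (0 < -form z.1 l.e ∧ 0 < -form (S.F^[n] z).1 l.e ∧
      1 / (-form z.1 l.e) - 1 / (-form (S.F^[n] z).1 l.e) = 2 / 3 * n ∧
      0 ≤ l.φ (S.F^[n] z) - l.φ z ∧
      l.φ (S.F^[n] z) - l.φ z ≤ 8 * (√(1 / (-form z.1 l.e)) - √(1 / (-form (S.F^[n] z).1 l.e))))) := by
  induction n with
  | zero =>
    simp only [Function.iterate_zero, id] at h ⊢
    refine ⟨h, ?_⟩
    rcases le_or_gt (-form z.1 l.e) 0 with h0 | h0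
    · left; exact ⟨h0, h0, by trivial⟩
    · right; exact ⟨h0, h0, by simp, by simp, by simp⟩
  | succ n ih =>
    rw [Function.iterate_succ_apply'] at h ⊢
    obtain ⟨h1, h2⟩ := S.F_src (Or.inl rfl) hl h
    obtain ⟨h3, h4⟩ := ih h2
    refine ⟨h3, ?_⟩
    set w := S.F^[n] z
    have hwc := L_collar h2
    have hA := S.A_collar hl hwc
    have hR : -form (S.F w).1 l.e = rhoF (-form w.1 l.e) := by
      rw [h1, S.form_A hl hwc]; rfl
    have hφ : l.φ (S.F w) = l.φ w + 2 * (√(-form w.1 l.e) * cut (-form w.1 l.e)) := by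
      rw [h1]; exact l.φ_Phi hA
    rcases h4 with ⟨h5, h6, h7⟩ | ⟨h5, h6, h7, h8, h9⟩
    · left
      refine ⟨h5, ?_, ?_⟩
      · rw [hR, rhoF_out (Or.inl h6)]; exact h6
      · rw [hφ, slow_speed_neg h6, h7]; ring
    · right
      have hlt := h2.2
      have hinv := rhoF_inv h6 hlt.le
      refine ⟨h5, ?_, ?_, ?_, ?_⟩
      · rw [hR]; exact rhoF_pos h6
      · rw [hR, hinv]; push_cast; linarith
      · rw [hφ]; linarith [slow_speed_nonneg (-form w.1 l.e)]
      · rw [hφ, hR, hinv]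
        have := pot_src h6 hlt
        linarith [slow_speed_le (-form w.1 l.e)]

/-- motion along a slow sink line -/
lemma slow_snk_aux (hl : l.e ∈ S.E 3) (n : ℕ) (z : Plane) (h : z ∈ L l.e) :
    S.F^[n] z ∈ L l.e ∧
    ((-form z.1 l.e ≤ 0 ∧ -form (S.F^[n] z).1 l.e ≤ 0 ∧ l.φ (S.F^[n] z) = l.φ z) ∨
    (0 < -form z.1 l.e ∧ 0 < -form (S.F^[n] z).1 l.e ∧
      1 / (-form (S.F^[n] z).1 l.e) - 1 / (-form z.1 l.e) = 2 / 3 * n ∧
      0 ≤ l.φ (S.F^[n] z) - l.φ z ∧
      l.φ (S.F^[n] z) - l.φ z ≤ 8 * (√(1 / (-form (S.F^[n] z).1 l.e)) - √(1 / (-form z.1 l.e))))) := by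
  induction n with
  | zero =>
    simp only [Function.iterate_zero, id]
    refine ⟨h, ?_⟩
    rcases le_or_gt (-form z.1 l.e) 0 with h0 | h0
    · left; exact ⟨h0, h0, by trivial⟩
    · right; exact ⟨h0, h0, by simp, by simp, by simp⟩
  | succ n ih =>
    rw [Function.iterate_succ_apply']
    obtain ⟨h2, h4⟩ := ih
    obtain ⟨h1, h3⟩ := S.F_snk (Or.inr rfl) hl h2
    refine ⟨h3, ?_⟩
    set w := S.F^[n] z
    have hwc := L_collar h2
    have hA := S.A_collar hl hwc
    have hR : -form (S.F w).1 l.e = rhoG (-form w.1 l.e) := by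
      rw [h1, S.form_A hl hwc]; rfl
    have hφ : l.φ (S.F w) = l.φ w + 2 * (√(-form w.1 l.e) * cut (-form w.1 l.e)) := by
      rw [h1]; exact l.φ_Phi hA
    rcases h4 with ⟨h5, h6, h7⟩ | ⟨h5, h6, h7, h8, h9⟩
    · left
      refine ⟨h5, ?_, ?_⟩
      · rw [hR, rhoG_out (Or.inl h6)]; exact h6
      · rw [hφ, slow_speed_neg h6, h7]; ring
    · right
      have hlt := h2.2
      have hinv := rhoG_inv h6 (by linarith)
      refine ⟨h5, ?_, ?_, ?_, ?_⟩
      · rw [hR]; exact rhoG_pos h6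
      · rw [hR, hinv]; push_cast; linarith
      · rw [hφ]; linarith [slow_speed_nonneg (-form w.1 l.e)]
      · rw [hφ, hR, hinv]
        have := pot_snk h6 hlt
        linarith [slow_speed_le (-form w.1 l.e)]

lemma slow_src (hl : l.e ∈ S.E 0) (n : ℕ) (z : Plane) (h : S.F^[n] z ∈ L l.e) :
    |l.φ (S.F^[n] z) - l.φ z| ≤ 8 * √n := by
  obtain ⟨-, h1 | ⟨h2, h3, h4, h5, h6⟩⟩ := S.slow_src_aux l hl n z h
  · rw [h1.2.2, sub_self, abs_zero]; positivity
  · rw [abs_of_nonneg h5]
    refine h6.trans ?_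
    have h7 : 0 ≤ 1 / -form (S.F^[n] z).1 l.e := by positivity
    have h8 : 1 / -form (S.F^[n] z).1 l.e ≤ 1 / -form z.1 l.e := by
      have : (0 : ℝ) ≤ 2 / 3 * n := by positivity
      linarith
    have h9 := sqrt_sub_le h7 h8
    rw [h4] at h9
    have h10 : √(2 / 3 * (n : ℝ)) ≤ √n :=
      Real.sqrt_le_sqrt (by have : (0 : ℝ) ≤ n := by positivity
                            linarith)
    linarith

lemma slow_snk (hl : l.e ∈ S.E 3) (n : ℕ) (z : Plane) (h : z ∈ L l.e) :
    |l.φ (S.F^[n] z) - l.φ z| ≤ 8 * √n := by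
  obtain ⟨-, h1 | ⟨h2, h3, h4, h5, h6⟩⟩ := S.slow_snk_aux l hl n z h
  · rw [h1.2.2, sub_self, abs_zero]; positivity
  · rw [abs_of_nonneg h5]
    refine h6.trans ?_
    have h7 : 0 ≤ 1 / -form z.1 l.e := by positivity
    have h8 : 1 / -form z.1 l.e ≤ 1 / -form (S.F^[n] z).1 l.e := by
      have : (0 : ℝ) ≤ 2 / 3 * n := by positivity
      linarith
    have h9 := sqrt_sub_le h7 h8
    rw [h4] at h9
    have h10 : √(2 / 3 * (n : ℝ)) ≤ √n :=
      Real.sqrt_le_sqrt (by have : (0 : ℝ) ≤ n := by positivity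
                            linarith)
    linarith

/-- the two slow types -/
lemma stage_src {i : Fin 4} (hl : l.e ∈ S.E i) (hi : i = 0 ∨ i = 3) {j : Fin 4} (hj : Src j)
    {f : Fin 3 → ℝ} (hf : f ∈ S.E j) (n : ℕ) (z : Plane) (h : S.F^[n] z ∈ L f) :
    |l.φ (S.F^[n] z) - l.φ z| ≤ 8 * √n + 4 := by
  have hzL : z ∈ L f := by
    induction n with
    | zero => exact h
    | succ n ih =>
      rw [Function.iterate_succ_apply'] at h
      exact ih (S.F_src hj hf h).2
  rcases S.E_sep hl hf with ⟨h1, h2⟩ | h1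
  · subst h2
    rw [← h1] at h
    rcases hi with rfl | rfl
    · have := S.slow_src l hl n z h
      linarith
    · exfalso
      rcases hj with hj | hj <;> exact absurd hj (by decide)
  · have h3 := l.extent (S.E_unit hf) h1 (z := S.F^[n] z) (w := z)
      (by linarith [L_collar h]) (by linarith [L_collar hzL])
    have : 0 ≤ 8 * √(n : ℝ) := by positivity
    linarith

lemma stage_snk {i : Fin 4} (hl : l.e ∈ S.E i) (hi : i = 0 ∨ i = 3) {j : Fin 4} (hj : Snk j)
    {f : Fin 3 → ℝ} (hf : f ∈ S.E j) (n : ℕ) (z : Plane) (h : z ∈ L f) :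
    |l.φ (S.F^[n] z) - l.φ z| ≤ 8 * √n + 4 := by
  have hzL : S.F^[n] z ∈ L f := by
    induction n with
    | zero => exact h
    | succ n ih =>
      rw [Function.iterate_succ_apply']
      exact (S.F_snk hj hf ih).2
  rcases S.E_sep hl hf with ⟨h1, h2⟩ | h1
  · subst h2
    rw [← h1] at h
    rcases hi with rfl | rfl
    · exfalso
      rcases hj with hj | hj <;> exact absurd hj (by decide)
    · have := S.slow_snk l hl n z h
      linarith
  · have h3 := l.extent (S.E_unit hf) h1 (z := S.F^[n] z) (w := z)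
      (by linarith [L_collar hzL]) (by linarith [L_collar h])
    have : 0 ≤ 8 * √(n : ℝ) := by positivity
    linarith

lemma sqrt_mono_nat {m n : ℕ} (h : m ≤ n) : √(m : ℝ) ≤ √(n : ℝ) :=
  Real.sqrt_le_sqrt (by exact_mod_cast h)

/-- no source low part contains `z` -/
def NotSrc (z : Plane) : Prop := ∀ i, Src i → ∀ e ∈ S.E i, z ∉ L e

lemma notSrc_forward {z : Plane} (h : S.NotSrc z) : S.NotSrc (S.F z) :=
  fun i hi e he hz => h i hi e he (S.F_src hi he hz).2

lemma notSrc_iterate {z : Plane} (h : S.NotSrc z) (n : ℕ) : S.NotSrc (S.F^[n] z) := by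
  induction n with
  | zero => exact h
  | succ n ih =>
    rw [Function.iterate_succ_apply']
    exact S.notSrc_forward ih

lemma stepA {i : Fin 4} (hl : l.e ∈ S.E i) (hi : i = 0 ∨ i = 3) (n : ℕ) (z : Plane)
    (h : S.NotSrc z) :
    |l.φ (S.F^[n] z) - l.φ z| ≤ 8 * √n + 4 + 2 * Real.log 256 := by
  classical
  have hlog : 0 ≤ Real.log 256 := Real.log_nonneg (by norm_num)
  have mid : ∀ m, (∀ j < m, S.NotL (S.F^[j] z)) → |l.φ (S.F^[m] z) - l.φ z| ≤ 2 * Real.log 256 := by
    intro m hm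
    have h1 := S.middle z m hm
    have h2 := l.φ_lip (S.F^[m] z) z
    refine h2.trans ?_
    have h3 := one_le_dd z (S.F^[m] z)
    rw [form_comm (S.F^[m] z).1 z.1]
    have : Real.log (2 * -form z.1 (S.F^[m] z).1) ≤ Real.log 256 :=
      Real.log_le_log (by linarith) (by linarith)
    linarith
  by_cases hex : ∃ j, j < n ∧ ¬ S.NotL (S.F^[j] z)
  · have hex' : ∃ j, ¬ S.NotL (S.F^[j] z) := by
      obtain ⟨j, -, hj⟩ := hex
      exact ⟨j, hj⟩
    set m := Nat.find hex' with hm
    have hm1 : ¬ S.NotL (S.F^[m] z) := Nat.find_spec hex'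
    have hm2 : ∀ j < m, S.NotL (S.F^[j] z) := fun j hj => not_not.mp (Nat.find_min hex' hj)
    have hmn : m ≤ n := by
      obtain ⟨j, hj1, hj2⟩ := hex
      exact (Nat.find_min' hex' hj2).trans hj1.le
    have h1 := mid m hm2
    unfold NotL at hm1
    push Not at hm1
    obtain ⟨j, f, hf, hfL⟩ := hm1
    have hj : Snk j := by
      rcases src_or_snk j with h2 | h2
      · exact absurd hfL (S.notSrc_iterate h m j h2 f hf)
      · exact h2
    have h3 := S.stage_snk l hl hi hj hf (n - m) (S.F^[m] z) hfL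
    rw [← Function.iterate_add_apply, Nat.sub_add_cancel hmn] at h3
    have h4 := sqrt_mono_nat (Nat.sub_le n m)
    have a1 := abs_le.mp h1
    have a2 := abs_le.mp h3
    rw [abs_le]
    constructor <;> linarith [a1.1, a1.2, a2.1, a2.2]
  · push Not at hex
    have := mid n hex
    have : 0 ≤ 8 * √(n : ℝ) := by positivity
    linarith

/-- The displacement along a slow line is sublinear. -/
theorem slow {i : Fin 4} (hl : l.e ∈ S.E i) (hi : i = 0 ∨ i = 3) (n : ℕ) (z : Plane) :
    |l.φ (S.F^[n] z) - l.φ z| ≤ 16 * √n + (8 + 2 * Real.log 256 + 2 * Real.log 40) := by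
  classical
  have hlog : 0 ≤ Real.log 256 := Real.log_nonneg (by norm_num)
  have hlog' : 0 ≤ Real.log 40 := Real.log_nonneg (by norm_num)
  have hn0 : 0 ≤ √(n : ℝ) := Real.sqrt_nonneg _
  by_cases hex : ∃ j, j ≤ n ∧ S.NotSrc (S.F^[j] z)
  · have hex' : ∃ j, S.NotSrc (S.F^[j] z) := by
      obtain ⟨j, -, hj⟩ := hex
      exact ⟨j, hj⟩
    set m := Nat.find hex' with hm
    have hm1 : S.NotSrc (S.F^[m] z) := Nat.find_spec hex'
    have hm2 : ∀ j < m, ¬ S.NotSrc (S.F^[j] z) := fun j hj => Nat.find_min hex' hj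
    have hmn : m ≤ n := by
      obtain ⟨j, hj1, hj2⟩ := hex
      exact (Nat.find_min' hex' hj2).trans hj1
    have h1 := S.stepA l hl hi (n - m) (S.F^[m] z) hm1
    rw [← Function.iterate_add_apply, Nat.sub_add_cancel hmn] at h1
    have h4 := sqrt_mono_nat (Nat.sub_le n m)
    rcases Nat.eq_zero_or_pos m with h0 | h0
    · rw [h0] at h1 h4
      simp only [Function.iterate_zero, id, Nat.sub_zero] at h1
      linarith
    · obtain ⟨m', hm'⟩ := Nat.exists_eq_succ_of_ne_zero h0.ne'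
      have h5 := hm2 m' (by omega)
      unfold NotSrc at h5
      push Not at h5
      obtain ⟨j, hj, f, hf, hfL⟩ := h5
      have h6 := S.stage_src l hl hi hj hf m' z hfL
      have h7 := S.step (S.F^[m'] z)
      have h8 := l.φ_lip (S.F (S.F^[m'] z)) (S.F^[m'] z)
      have h9 := one_le_dd (S.F^[m'] z) (S.F (S.F^[m'] z))
      have h10 : Real.log (2 * -form (S.F (S.F^[m'] z)).1 (S.F^[m'] z).1) ≤ Real.log 40 := by
        rw [form_comm]
        exact Real.log_le_log (by linarith) (by linarith)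
      rw [← Function.iterate_succ_apply' S.F m' z, ← hm'] at h8 h10
      have h11 := sqrt_mono_nat (show m' ≤ n by omega)
      have a1 := abs_le.mp h1
      have a2 := abs_le.mp h6
      have a3 := abs_le.mp h8
      rw [abs_le]
      constructor <;> linarith [a1.1, a1.2, a2.1, a2.2, a3.1, a3.2]
  · push Not at hex
    have h5 := hex n le_rfl
    unfold NotSrc at h5
    push Not at h5
    obtain ⟨j, hj, f, hf, hfL⟩ := h5
    have h6 := S.stage_src l hl hi hj hf n z hfL
    linarith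

end Sys

end Pool.Agent.Lib.MP_e1777c_an
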